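import Mathlib

-- part Pool.Agent.Lib.MP_755262_lc.Online
section

/-!
From an invariant of colour sequences to an online colouring rule of points of the line.
-/

namespace Pool.Agent.Lib.MP_755262_lc

lemma split_sorted (p : ℝ → Prop) (hp : ∀ a b, a < b → p b → p a) (s : List (ℝ × ℕ))
    (hs : s.Pairwise fun a b => a.1 < b.1) :
    ∃ l₁ l₂, s = l₁ ++ l₂ ∧ (∀ a ∈ l₁, p a.1) ∧ ∀ a ∈ l₂, ¬ p a.1 := by
  induction s with
  | nil => exact ⟨[], [], rfl, by simp, by simp⟩
  | cons x s ih =>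
    rw [List.pairwise_cons] at hs
    by_cases h : p x.1
    · obtain ⟨l₁, l₂, rfl, h1, h2⟩ := ih hs.2
      exact ⟨x :: l₁, l₂, rfl, by simpa using ⟨h, by simpa using h1⟩, h2⟩
    · refine ⟨[], x :: s, rfl, by simp, fun a ha => ?_⟩
      rcases List.mem_cons.1 ha with rfl | ha
      · exact h
      · exact fun h1 => h (hp _ _ (hs.1 a ha) h1)

/-- The coloured points, sorted, after a history given latest point first. -/
def state (F : List (ℝ × ℕ) → ℝ → List (ℝ × ℕ) × ℕ × List (ℝ × ℕ)) : List ℝ → List (ℝ × ℕ)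
  | [] => []
  | p :: h => (F (state F h) p).1 ++ (p, (F (state F h) p).2.1) :: (F (state F h) p).2.2

/-- The colour of the latest point. -/
def colour (F : List (ℝ × ℕ) → ℝ → List (ℝ × ℕ) × ℕ × List (ℝ × ℕ)) : List ℝ → ℕ
  | [] => 0
  | p :: h => (F (state F h) p).2.1

theorem online {G : List ℕ → Prop} {Pal : ℕ → Finset ℕ} (hm : Monotone Pal) (h0 : G [])
    (hinf : ∀ l s, G l → s <:+: l → G s)
    (hins : ∀ l₁ l₂, G (l₁ ++ l₂) → ∃ c ∈ Pal (l₁ ++ l₂).length, G (l₁ ++ c :: l₂))
    (huniq : ∀ l, G l → l ≠ [] → ∃ c, l.count c = 1) :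
    ∃ A : List ℝ → ℕ, ∀ x : ℕ → ℝ, Function.Injective x → ∀ n : ℕ,
      (∀ a b : ℝ, (∃ i, i < n ∧ x i ∈ Set.Icc a b) →
        ∃ i, i < n ∧ x i ∈ Set.Icc a b ∧
          ∀ j, j < n → x j ∈ Set.Icc a b → j ≠ i →
            A ((List.range (j + 1)).map x) ≠ A ((List.range (i + 1)).map x)) ∧
      ((Finset.range n).image (fun i => A ((List.range (i + 1)).map x))).card ≤ (Pal n).card := by
  have hF : ∀ (s : List (ℝ × ℕ)) (p : ℝ), ∃ t : List (ℝ × ℕ) × ℕ × List (ℝ × ℕ),
      (s.Pairwise fun a b => a.1 < b.1) → G (s.map Prod.snd) →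
        s = t.1 ++ t.2.2 ∧ (∀ a ∈ t.1, a.1 < p) ∧ (∀ a ∈ t.2.2, ¬ a.1 < p) ∧
          t.2.1 ∈ Pal s.length ∧ G (t.1.map Prod.snd ++ t.2.1 :: t.2.2.map Prod.snd) := by
    intro s p
    by_cases h : (s.Pairwise fun a b => a.1 < b.1) ∧ G (s.map Prod.snd)
    · obtain ⟨l₁, l₂, rfl, h1, h2⟩ := split_sorted (· < p) (fun a b => lt_trans) s h.1
      obtain ⟨c, h3, h4⟩ := hins (l₁.map Prod.snd) (l₂.map Prod.snd) (by simpa using h.2)
      exact ⟨(l₁, c, l₂), fun _ _ => ⟨rfl, h1, h2, by simpa using h3, h4⟩⟩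
    · exact ⟨([], 0, []), fun h1 h2 => (h ⟨h1, h2⟩).elim⟩
  choose F hF using hF
  refine ⟨fun h => colour F h.reverse, fun x hx => ?_⟩
  set col : ℕ → ℕ := fun i => colour F ((List.range (i + 1)).map x).reverse with hcol
  have key : ∀ n, ((state F ((List.range n).map x).reverse).Pairwise fun a b => a.1 < b.1) ∧
      G ((state F ((List.range n).map x).reverse).map Prod.snd) ∧
      (state F ((List.range n).map x).reverse).length = n ∧
      (∀ q, q ∈ state F ((List.range n).map x).reverse ↔ ∃ i, i < n ∧ q = (x i, col i)) ∧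
      ∀ i, i < n → col i ∈ Pal n := by
    intro n
    induction n with
    | zero => simp [state, h0]
    | succ n ih =>
      obtain ⟨k1, k2, k3, k4, k5⟩ := ih
      have e : ((List.range (n + 1)).map x).reverse = x n :: ((List.range n).map x).reverse := by
        simp [List.range_succ]
      have ec : col n = (F (state F ((List.range n).map x).reverse) (x n)).2.1 := by
        simp only [hcol]; rw [e]; rfl
      obtain ⟨f1, f2, f3, f4, f5⟩ := hF _ (x n) k1 k2
      rw [e, state, ← ec]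
      rw [← ec] at f4 f5
      generalize state F ((List.range n).map x).reverse = s at *
      generalize (F s (x n)).1 = l₁ at *
      generalize (F s (x n)).2.2 = l₂ at *
      subst f1
      rw [List.pairwise_append] at k1
      have f6 : ∀ a ∈ l₂, x n < a.1 := fun a ha => by
        obtain ⟨i, hi, rfl⟩ := (k4 a).1 (by simp [ha])
        exact lt_of_le_of_ne (not_lt.1 (f3 _ ha)) fun h => by have := hx h; omega
      refine ⟨?_, by simpa using f5, by simp at k3 ⊢; omega, fun q => ?_, fun i hi => ?_⟩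
      · rw [List.pairwise_append, List.pairwise_cons]
        refine ⟨k1.1, ⟨f6, k1.2.1⟩, fun a ha b hb => ?_⟩
        rcases List.mem_cons.1 hb with rfl | hb
        · exact f2 a ha
        · exact k1.2.2 a ha b hb
      · rw [List.perm_middle.mem_iff, List.mem_cons, k4]
        constructor
        · rintro (rfl | ⟨i, hi, rfl⟩)
          · exact ⟨n, by omega, rfl⟩
          · exact ⟨i, by omega, rfl⟩
        · rintro ⟨i, hi, rfl⟩
          rcases Nat.lt_succ_iff_lt_or_eq.1 hi with h | rfl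
          · exact Or.inr ⟨i, h, rfl⟩
          · exact Or.inl rfl
      · rcases Nat.lt_succ_iff_lt_or_eq.1 hi with h | rfl
        · exact hm (Nat.le_succ n) (k5 i h)
        · exact hm (by omega) f4
  intro n
  obtain ⟨k1, k2, -, k4, k5⟩ := key n
  refine ⟨fun a b ⟨i, hi, hab⟩ => ?_, Finset.card_le_card fun c hc => ?_⟩
  · generalize state F ((List.range n).map x).reverse = s at *
    obtain ⟨l₁, l₂, rfl, h1, h2⟩ := split_sorted (· < a) (fun a b => lt_trans) s k1
    obtain ⟨m₁, m₂, rfl, h3, h4⟩ := split_sorted (· ≤ b) (fun a b h => h.le.trans) l₂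
      (List.pairwise_append.1 k1).2.1
    have h5 : ∀ j, j < n → x j ∈ Set.Icc a b → (x j, col j) ∈ m₁ := fun j hj h => by
      have := (k4 _).2 ⟨j, hj, rfl⟩
      simp only [List.mem_append] at this
      rcases this with h6 | h6 | h6
      · exact absurd (h1 _ h6) (not_lt.2 h.1)
      · exact h6
      · exact absurd h.2 (h4 _ h6)
    obtain ⟨c, hc⟩ := huniq (m₁.map Prod.snd)
      (hinf _ _ k2 (List.IsInfix.map _ ⟨l₁, m₂, by simp⟩))
      (by simpa using List.ne_nil_of_mem (h5 i hi hab))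
    rw [List.count_eq_countP, List.countP_map, List.countP_eq_length_filter,
      List.length_eq_one_iff] at hc
    obtain ⟨z, hz⟩ := hc
    have h6 : ∀ q, q ∈ m₁ ∧ q.2 = c ↔ q = z := fun q => by
      rw [← List.mem_singleton (a := q), ← hz]; simp
    obtain ⟨z1, z2⟩ := (h6 z).2 rfl
    obtain ⟨i₀, i1, rfl⟩ := (k4 z).1 (by simp [z1])
    refine ⟨i₀, i1, ⟨not_lt.1 (h2 _ (List.mem_append_left _ z1)), h3 _ z1⟩,
      fun j hj hj' hne he => hne (hx ?_)⟩
    exact congrArg Prod.fst ((h6 _).1 ⟨h5 j hj hj', he.trans z2⟩)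
  · obtain ⟨i, hi, rfl⟩ := Finset.mem_image.1 hc
    exact k5 i (Finset.mem_range.1 hi)

end Pool.Agent.Lib.MP_755262_lc
end

-- part Pool.Agent.Lib.MP_755262_lc.H84Online
section

/-!
From an invariant of colour sequences to an online rule, without closure under segments.
-/

namespace Pool.Agent.Lib.MP_755262_lc

theorem online_of_uniq {G : List ℕ → Prop} {Pal : ℕ → Finset ℕ} (hm : Monotone Pal) (h0 : G [])
    (hins : ∀ l₁ l₂, G (l₁ ++ l₂) → ∃ c ∈ Pal (l₁ ++ l₂).length, G (l₁ ++ c :: l₂))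
    (huniq : ∀ l s, G l → s <:+: l → s ≠ [] → ∃ c, s.count c = 1) :
    ∃ A : List ℝ → ℕ, ∀ x : ℕ → ℝ, Function.Injective x → ∀ n : ℕ,
      (∀ a b : ℝ, (∃ i, i < n ∧ x i ∈ Set.Icc a b) →
        ∃ i, i < n ∧ x i ∈ Set.Icc a b ∧
          ∀ j, j < n → x j ∈ Set.Icc a b → j ≠ i →
            A ((List.range (j + 1)).map x) ≠ A ((List.range (i + 1)).map x)) ∧
      ((Finset.range n).image (fun i => A ((List.range (i + 1)).map x))).card ≤ (Pal n).card := by
  have hF : ∀ (s : List (ℝ × ℕ)) (p : ℝ), ∃ t : List (ℝ × ℕ) × ℕ × List (ℝ × ℕ),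
      (s.Pairwise fun a b => a.1 < b.1) → G (s.map Prod.snd) →
        s = t.1 ++ t.2.2 ∧ (∀ a ∈ t.1, a.1 < p) ∧ (∀ a ∈ t.2.2, ¬ a.1 < p) ∧
          t.2.1 ∈ Pal s.length ∧ G (t.1.map Prod.snd ++ t.2.1 :: t.2.2.map Prod.snd) := by
    intro s p
    by_cases h : (s.Pairwise fun a b => a.1 < b.1) ∧ G (s.map Prod.snd)
    · obtain ⟨l₁, l₂, rfl, h1, h2⟩ := split_sorted (· < p) (fun a b => lt_trans) s h.1
      obtain ⟨c, h3, h4⟩ := hins (l₁.map Prod.snd) (l₂.map Prod.snd) (by simpa using h.2)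
      exact ⟨(l₁, c, l₂), fun _ _ => ⟨rfl, h1, h2, by simpa using h3, h4⟩⟩
    · exact ⟨([], 0, []), fun h1 h2 => (h ⟨h1, h2⟩).elim⟩
  choose F hF using hF
  refine ⟨fun h => colour F h.reverse, fun x hx => ?_⟩
  set col : ℕ → ℕ := fun i => colour F ((List.range (i + 1)).map x).reverse with hcol
  have key : ∀ n, ((state F ((List.range n).map x).reverse).Pairwise fun a b => a.1 < b.1) ∧
      G ((state F ((List.range n).map x).reverse).map Prod.snd) ∧
      (state F ((List.range n).map x).reverse).length = n ∧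
      (∀ q, q ∈ state F ((List.range n).map x).reverse ↔ ∃ i, i < n ∧ q = (x i, col i)) ∧
      ∀ i, i < n → col i ∈ Pal n := by
    intro n
    induction n with
    | zero => simp [state, h0]
    | succ n ih =>
      obtain ⟨k1, k2, k3, k4, k5⟩ := ih
      have e : ((List.range (n + 1)).map x).reverse = x n :: ((List.range n).map x).reverse := by
        simp [List.range_succ]
      have ec : col n = (F (state F ((List.range n).map x).reverse) (x n)).2.1 := by
        simp only [hcol]; rw [e]; rfl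
      obtain ⟨f1, f2, f3, f4, f5⟩ := hF _ (x n) k1 k2
      rw [e, state, ← ec]
      rw [← ec] at f4 f5
      generalize state F ((List.range n).map x).reverse = s at *
      generalize (F s (x n)).1 = l₁ at *
      generalize (F s (x n)).2.2 = l₂ at *
      subst f1
      rw [List.pairwise_append] at k1
      have f6 : ∀ a ∈ l₂, x n < a.1 := fun a ha => by
        obtain ⟨i, hi, rfl⟩ := (k4 a).1 (by simp [ha])
        exact lt_of_le_of_ne (not_lt.1 (f3 _ ha)) fun h => by have := hx h; omega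
      refine ⟨?_, by simpa using f5, by simp at k3 ⊢; omega, fun q => ?_, fun i hi => ?_⟩
      · rw [List.pairwise_append, List.pairwise_cons]
        refine ⟨k1.1, ⟨f6, k1.2.1⟩, fun a ha b hb => ?_⟩
        rcases List.mem_cons.1 hb with rfl | hb
        · exact f2 a ha
        · exact k1.2.2 a ha b hb
      · rw [List.perm_middle.mem_iff, List.mem_cons, k4]
        constructor
        · rintro (rfl | ⟨i, hi, rfl⟩)
          · exact ⟨n, by omega, rfl⟩
          · exact ⟨i, by omega, rfl⟩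
        · rintro ⟨i, hi, rfl⟩
          rcases Nat.lt_succ_iff_lt_or_eq.1 hi with h | rfl
          · exact Or.inr ⟨i, h, rfl⟩
          · exact Or.inl rfl
      · rcases Nat.lt_succ_iff_lt_or_eq.1 hi with h | rfl
        · exact hm (Nat.le_succ n) (k5 i h)
        · exact hm (by omega) f4
  intro n
  obtain ⟨k1, k2, -, k4, k5⟩ := key n
  refine ⟨fun a b ⟨i, hi, hab⟩ => ?_, Finset.card_le_card fun c hc => ?_⟩
  · generalize state F ((List.range n).map x).reverse = s at *
    obtain ⟨l₁, l₂, rfl, h1, h2⟩ := split_sorted (· < a) (fun a b => lt_trans) s k1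
    obtain ⟨m₁, m₂, rfl, h3, h4⟩ := split_sorted (· ≤ b) (fun a b h => h.le.trans) l₂
      (List.pairwise_append.1 k1).2.1
    have h5 : ∀ j, j < n → x j ∈ Set.Icc a b → (x j, col j) ∈ m₁ := fun j hj h => by
      have := (k4 _).2 ⟨j, hj, rfl⟩
      simp only [List.mem_append] at this
      rcases this with h6 | h6 | h6
      · exact absurd (h1 _ h6) (not_lt.2 h.1)
      · exact h6
      · exact absurd h.2 (h4 _ h6)
    obtain ⟨c, hc⟩ := huniq _ (m₁.map Prod.snd) k2 (List.IsInfix.map _ ⟨l₁, m₂, by simp⟩)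
      (by simpa using List.ne_nil_of_mem (h5 i hi hab))
    rw [List.count_eq_countP, List.countP_map, List.countP_eq_length_filter,
      List.length_eq_one_iff] at hc
    obtain ⟨z, hz⟩ := hc
    have h6 : ∀ q, q ∈ m₁ ∧ q.2 = c ↔ q = z := fun q => by
      rw [← List.mem_singleton (a := q), ← hz]; simp
    obtain ⟨z1, z2⟩ := (h6 z).2 rfl
    obtain ⟨i₀, i1, rfl⟩ := (k4 z).1 (by simp [z1])
    refine ⟨i₀, i1, ⟨not_lt.1 (h2 _ (List.mem_append_left _ z1)), h3 _ z1⟩,
      fun j hj hj' hne he => hne (hx ?_)⟩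
    exact congrArg Prod.fst ((h6 _).1 ⟨h5 j hj hj', he.trans z2⟩)
  · obtain ⟨i, hi, rfl⟩ := Finset.mem_image.1 hc
    exact k5 i (Finset.mem_range.1 hi)

end Pool.Agent.Lib.MP_755262_lc
end
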