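import Pool.Agent.Lib.MP_755262_lc.H84Prop

/-!
Unique-maximum colouring of pivots when every insertion is close to an end.
-/

open Finset

namespace Pool.Agent.Lib.MP_755262_lc

lemma infix_ins {α : Type*} {s l₁ l₂ : List α} {c : α} (h : s <:+: l₁ ++ c :: l₂) :
    s <:+: l₁ ++ l₂ ∨ ∃ a b, a <:+ l₁ ∧ b <+: l₂ ∧ s = a ++ c :: b := by
  rcases List.infix_append_iff.1 h with h | h | ⟨a, b, rfl, ha, hb⟩
  · exact Or.inl (h.trans (List.prefix_append _ _).isInfix)
  · rcases List.infix_cons_iff.1 h with h | h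
    · rcases List.prefix_cons_iff.1 h with rfl | ⟨t, rfl, ht⟩
      · exact Or.inl List.nil_infix
      · exact Or.inr ⟨[], t, List.nil_suffix, ht, rfl⟩
    · exact Or.inl (h.trans (List.suffix_append _ _).isInfix)
  · rcases List.prefix_cons_iff.1 hb with rfl | ⟨t, rfl, ht⟩
    · exact Or.inl (by simpa using ha.isInfix.trans (List.prefix_append _ _).isInfix)
    · exact Or.inr ⟨a, t, ha, ht, rfl⟩

lemma infix_mid {α : Type*} {a b l₁ l₂ : List α} (ha : a <:+ l₁) (hb : b <+: l₂) :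
    a ++ b <:+: l₁ ++ l₂ := by
  obtain ⟨s, rfl⟩ := ha
  obtain ⟨t, rfl⟩ := hb
  exact ⟨s, t, by simp⟩

/-- The largest entry. -/
def top (l : List ℕ) : ℕ := l.foldr max 0

@[simp] lemma top_nil : top [] = 0 := rfl

@[simp] lemma top_cons (c : ℕ) (l : List ℕ) : top (c :: l) = max c (top l) := rfl

@[simp] lemma top_append (a b : List ℕ) : top (a ++ b) = max (top a) (top b) := by
  induction a with
  | nil => simp
  | cons c a ih => simp [ih, max_assoc]

@[simp] lemma top_reverse (a : List ℕ) : top a.reverse = top a := by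
  induction a with
  | nil => simp
  | cons c a ih => simp [ih, max_comm]

lemma le_top' {x : ℕ} {l : List ℕ} (h : x ∈ l) : x ≤ top l := by
  induction l with
  | nil => simp at h
  | cons c a ih =>
    rcases List.mem_cons.1 h with rfl | h
    · simp
    · simp [ih h]

/-- The positive left-to-right records. -/
def IsRec (r : List ℕ) (x : ℕ) : Prop := 0 < x ∧ ∃ b, b <+: r ∧ top b = x

lemma IsRec.le {r : List ℕ} {x : ℕ} (h : IsRec r x) : x ≤ top r := by
  obtain ⟨-, b, ⟨t, rfl⟩, rfl⟩ := h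
  simp

lemma isRec_top {b r : List ℕ} (h : b <+: r) (h0 : 0 < top b) : IsRec r (top b) := ⟨h0, b, h, rfl⟩

lemma IsRec.mono {b r : List ℕ} {x : ℕ} (hb : b <+: r) (h : IsRec b x) : IsRec r x := by
  obtain ⟨h0, p, hp, rfl⟩ := h
  exact ⟨h0, p, hp.trans hb, rfl⟩

lemma isRec_append {a b : List ℕ} {x : ℕ} :
    IsRec (a ++ b) x ↔ IsRec a x ∨ (top a < x ∧ IsRec b x) := by
  constructor
  · rintro ⟨h0, p, hp, rfl⟩
    rcases List.prefix_or_prefix_of_prefix hp (List.prefix_append a b) with hp | ⟨q, rfl⟩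
    · exact Or.inl ⟨h0, p, hp, rfl⟩
    · have hq := (List.prefix_append_right_inj a).1 hp
      rcases le_or_gt (top q) (top a) with h | h
      · exact Or.inl ⟨h0, a, List.prefix_rfl, by simp [h]⟩
      · exact Or.inr ⟨by simp [h], h0, q, hq, by simp [h.le]⟩
  · rintro (h | ⟨h, h0, q, ⟨t, rfl⟩, rfl⟩)
    · exact h.mono (List.prefix_append _ _)
    · exact ⟨h0, a ++ q, ⟨t, by simp⟩, by simp [h.le]⟩

lemma isRec_cons {b : List ℕ} {c x : ℕ} :
    IsRec (c :: b) x ↔ (0 < x ∧ x = c) ∨ (c < x ∧ IsRec b x) := by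
  have : IsRec [c] x ↔ 0 < x ∧ x = c := by
    constructor
    · rintro ⟨h0, p, hp, rfl⟩
      rcases List.prefix_cons_iff.1 hp with rfl | ⟨t, rfl, ht⟩
      · simp at h0
      · obtain rfl := List.prefix_nil.1 ht
        simpa using h0
    · rintro ⟨h0, rfl⟩
      exact ⟨h0, [x], List.prefix_rfl, by simp⟩
  rw [show c :: b = [c] ++ b from rfl, isRec_append, this]; simp

lemma isRec_low {a b : List ℕ} {c : ℕ} (h : c ≤ top a) : IsRec (a ++ c :: b) = IsRec (a ++ b) := by
  funext x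
  rw [isRec_append, isRec_append, isRec_cons]
  refine propext (or_congr_right ⟨?_, fun h1 => ⟨h1.1, Or.inr ⟨by omega, h1.2⟩⟩⟩)
  rintro ⟨h1, h2 | h2⟩
  · omega
  · exact ⟨h1, h2.2⟩

lemma isRec_high {a b : List ℕ} {c x : ℕ} (h : top a < c) :
    IsRec (a ++ c :: b) x ↔ IsRec a x ∨ x = c ∨ (c < x ∧ IsRec b x) := by
  rw [isRec_append, isRec_cons]
  refine or_congr_right ⟨?_, ?_⟩
  · rintro ⟨h1, h2 | h2⟩
    · exact Or.inl h2.2
    · exact Or.inr h2
  · rintro (rfl | h1)
    · exact ⟨h, Or.inl ⟨by omega, rfl⟩⟩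
    · exact ⟨by omega, Or.inr h1⟩

lemma isRec_agree {b r : List ℕ} {y : ℕ} (h : b <+: r) (hy : y ≤ top b) :
    IsRec r y ↔ IsRec b y := by
  obtain ⟨t, rfl⟩ := h
  rw [isRec_append]
  exact ⟨fun h => h.elim id fun h => by omega, Or.inl⟩

/-- The weight of the chain of records. -/
noncomputable def S (β : ℝ) (r : List ℕ) : ℝ := run β (IsRec r) (top r)

variable {β : ℝ} {K : ℕ}

lemma run_top {b r : List ℕ} (h : b <+: r) : run β (IsRec r) (top b) = S β b :=
  run_congr fun _ _ hy => isRec_agree h hy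

lemma S_zero {a : List ℕ} (h : top a = 0) : S β a = 0 := by simp [S, h, run]

lemma S_low {a b : List ℕ} {c : ℕ} (h : c ≤ top a) : S β (a ++ c :: b) = S β (a ++ b) := by
  rw [S, S, isRec_low h]
  congr 1
  simp only [top_append, top_cons]; omega

lemma run_at {a b : List ℕ} {c : ℕ} (h : top a < c) :
    run β (IsRec (a ++ c :: b)) c = 1 + 2 * (S β a / β ^ (c - top a)) := by
  obtain ⟨j, rfl⟩ : ∃ j, c = top a + j + 1 := ⟨c - top a - 1, by omega⟩
  rw [run_pos ((isRec_high h).2 (Or.inr (Or.inl rfl))), run_gap, run_top (List.prefix_append _ _),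
    show top a + j + 1 - top a = j + 1 by omega, pow_succ]
  · ring
  · intro y h1 h2 h3
    rcases (isRec_high h).1 h3 with h4 | h4 | h4
    · have := h4.le; omega
    · omega
    · omega

lemma own_good (hβ : 1 < β) (hK : β ^ K = 2) {g c : ℕ} {a b r : List ℕ} (h : top a < c)
    (h2 : 2 * (S β a / β ^ (c - top a)) ≤ 1) (hb : b <+: r) (hg : Good β K g (IsRec r) c) :
    S β (a ++ c :: b) ≤ S β b + 2 * 2 ^ g := by
  have h0 : 0 ≤ S β b := run_nonneg hβ _
  have h1 : (1 : ℝ) ≤ 2 ^ g := one_le_pow₀ (by norm_num)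
  have h3 := run_at (β := β) (b := b) h
  rcases le_or_gt (top b) c with h4 | h4
  · rw [S, show top (a ++ c :: b) = c by simp only [top_append, top_cons]; omega, h3]
    linarith
  · rw [S, show top (a ++ c :: b) = top b by simp only [top_append, top_cons]; omega,
      run_lin (L := IsRec r) hβ hK h4.le, run_top hb]
    · have h5 := amp_pos (K := K) (L := IsRec r) hβ c (top b)
      have h6 := run_nonneg (L := IsRec r) hβ c
      rcases hg with hg | hg
      · nlinarith
      · have := hg _ (isRec_top hb (by omega)) h4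
        nlinarith
    · intro y h5 h6
      rw [isRec_high h, isRec_agree hb h6]
      refine ⟨?_, fun h7 => Or.inr (Or.inr ⟨h5, h7⟩)⟩
      rintro (h7 | h7 | h7)
      · have := h7.le; omega
      · omega
      · exact h7.2

lemma fine (hβ : 1 < β) (hK : β ^ K = 2) {c : ℕ} {a b : List ℕ} (h : top a < c)
    (hs : Sp (2 * K) (IsRec (c :: b))) :
    S β (a ++ c :: b) ≤ 2 + 4 * (S β a / β ^ (c - top a)) := by
  have h0 : 0 ≤ S β a / β ^ (c - top a) := div_nonneg (run_nonneg hβ _) (by positivity)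
  have hc : IsRec (c :: b) c := isRec_cons.2 (Or.inl ⟨by omega, rfl⟩)
  have h1 := run_at (β := β) (a := []) (b := b) (c := c) (by simp; omega)
  rw [S_zero rfl, zero_div, List.nil_append] at h1
  have h2 := run_le_two hβ hK hs (top (c :: b))
  have h3 := amp_le_run hβ hK hc (by omega) hc.le
  rw [S, show top (a ++ c :: b) = top (c :: b) by simp only [top_append, top_cons]; omega,
    run_lin (L := IsRec (c :: b)) hβ hK hc.le, run_at h, h1]
  · nlinarith
  · intro y h5 h6
    rw [isRec_append]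
    exact ⟨fun h7 => h7.elim (fun h7 => by have := h7.le; omega) And.right,
      fun h7 => Or.inr ⟨by omega, h7⟩⟩

lemma hit (hβ : 1 < β) (hK : β ^ K = 2) {A : ℝ} {c l : ℕ} {a r : List ℕ} (ha : a <:+ r)
    (h : top a < c) (hr : r.length ≤ 2 ^ l) (H : ∀ s, s <:+: r → S β s ≤ A * s.length ^ 2)
    (hz : ∀ i, i ≤ l → top (r.drop (r.length - 2 ^ i)) < c →
      top (r.drop (r.length - 2 ^ i)) + 2 * K ≤ c) :
    4 * (S β a / β ^ (c - top a)) ≤ A * a.length ^ 2 := by
  rcases eq_or_ne a [] with rfl | hne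
  · simp [S, run]
  have h0 : a.length ≠ 0 := by simpa using hne
  have h1 := Nat.pow_log_le_self 2 h0
  have h2 := Nat.lt_pow_succ_log_self (b := 2) (by norm_num) a.length
  have h3 := ha.length_le
  have h4 : Nat.log 2 a.length ≤ l := by
    have := Nat.log_mono_right (b := 2) (h3.trans hr)
    rwa [Nat.log_pow (by norm_num)] at this
  have h5 := hz _ h4
  generalize Nat.log 2 a.length = i at *
  obtain ⟨p, hp⟩ := List.suffix_of_suffix_length_le (List.drop_suffix (r.length - 2 ^ i) r) ha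
    (by simp; omega)
  have h6 := congrArg List.length hp
  have h7 := congrArg top hp
  simp only [List.length_append, List.length_drop, top_append] at h6 h7
  have hS : 0 ≤ S β a := run_nonneg hβ _
  rcases le_or_gt (top p) (top (r.drop (r.length - 2 ^ i))) with h8 | h8
  · have h9 : (4 : ℝ) ≤ β ^ (c - top a) := by
      calc (4 : ℝ) = β ^ (K * 2) := by rw [pow_mul, hK]; norm_num
        _ ≤ _ := pow_le_pow_right₀ hβ.le (by omega)
    have : S β a / β ^ (c - top a) ≤ S β a / 4 := by gcongr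
    linarith [H a ha.isInfix]
  · have h9 : S β a = S β p := by
      rw [← run_top (r := a) ⟨_, hp⟩, S]; congr 1; omega
    have h10 : S β a / β ^ (c - top a) ≤ S β a := div_le_self hS (one_le_pow₀ hβ.le)
    have h11 := H p ((show p <+: a from ⟨_, hp⟩).isInfix.trans ha.isInfix)
    have h12 : (2 : ℝ) * p.length ≤ a.length := by exact_mod_cast (by omega : 2 * p.length ≤ a.length)
    have h13 : 0 ≤ A := by
      have := hS.trans (H a ha.isInfix)
      exact nonneg_of_mul_nonneg_left this (by positivity)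
    have h14 : (2 * p.length : ℝ) ^ 2 ≤ a.length ^ 2 := by gcongr
    nlinarith

lemma sp_ins {Z c : ℕ} {a b : List ℕ} (h : top a < c) (ha : Sp Z (IsRec a)) (hb : Sp Z (IsRec b))
    (h1 : 0 < top a → top a + Z ≤ c) (h2 : ∀ u, IsRec b u → c < u → c + Z ≤ u) :
    Sp Z (IsRec (a ++ c :: b)) := by
  intro x y hx' hy' hxy
  rcases (isRec_high h).1 hx' with hx | rfl | hx <;> rcases (isRec_high h).1 hy' with hy | rfl | hy
  · exact ha _ _ hx hy hxy
  · have := hx.le; have := hx.1; omega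
  · have := hx.le; have := hx.1; omega
  · have := hy.le; omega
  · omega
  · exact h2 _ hy.2 hy.1
  · have := hy.le; omega
  · omega
  · exact hb _ _ hx.2 hy.2 hxy

lemma sp_zero {Z : ℕ} {a : List ℕ} (h : top a = 0) : Sp Z (IsRec a) := fun x _ hx _ _ => by
  have := hx.le; have := hx.1; omega

/-- The coefficient of the size bound. -/
noncomputable def coef (l : ℕ) : ℝ := 2 * 2 ^ (40 * (2 * l + 4) + 2)

/-- One-directional invariant of a segment. -/
def P (β γ : ℝ) (l m : ℕ) (s : List ℕ) : Prop :=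
  S β s ≤ coef l * s.length ^ 2 ∧
    (s.length ≤ m → S γ s ≤ coef l * s.length ^ 2 ∧ Sp (2 * 2) (IsRec s))

/-- The invariant of the pivot colouring. -/
def J (β γ : ℝ) (l m : ℕ) (r : List ℕ) : Prop :=
  ∀ s, s <:+: r → (0 < top s → s.count (top s) = 1) ∧ P β γ l m s ∧ P β γ l m s.reverse

variable {γ : ℝ} {l m : ℕ}

lemma coef_ge : 2 ≤ coef l := by
  have : (1 : ℝ) ≤ 2 ^ (40 * (2 * l + 4) + 2) := one_le_pow₀ (by norm_num)
  unfold coef; linarith

lemma P_low {a b : List ℕ} {c : ℕ} (h : c ≤ top a) (hP : P β γ l m (a ++ b)) :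
    P β γ l m (a ++ c :: b) := by
  have h1 : coef l * ((a ++ b).length : ℝ) ^ 2 ≤ coef l * ((a ++ c :: b).length : ℝ) ^ 2 := by
    have := coef_ge (l := l)
    gcongr; simp
  refine ⟨by rw [S_low h]; exact hP.1.trans h1, fun h2 => ?_⟩
  have := hP.2 (by simp at h2 ⊢; omega)
  rw [S_low h, isRec_low h]
  exact ⟨this.1.trans h1, this.2⟩

lemma J_nil : J β γ l m [] := by
  intro s hs
  obtain rfl := List.infix_nil.1 hs
  simp [P, S, run, sp_zero (a := []) rfl]

lemma J.sub {r s : List ℕ} (h : J β γ l m r) (hs : s <:+: r) : J β γ l m s :=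
  fun t ht => h t (ht.trans hs)

lemma J.reverse {r : List ℕ} (h : J β γ l m r) : J β γ l m r.reverse := by
  intro s hs
  have := h s.reverse (by rwa [← List.reverse_infix, List.reverse_reverse])
  simp only [top_reverse, List.count_reverse, List.reverse_reverse] at this
  exact ⟨this.1, this.2.2, this.2.1⟩

lemma uniq_ins {a b : List ℕ} {c : ℕ} (h : 0 < top (a ++ b) → (a ++ b).count (top (a ++ b)) = 1)
    (ha : 0 < c → top a ≠ c) (hb : 0 < c → top b ≠ c) (h0 : 0 < top (a ++ c :: b)) :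
    (a ++ c :: b).count (top (a ++ c :: b)) = 1 := by
  by_cases hc : top (a ++ c :: b) = c
  · rw [hc] at h0 ⊢
    simp only [top_append, top_cons] at hc
    have h1 : c ∉ a := fun h1 => by have := le_top' h1; have := ha h0; omega
    have h2 : c ∉ b := fun h1 => by have := le_top' h1; have := hb h0; omega
    simp [List.count_eq_zero_of_not_mem h1, List.count_eq_zero_of_not_mem h2]
  · have h1 : top (a ++ c :: b) = top (a ++ b) := by
      simp only [top_append, top_cons] at hc ⊢; omega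
    rw [List.count_append, List.count_cons_of_ne (Ne.symm hc), ← List.count_append, h1]
    exact h (h1 ▸ h0)

lemma J.zero {l₁ l₂ : List ℕ} (h : J β γ l m (l₁ ++ l₂)) : J β γ l m (l₁ ++ 0 :: l₂) := by
  intro s hs
  rcases infix_ins hs with hs | ⟨a, b, ha, hb, rfl⟩
  · exact h s hs
  · obtain ⟨h1, h2, h3⟩ := h _ (infix_mid ha hb)
    refine ⟨uniq_ins h1 (by simp) (by simp), P_low (Nat.zero_le _) h2, ?_⟩
    rw [List.reverse_append] at h3
    rw [List.reverse_append, List.reverse_cons, List.append_assoc]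
    exact P_low (Nat.zero_le _) h3

lemma bound_rec {r : List ℕ} (hr : r.length ≤ 2 ^ l)
    (H : ∀ s, s <:+: r → S β s ≤ coef l * s.length ^ 2) (v : ℕ) (hv : IsRec r v) :
    run β (IsRec r) v ≤ 2 ^ (40 * (2 * l + 4) + 2 + (2 * l + 1)) := by
  obtain ⟨-, b, hb, rfl⟩ := hv
  rw [run_top hb]
  refine (H b hb.isInfix).trans ?_
  have h1 : (b.length : ℝ) ≤ 2 ^ l := by exact_mod_cast hb.length_le.trans hr
  have := coef_ge (l := l)
  calc _ ≤ coef l * (2 ^ l) ^ 2 := by gcongr
    _ = _ := by unfold coef; ring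

lemma exists_height (hβ : 1 < β) (hK : β ^ 2 = 2) (hγ : 1 < γ) (hK' : γ ^ 40 = 2)
    {L L' : ℕ → Prop} (H : ∀ v, L v → run β L v ≤ 2 ^ (40 * (2 * l + 4) + 2 + (2 * l + 1)))
    (H' : ∀ v, L' v → run γ L' v ≤ 2 ^ (40 * (2 * l + 4) + 2 + (2 * l + 1))) (h0 : ¬ L' 0)
    (t t' : ℕ → ℕ) :
    ∃ c, 1 ≤ c ∧ c ≤ 6000 * (2 * l + 4) ∧ ¬ L c ∧ Good β 2 (40 * (2 * l + 4) + 2) L c ∧
      Good γ 40 (40 * (2 * l + 4) + 2) L' c ∧ (∀ u, L' u → u + 4 ≤ c ∨ c + 4 ≤ u) ∧
      (∀ i, i ≤ l → t i < c → t i + 2 * 2 ≤ c) ∧ ∀ i, i ≤ l → t' i < c → t' i + 2 * 40 ≤ c := by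
  classical
  set w := 6000 * (2 * l + 4) with hw
  have c1 := card_letters hβ hK H w
  have c2 := card_bad hβ hK H w
  have c4 := card_letters hγ hK' H' (w + 3)
  have c5 := card_bad hγ hK' H' w
  have c3 : ((range (l + 1)).biUnion fun i => Ioo (t i) (t i + 4)).card ≤ (l + 1) * 3 := by
    simpa using card_biUnion_le_card_mul (range (l + 1)) (fun i => Ioo (t i) (t i + 4)) 3
      fun i _ => by simp
  have c6 : ((range (l + 1)).biUnion fun i => Ioo (t' i) (t' i + 80)).card ≤ (l + 1) * 79 := by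
    simpa using card_biUnion_le_card_mul (range (l + 1)) (fun i => Ioo (t' i) (t' i + 80)) 79
      fun i _ => by simp
  have c7 := card_biUnion_le_card_mul ((Icc 1 (w + 3)).filter L') (fun u => Icc (u - 3) (u + 3)) 7
      fun i _ => by simp; omega
  generalize hB1 : (Icc 1 w).filter L = B1 at c1
  generalize hB2 : ((Icc 1 w).filter fun c => ¬ L c ∧ ¬ Good β 2 (40 * (2 * l + 4) + 2) L c) = B2
    at c2
  generalize hB5 : ((Icc 1 w).filter fun c => ¬ L' c ∧ ¬ Good γ 40 (40 * (2 * l + 4) + 2) L' c) =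
    B5 at c5
  generalize hB3 : ((range (l + 1)).biUnion fun i => Ioo (t i) (t i + 4)) = B3 at c3
  generalize hB6 : ((range (l + 1)).biUnion fun i => Ioo (t' i) (t' i + 80)) = B6 at c6
  generalize hB4 : (((Icc 1 (w + 3)).filter L').biUnion fun u => Icc (u - 3) (u + 3)) = B4 at c7
  have d2 : 10 * B2.card ≤ w + 80 * (2 * l + 4) := by
    refine Nat.le_of_mul_le_mul_left (?_ : 8 * (2 * l + 4) * _ ≤ 8 * (2 * l + 4) * _) (by omega)
    convert c2 using 1 <;> ring
  have d5 : 10 * B5.card ≤ w + 1600 * (2 * l + 4) := by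
    refine Nat.le_of_mul_le_mul_left (?_ : 160 * (2 * l + 4) * _ ≤ 160 * (2 * l + 4) * _)
      (by omega)
    convert c5 using 1 <;> ring
  have hlt : (B1 ∪ B2 ∪ B3 ∪ B4 ∪ B5 ∪ B6).card < (Icc 1 w).card := by
    have e1 := card_union_le B1 B2
    have e2 := card_union_le (B1 ∪ B2) B3
    have e3 := card_union_le (B1 ∪ B2 ∪ B3) B4
    have e4 := card_union_le (B1 ∪ B2 ∪ B3 ∪ B4) B5
    have e5 := card_union_le (B1 ∪ B2 ∪ B3 ∪ B4 ∪ B5) B6
    rw [Nat.card_Icc]; omega
  obtain ⟨c, hc, hn⟩ := exists_mem_notMem_of_card_lt_card hlt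
  simp only [mem_union, not_or] at hn
  obtain ⟨⟨⟨⟨⟨n1, n2⟩, n3⟩, n4⟩, n5⟩, n6⟩ := hn
  have m1 : ¬ L c := fun h => n1 (hB1 ▸ mem_filter.2 ⟨hc, h⟩)
  have hc' := mem_Icc.1 hc
  have m4 : ∀ u, L' u → u + 4 ≤ c ∨ c + 4 ≤ u := fun u hu => by
    by_contra h
    have : u ≠ 0 := fun h1 => h0 (h1 ▸ hu)
    exact n4 (hB4 ▸ mem_biUnion.2 ⟨u, mem_filter.2 ⟨mem_Icc.2 (by omega), hu⟩,
      mem_Icc.2 (by omega)⟩)
  refine ⟨c, hc'.1, hc'.2, m1, ?_, ?_, m4, fun i hi h => ?_, fun i hi h => ?_⟩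
  · by_contra h
    exact n2 (hB2 ▸ mem_filter.2 ⟨hc, m1, h⟩)
  · by_contra h
    exact n5 (hB5 ▸ mem_filter.2 ⟨hc, fun h1 => by have := m4 c h1; omega, h⟩)
  · by_contra h1
    exact n3 (hB3 ▸ mem_biUnion.2 ⟨i, mem_range.2 (by omega), mem_Ioo.2 (by omega)⟩)
  · by_contra h1
    exact n6 (hB6 ▸ mem_biUnion.2 ⟨i, mem_range.2 (by omega), mem_Ioo.2 (by omega)⟩)

lemma J.pivot (hβ : 1 < β) (hK : β ^ 2 = 2) (hγ : 1 < γ) (hK' : γ ^ 40 = 2) {l₁ l₂ : List ℕ}
    (h : J β γ l m (l₁ ++ l₂)) (hn : (l₁ ++ l₂).length ≤ 2 ^ l) (h2 : l₂.length < m)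
    (h1 : ∀ a, a <:+ l₁ → a.length < m → top a = 0) :
    ∃ c, 1 ≤ c ∧ c ≤ 6000 * (2 * l + 4) ∧ J β γ l m (l₁ ++ c :: l₂) := by
  have j1 : J β γ l m l₁ := h.sub (List.prefix_append _ _).isInfix
  have j2 : J β γ l m l₂ := h.sub (List.suffix_append _ _).isInfix
  rw [List.length_append] at hn
  have k2 : ∀ s, s <:+: l₂ → S γ s ≤ coef l * s.length ^ 2 ∧ Sp (2 * 2) (IsRec s) :=
    fun s hs => (j2 s hs).2.1.2 (by have := hs.length_le; omega)
  have k3 : ∀ s, s <:+: l₂.reverse → S γ s ≤ coef l * s.length ^ 2 ∧ Sp (2 * 2) (IsRec s) :=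
    fun s hs => (j2.reverse s hs).2.1.2 (by have := hs.length_le; simp at this; omega)
  obtain ⟨c, c1, c2, c3, c4, c5, c6, c7, c8⟩ := exists_height hβ hK hγ hK'
    (bound_rec (r := l₁.reverse) (by simp; omega) fun s hs => (j1.reverse s hs).2.1.1)
    (bound_rec (r := l₂) (by omega) fun s hs => (k2 s hs).1) (fun h => lt_irrefl _ h.1)
    (fun i => top (l₁.drop (l₁.length - 2 ^ i)))
    (fun i => top (l₂.reverse.drop (l₂.reverse.length - 2 ^ i)))
  refine ⟨c, c1, c2, fun s hs => ?_⟩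
  rcases infix_ins hs with hs | ⟨a, b, ha, hb, rfl⟩
  · exact h s hs
  obtain ⟨u1, u2, u3⟩ := h _ (infix_mid ha hb)
  have ha' : a.reverse <+: l₁.reverse := List.reverse_prefix.2 ha
  have hb' : b.reverse <:+ l₂.reverse := List.reverse_suffix.2 hb
  have hA := coef_ge (l := l)
  have la : (0 : ℝ) ≤ a.length := Nat.cast_nonneg _
  have lb : (0 : ℝ) ≤ b.length := Nat.cast_nonneg _
  have fa : coef l * (a.length : ℝ) ^ 2 + coef l ≤ coef l * (a.length + (b.length + 1)) ^ 2 := by
    rw [← mul_add_one]; gcongr; nlinarith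
  have fb : coef l * (b.length : ℝ) ^ 2 + coef l ≤ coef l * (a.length + (b.length + 1)) ^ 2 := by
    rw [← mul_add_one]; gcongr; nlinarith
  have hcb : ∀ u, IsRec b u → c < u → c + 2 * 2 ≤ u := fun u hu h => by
    have := c6 u (hu.mono hb); omega
  have hbc : 0 < top b → top b + 4 ≤ c ∨ c + 4 ≤ top b := fun h => c6 _ (isRec_top hb h)
  refine ⟨uniq_ins u1 (fun h0 h3 => c3 ?_) (fun h0 h3 => by omega), ?_, ?_⟩
  · have := isRec_top ha' (by simp; omega)
    rwa [top_reverse, h3] at this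
  · rcases le_or_gt c (top a) with h3 | h3
    · exact P_low h3 u2
    have s1 : Sp (2 * 2) (IsRec (c :: b)) :=
      sp_ins (a := []) (by simp; omega) (sp_zero rfl) (k2 b hb.isInfix).2 (by simp) hcb
    refine ⟨?_, fun h4 => ?_⟩
    · have e1 := fine hβ hK h3 s1
      have e2 := hit hβ hK ha h3 (by omega) (fun s hs => (j1 s hs).2.1.1) c7
      simp only [List.length_append, List.length_cons]; push_cast
      linarith
    · have h5 := h1 a ha (by simp at h4; omega)
      refine ⟨?_, sp_ins h3 (sp_zero h5) (k2 b hb.isInfix).2 (by omega) hcb⟩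
      have e1 := own_good hγ hK' h3 (by simp [S_zero h5]) hb c5
      have e2 := (k2 b hb.isInfix).1
      simp only [List.length_append, List.length_cons]; push_cast
      unfold coef at *
      linarith
  · rw [List.reverse_append] at u3
    rw [List.reverse_append, List.reverse_cons, List.append_assoc, List.singleton_append]
    rcases le_or_gt c (top b.reverse) with h3 | h3
    · exact P_low h3 u3
    have s1 := (k3 _ hb'.isInfix).2
    refine ⟨?_, fun h4 => ?_⟩
    · have e0 : 2 * (S β b.reverse / β ^ (c - top b.reverse)) ≤ 1 := by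
        rcases Nat.eq_zero_or_pos (top b) with h5 | h5
        · simp [S_zero (a := b.reverse) (by simp [h5])]
        · have e1 : S β b.reverse ≤ 2 := run_le_two hβ hK s1 _
          have e2 : (4 : ℝ) ≤ β ^ (c - top b.reverse) := by
            rw [top_reverse] at h3 ⊢
            calc (4 : ℝ) = β ^ (2 * 2) := by rw [pow_mul, hK]; norm_num
              _ ≤ _ := pow_le_pow_right₀ hβ.le (by omega)
          have : S β b.reverse / β ^ (c - top b.reverse) ≤ 2 / 4 := by gcongr
          linarith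
      have e1 := own_good hβ hK h3 e0 ha' c4
      have e2 := (j1 a ha.isInfix).2.2.1
      simp only [List.length_append, List.length_cons, List.length_reverse] at e2 ⊢; push_cast
      unfold coef at *
      nlinarith
    · have h5 := h1 a ha (by simp at h4; omega)
      have h6 : top a.reverse = 0 := by simp [h5]
      have h7 : ∀ u, ¬ IsRec a.reverse u := fun u hu => by have := hu.le; have := hu.1; omega
      refine ⟨?_, sp_ins h3 s1 (sp_zero h6) (by rw [top_reverse] at h3 ⊢; omega)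
        fun u hu => (h7 u hu).elim⟩
      have e1 := fine hγ hK' h3 (b := a.reverse)
        (sp_ins (a := []) (by simp; omega) (sp_zero rfl) (sp_zero h6) (by simp)
          fun u hu => (h7 u hu).elim)
      have e2 := hit hγ hK' hb' h3 (by simp; omega) (fun s hs => (k3 s hs).1) c8
      simp only [List.length_append, List.length_cons, List.length_reverse] at e2 ⊢; push_cast
      nlinarith

lemma J.pivot' (hβ : 1 < β) (hK : β ^ 2 = 2) (hγ : 1 < γ) (hK' : γ ^ 40 = 2) {l₁ l₂ : List ℕ}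
    (h : J β γ l m (l₁ ++ l₂)) (hn : (l₁ ++ l₂).length ≤ 2 ^ l) (h2 : l₁.length < m)
    (h1 : ∀ a, a <+: l₂ → a.length < m → top a = 0) :
    ∃ c, 1 ≤ c ∧ c ≤ 6000 * (2 * l + 4) ∧ J β γ l m (l₁ ++ c :: l₂) := by
  have h3 := h.reverse
  rw [List.reverse_append] at h3
  obtain ⟨c, c1, c2, c3⟩ := h3.pivot hβ hK hγ hK' (by simp at hn ⊢; omega) (by simpa using h2)
    fun a ha h4 => by
      simpa using h1 a.reverse (by rwa [← List.reverse_suffix, List.reverse_reverse])
        (by simpa using h4)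
  exact ⟨c, c1, c2, by simpa using c3.reverse⟩

lemma exists_root (K : ℕ) (hK : K ≠ 0) : ∃ β : ℝ, 1 < β ∧ β ^ K = 2 :=
  ⟨2 ^ ((K : ℝ)⁻¹), Real.one_lt_rpow (by norm_num) (by positivity),
    Real.rpow_inv_natCast_pow (by norm_num) hK⟩

end Pool.Agent.Lib.MP_755262_lc
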