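import Pool.Agent.Lib.MP_755262_lc.H84Pick
import Pool.Agent.Lib.MP_755262_lc.H84Online
import Pool.Agent.Lib.MP_755262_lc.Piv

/-!
The invariant of marked sequences of heights, and the insertion step.
-/

open Finset

namespace Pool.Agent.Lib.MP_755262_lc

/-- The profile of a sequence of marked heights, read from the left. -/
def prof : List (ℕ × ℕ × ℕ) → Prof
  | [] => ⟨fun _ => False, fun _ => 1, fun _ => 0, fun _ => 0⟩
  | x :: l => ⟨fun v => (0 < v ∧ v = x.1) ∨ (x.1 < v ∧ (prof l).L v),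
      fun h => if x.1 ≤ h then (prof l).D h + 1 else 1,
      fun v => if 0 < v ∧ v ≤ x.1 then x.2.1 else (prof l).F v,
      fun v => if 0 < v ∧ v ≤ x.1 then x.2.2 else (prof l).G v⟩

/-- The largest height. -/
def tp (l : List (ℕ × ℕ × ℕ)) : ℕ := top (l.map Prod.fst)

/-- The sequence read from the right. -/
def mir (l : List (ℕ × ℕ × ℕ)) : List (ℕ × ℕ × ℕ) :=
  (l.map fun x => (x.1, x.2.2, x.2.1)).reverse

variable {a b l l₁ l₂ : List (ℕ × ℕ × ℕ)} {x : ℕ × ℕ × ℕ} {v c f g : ℕ}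

@[simp] lemma tp_nil : tp [] = 0 := rfl
@[simp] lemma tp_cons : tp (x :: l) = max x.1 (tp l) := rfl
@[simp] lemma tp_append : tp (a ++ b) = max (tp a) (tp b) := by simp [tp]
@[simp] lemma tp_mir : tp (mir l) = tp l := by
  simp only [tp, mir, List.map_reverse, top_reverse, List.map_map]; rfl
@[simp] lemma mir_nil : mir [] = [] := rfl
@[simp] lemma mir_append : mir (a ++ b) = mir b ++ mir a := by simp [mir]
@[simp] lemma mir_cons : mir (x :: l) = mir l ++ [(x.1, x.2.2, x.2.1)] := by simp [mir]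
@[simp] lemma mir_length : (mir l).length = l.length := by simp [mir]
@[simp] lemma mir_mir : mir (mir l) = l := by
  induction l with
  | nil => rfl
  | cons x l ih => simp [ih]

lemma L_cons : (prof (x :: l)).L v ↔ (0 < v ∧ v = x.1) ∨ (x.1 < v ∧ (prof l).L v) := Iff.rfl
lemma D_cons : (prof (x :: l)).D v = if x.1 ≤ v then (prof l).D v + 1 else 1 := rfl
lemma F_cons : (prof (x :: l)).F v = if 0 < v ∧ v ≤ x.1 then x.2.1 else (prof l).F v := rfl
lemma G_cons : (prof (x :: l)).G v = if 0 < v ∧ v ≤ x.1 then x.2.2 else (prof l).G v := rfl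

lemma L_le (h : (prof l).L v) : 0 < v ∧ v ≤ tp l := by
  induction l with
  | nil => exact h.elim
  | cons x l ih =>
    rw [tp_cons]
    rcases L_cons.1 h with h | h
    · omega
    · have := ih h.2; omega

lemma L_append : (prof (a ++ b)).L v ↔ (prof a).L v ∨ (tp a < v ∧ (prof b).L v) := by
  induction a with
  | nil => exact ⟨fun h => Or.inr ⟨(L_le h).1, h⟩, fun h => h.elim False.elim And.right⟩
  | cons x a ih =>
    rw [List.cons_append, L_cons, L_cons, ih, tp_cons, max_lt_iff]; tauto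

lemma L_top (h : a <+: l) (h0 : 0 < tp a) : (prof l).L (tp a) := by
  obtain ⟨b, rfl⟩ := h
  refine L_append.2 (Or.inl ?_)
  induction a with
  | nil => simp at h0
  | cons x a ih =>
    rw [tp_cons] at h0 ⊢
    rcases le_or_gt (tp a) x.1 with h | h
    · exact L_cons.2 (Or.inl ⟨h0, max_eq_left h⟩)
    · rw [max_eq_right h.le]; exact L_cons.2 (Or.inr ⟨h, ih (by omega)⟩)

lemma D_append : (prof (a ++ b)).D v =
    if tp a ≤ v then a.length + (prof b).D v else (prof a).D v := by
  induction a with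
  | nil => simp
  | cons x a ih =>
    rw [List.cons_append, D_cons, D_cons, ih, tp_cons, List.length_cons]
    split_ifs <;> omega

lemma F_append : (prof (a ++ b)).F v =
    if 0 < v ∧ v ≤ tp a then (prof a).F v else (prof b).F v := by
  induction a with
  | nil => rw [if_neg (by rw [tp_nil]; omega)]; rfl
  | cons x a ih =>
    rw [List.cons_append, F_cons, F_cons, ih, tp_cons]
    split_ifs <;> omega

lemma G_append : (prof (a ++ b)).G v =
    if 0 < v ∧ v ≤ tp a then (prof a).G v else (prof b).G v := by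
  induction a with
  | nil => rw [if_neg (by rw [tp_nil]; omega)]; rfl
  | cons x a ih =>
    rw [List.cons_append, G_cons, G_cons, ih, tp_cons]
    split_ifs <;> omega

lemma D_le : (prof l).D v ≤ l.length + 1 := by
  induction l with
  | nil => exact le_rfl
  | cons x l ih => rw [D_cons, List.length_cons]; split_ifs <;> omega

lemma inv_nil : Inv (prof []) :=
  ⟨fun _ h => h.elim, fun _ => le_rfl, fun _ _ _ => le_rfl, fun _ _ => rfl, fun _ h => h.elim,
    fun _ _ _ _ h => h.elim, fun _ _ h => h.elim, fun _ _ h => h.elim, fun _ _ _ _ _ h => h.elim⟩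

/-- The largest height occurs once. -/
def UM (s : List (ℕ × ℕ × ℕ)) : Prop :=
  ∃ a₁ y a₂, s = a₁ ++ y :: a₂ ∧ tp a₁ < y.1 ∧ tp a₂ < y.1

lemma UM.mir (h : UM l) : UM (mir l) := by
  obtain ⟨a₁, y, a₂, rfl, h1, h2⟩ := h
  exact ⟨MP_755262_lc.mir a₂, (y.1, y.2.2, y.2.1), MP_755262_lc.mir a₁, by simp, by simpa,
    by simpa⟩

lemma um_step (h : a ++ b ≠ [] → UM (a ++ b)) (h0 : 0 < x.1) (h1 : tp a ≠ x.1)
    (h2 : tp b ≠ x.1) : UM (a ++ x :: b) := by
  by_cases h3 : tp a < x.1 ∧ tp b < x.1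
  · exact ⟨a, x, b, rfl, h3⟩
  obtain ⟨a₁, y, a₂, e, e1, e2⟩ := h fun e => by
    obtain ⟨rfl, rfl⟩ := List.append_eq_nil_iff.1 e
    exact h3 ⟨h0, h0⟩
  have e3 := congrArg tp e
  simp only [tp_append, tp_cons] at e3
  rcases List.append_eq_append_iff.1 e with ⟨s, rfl, rfl⟩ | ⟨s, rfl, e4⟩
  · refine ⟨a ++ x :: s, y, a₂, by simp, ?_, e2⟩
    simp only [tp_append, tp_cons] at *; omega
  · rcases s with _ | ⟨z, s⟩
    · obtain rfl : y :: a₂ = b := e4
      refine ⟨a₁ ++ [x], y, a₂, by simp, ?_, e2⟩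
      simp only [tp_append, tp_cons, tp_nil] at *; omega
    · obtain ⟨rfl, rfl : a₂ = s ++ b⟩ := List.cons.inj e4
      refine ⟨a₁, y, s ++ x :: b, by simp, e1, ?_⟩
      simp only [tp_append, tp_cons] at *; omega

lemma cls_of (ha : a <:+ l₁) (hU : a ≠ [] → UM a) :
    Cls (prof (a ++ l₂)) (prof (mir l₁)) (tp a) a.length := by
  obtain ⟨a₀, rfl⟩ := ha
  by_cases h : a = []
  · left; simp [h]
  obtain ⟨a₁, y, a₂, rfl, h1, h2⟩ := hU h
  have e : tp (a₁ ++ y :: a₂) = y.1 := by simp only [tp_append, tp_cons]; omega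
  refine Or.inr ⟨?_, ?_, ?_, ?_⟩
  · rw [← tp_mir]; exact L_top (by simp) (by rw [tp_mir]; omega)
  · simp only [e, mir_append, mir_cons, List.append_assoc, List.cons_append, D_append, D_cons,
      tp_mir, mir_length, List.length_append, List.length_cons]
    split_ifs <;> omega
  · rw [mir_append, D_append, tp_mir, if_pos le_rfl, mir_length]
    have : 1 ≤ (prof (mir a₀)).D (tp (a₁ ++ y :: a₂)) := by
      rcases mir a₀ with _ | ⟨z, s⟩
      · exact le_rfl
      · rw [D_cons]; split_ifs <;> omega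
    omega
  · simp only [e, mir_append, mir_cons, List.append_assoc, List.cons_append, F_append, F_cons,
      G_append, G_cons, tp_mir]
    split_ifs <;> omega

lemma suffix_step (hU : ∀ s, s <:+: l₁ ++ l₂ → s ≠ [] → UM s)
    (hI : ∀ s, s <:+ l₁ ++ l₂ → Inv (prof s)) (h0 : 0 < c) (hc : ¬ (prof (mir l₁)).L c)
    (hg : ∀ O N t n, Glue O t n c f g (prof l₂) N → Inv O → Cls O (prof (mir l₁)) t n → Inv N) :
    ∀ s, s <:+ l₁ ++ (c, f, g) :: l₂ → Inv (prof s) := by
  intro s hs
  obtain hs | ⟨a, ha, rfl⟩ : s <:+ l₂ ∨ ∃ a, a <:+ l₁ ∧ s = a ++ (c, f, g) :: l₂ := by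
    rcases List.suffix_or_suffix_of_suffix hs (List.suffix_append _ _) with h | ⟨a, rfl⟩
    · rcases List.suffix_cons_iff.1 h with rfl | h
      · exact Or.inr ⟨[], List.nil_suffix, rfl⟩
      · exact Or.inl h
    · exact Or.inr ⟨a, (List.suffix_append_self_iff.1 hs), rfl⟩
  · exact hI s (hs.trans (List.suffix_append _ _))
  have hO := hI (a ++ l₂) (List.suffix_append_self_iff.2 ha)
  have hC := cls_of (l₂ := l₂) ha (hU a (ha.isInfix.trans (List.prefix_append _ _).isInfix))
  have hT : 0 < tp a → (prof (a ++ l₂)).L (tp a) := L_top (List.prefix_append _ _)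
  rcases lt_trichotomy (tp a) c with h | h | h
  · refine hg _ _ _ _ ⟨h, fun v => ?_, fun v h1 => ?_, fun v h1 h2 => ?_, fun v h1 => ?_,
      fun v h1 h2 => ?_, ?_, fun v h1 => ?_, fun v h1 h2 => ?_, ?_, fun v h1 => ?_, ?_⟩ hO hC
    · rw [L_append, L_append, L_cons]
      constructor
      · rintro (e | ⟨_, e | e⟩)
        · exact Or.inl ⟨Or.inl e, (L_le e).2⟩
        · exact Or.inr (Or.inl e.2)
        · exact Or.inr (Or.inr e.symm)
      · rintro (⟨e | e, _⟩ | rfl | e)
        · exact Or.inl e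
        · omega
        · exact Or.inr ⟨h, Or.inl ⟨h0, rfl⟩⟩
        · exact Or.inr ⟨by omega, Or.inr e.symm⟩
    · rw [D_append, D_append, if_neg (by omega), if_neg (by omega)]
    · rw [D_append, D_cons, if_pos h1, if_neg (by omega)]
    · rw [D_append, D_cons, if_pos (by omega), if_pos h1]; omega
    · rw [F_append, F_append, if_pos ⟨h1, h2⟩, if_pos ⟨h1, h2⟩]
    · rw [F_append, F_cons, if_neg (by omega), if_pos ⟨h0, le_rfl⟩]
    · rw [F_append, F_cons, if_neg (by omega), if_neg (by omega)]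
    · rw [G_append, G_append, if_pos ⟨h1, h2⟩, if_pos ⟨h1, h2⟩]
    · rw [G_append, G_cons, if_neg (by omega), if_pos ⟨h0, le_rfl⟩]
    · rw [G_append, G_cons, if_neg (by omega), if_neg (by omega)]
    · rcases hC with e | e
      · exact Or.inl e.1
      · rcases Nat.eq_zero_or_pos (tp a) with e0 | e0
        · exact Or.inl e0
        · have := (hI [] List.nil_suffix).one 0
          refine Or.inr ⟨hT e0, ?_⟩
          have e1 := e.2.1
          have : 1 ≤ (prof (mir l₁)).D (tp a - 1) := by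
            rcases mir l₁ with _ | ⟨z, s⟩
            · exact le_rfl
            · rw [D_cons]; split_ifs <;> omega
          omega
  · exact absurd (h ▸ (hC.resolve_left (by omega)).1) hc
  · refine hO.hide (hT (by omega)) (funext fun v => propext ?_) (funext fun v => ?_)
      (funext fun v => ?_) fun v => ?_
    · rw [L_append, L_append, L_cons]
      refine or_congr_right (and_congr_right fun e => ⟨fun e1 => (e1.resolve_left ?_).2,
        fun e1 => Or.inr ⟨?_, e1⟩⟩) <;> simp only <;> omega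
    · rw [F_append, F_append, F_cons]; split_ifs <;> omega
    · rw [G_append, G_append, G_cons]; split_ifs <;> omega
    · rw [D_append, D_append, D_cons]; split_ifs <;> omega

/-- The invariant of the whole sequence. -/
def GI (r : List (ℕ × ℕ × ℕ)) : Prop :=
  (∀ s, s <:+: r → s ≠ [] → UM s) ∧ (∀ s, s <:+ r → Inv (prof s)) ∧
    ∀ s, s <:+ mir r → Inv (prof s)

lemma GI.mir (h : GI l) : GI (mir l) := by
  refine ⟨fun s hs h0 => ?_, h.2.2, by simpa using h.2.1⟩
  obtain ⟨p, q, e⟩ := hs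
  have e1 := congrArg MP_755262_lc.mir e
  simp only [mir_append, mir_mir] at e1
  simpa using (h.1 (MP_755262_lc.mir s) ⟨_, _, by rw [← e1, List.append_assoc]⟩ fun e2 => h0 (by
    simpa using congrArg MP_755262_lc.mir e2)).mir

lemma GI.ins {lo top : ℕ} (h : GI (l₁ ++ l₂)) (hr : Rng (prof (MP_755262_lc.mir l₁)) (prof l₂) lo top) :
    ∃ x : ℕ × ℕ × ℕ, mu x.1 ≤ 8 * ((l₁ ++ l₂).length + 1) ∧ GI (l₁ ++ x :: l₂) := by
  have hA : Inv (prof (MP_755262_lc.mir l₁)) := h.2.2 _ (by simp)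
  have hB : Inv (prof l₂) := h.2.1 _ (by simp)
  obtain ⟨c, s, c1, c2, c3⟩ := pick hA hB hr
  have c4 := c3.low
  have c5 : ¬ (prof l₂).L c := fun e => by
    have := c3.far c e
    simp only [cl] at this; omega
  refine ⟨(c, s, 0), (hr.hA c (by omega) c1).trans ?_, fun s hs h0 => ?_,
    suffix_step h.1 h.2.1 (by omega) c2.nl fun O N t n a b e => glueR a b hA hB e hr c1 c2 c3, ?_⟩
  · have : (prof (MP_755262_lc.mir l₁)).D c ≤ (l₁ ++ l₂).length + 1 :=
      D_le.trans (by simp)
    exact_mod_cast Nat.mul_le_mul_left 8 this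
  · rcases infix_ins hs with hs | ⟨a, b, ha, hb, rfl⟩
    · exact h.1 s hs h0
    refine um_step (h.1 _ (infix_mid ha hb)) (by omega) (fun e => c2.nl ?_) fun e => c5 ?_
    · obtain ⟨p, rfl⟩ := ha
      have := L_top (a := MP_755262_lc.mir a) (l := MP_755262_lc.mir (p ++ a)) (by simp)
        (by rw [tp_mir, e]; omega)
      rwa [tp_mir, e] at this
    · have := L_top hb (by rw [e]; omega)
      rwa [e] at this
  · have h1 := h.mir
    rw [mir_append] at h1
    rw [mir_append, mir_cons, List.append_assoc]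
    exact suffix_step h1.1 h1.2.1 (by omega) (by rwa [mir_mir])
      fun O N t n a b e => glueL a b hA hB (by rwa [mir_mir] at e) hr c1 c2 c3

lemma GI.step (h : GI (l₁ ++ l₂)) :
    ∃ x : ℕ × ℕ × ℕ, x.1 < cC * (Nat.log 2 (l₁ ++ l₂).length + 5) ∧ GI (l₁ ++ x :: l₂) := by
  obtain ⟨x, h1, h2⟩ : ∃ x : ℕ × ℕ × ℕ, mu x.1 ≤ 8 * ((l₁ ++ l₂).length + 1) ∧
      GI (l₁ ++ x :: l₂) := by
    obtain ⟨lo, top, hr | hr⟩ := exists_rng (n := (l₁ ++ l₂).length + 1)
      (h.2.2 (MP_755262_lc.mir l₁) (by simp)) (h.2.1 l₂ (by simp))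
      (fun _ => D_le.trans (by simp)) fun _ => D_le.trans (by simp)
    · exact h.ins hr
    · have h1 := h.mir
      rw [mir_append] at h1
      obtain ⟨x, x1, x2⟩ := h1.ins (by rwa [mir_mir])
      exact ⟨(x.1, x.2.2, x.2.1), by simpa [add_comm] using x1, by simpa using x2.mir⟩
  refine ⟨x, mu_lt (h1.trans_lt ?_), h2⟩
  have : (((l₁ ++ l₂).length + 1 : ℕ) : ℝ) ≤ (2 ^ (Nat.log 2 (l₁ ++ l₂).length + 1) : ℕ) := by
    exact_mod_cast Nat.lt_pow_succ_log_self (by norm_num) _
  have h3 : (0 : ℝ) < 2 ^ Nat.log 2 (l₁ ++ l₂).length := by positivity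
  push_cast at this
  rw [mu_mul, pow_add] at *
  linarith

theorem online_log : ∃ A : List ℝ → ℕ, ∀ x : ℕ → ℝ, Function.Injective x → ∀ n : ℕ,
      (∀ a b : ℝ, (∃ i, i < n ∧ x i ∈ Set.Icc a b) →
        ∃ i, i < n ∧ x i ∈ Set.Icc a b ∧
          ∀ j, j < n → x j ∈ Set.Icc a b → j ≠ i →
            A ((List.range (j + 1)).map x) ≠ A ((List.range (i + 1)).map x)) ∧
      ((Finset.range n).image (fun i => A ((List.range (i + 1)).map x))).card ≤
        (range (cC * (Nat.log 2 n + 5))).card := by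
  refine online_of_uniq (G := fun l => ∃ r, GI r ∧ r.map Prod.fst = l)
    (Pal := fun n => range (cC * (Nat.log 2 n + 5))) (fun m n h => range_subset_range.2 ?_)
    ⟨[], ⟨fun s hs h0 => absurd (List.infix_nil.1 hs) h0, fun s hs => ?_, fun s hs => ?_⟩, rfl⟩
    ?_ ?_
  · have := Nat.log_mono_right (b := 2) h
    gcongr
  · rw [List.suffix_nil.1 hs]; exact inv_nil
  · rw [List.suffix_nil.1 hs]; exact inv_nil
  · rintro p q ⟨r, h1, h2⟩
    obtain ⟨l₁, l₂, rfl, rfl, rfl⟩ := List.map_eq_append_iff.1 h2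
    obtain ⟨x, x1, x2⟩ := h1.step
    exact ⟨x.1, mem_range.2 (by simpa using x1), _, x2, by simp⟩
  · rintro p s ⟨r, h1, rfl⟩ hs h0
    obtain ⟨s, h2, rfl⟩ := List.infix_map_iff.1 hs
    obtain ⟨a₁, y, a₂, rfl, e1, e2⟩ := h1.1 s h2 (by simpa using h0)
    refine ⟨y.1, ?_⟩
    rw [List.map_append, List.map_cons, List.count_append, List.count_cons_self,
      List.count_eq_zero.2 fun e => absurd (le_top' e) (not_le.2 e1),
      List.count_eq_zero.2 fun e => absurd (le_top' e) (not_le.2 e2)]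

end Pool.Agent.Lib.MP_755262_lc
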