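import Pool.Agent.Lib.MP_755262_lc.H84Prop

-- part Pool.Agent.Lib.MP_755262_lc.H84Glue
section

/-!
The invariant survives the insertion of a well placed point.
-/

open Finset

namespace Pool.Agent.Lib.MP_755262_lc

lemma Inv.hide {P N : Prof} {t : ℕ} (hP : Inv P) (ht : P.L t) (hL : N.L = P.L) (hF : N.F = P.F)
    (hG : N.G = P.G) (hD : ∀ h, N.D h = P.D h + if t ≤ h then 1 else 0) : Inv N := by
  have hA : ∀ hi, Agree P N 0 hi := fun hi =>
    ⟨fun z _ _ => by rw [hL], fun z _ _ => by rw [hF], fun z _ _ => by rw [hG],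
      fun x y _ h2 _ => by
        simp only [Prof.m, hD]; push_cast
        split_ifs <;> first | omega | linarith⟩
  refine ⟨fun v hv => hP.pos v (hL ▸ hv), fun h => ?_, fun x y hxy => ?_, fun h hh => ?_,
    fun v hv => ?_, fun u v h1 h2 => (hA v).iB hP h1 (Nat.zero_le _) h2 le_rfl,
    fun u v => (hA v).iE hP (Nat.zero_le _) le_rfl,
    fun y z => (hA z).i3 hP (Nat.zero_le _) le_rfl,
    fun y u v h1 h2 => (hA y).i5 hP h1 (Nat.zero_le _) h2 le_rfl⟩
  · rw [hD]; have := hP.one h; omega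
  · rw [hD, hD]; have := hP.mono hxy; split_ifs <;> omega
  · rw [hL] at hh
    have : t ≠ h + 1 := fun h1 => hh (h1 ▸ ht)
    rw [hD, hD, hP.stay h hh]; split_ifs <;> omega
  · rw [hF]; exact hP.i0 v (hL ▸ hv)

/-- `O` reads a segment of length `n` and top `t` towards the gap, `A` reads it from the gap. -/
def Cls (O A : Prof) (t n : ℕ) : Prop :=
  (t = 0 ∧ n = 0) ∨
    (A.L t ∧ O.D (t - 1) + A.D (t - 1) = n + 1 ∧ n + 1 ≤ A.D t ∧ O.G t = A.F t)

/-- Between `lo` and `top` the side `A` is heavy and the side `B` is light. -/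
structure Rng (A B : Prof) (lo top : ℕ) : Prop where
  len : 2 * lo + cC ≤ 2 * top
  hA : ∀ h, lo < h → h < top → mu h ≤ 8 * A.D h
  hB : ∀ h, lo < h → h ≤ top → (B.D h : ℝ) ≤ mu h
  lo : mu lo ≤ 4 * B.D lo
  tA : 4 * (A.D top : ℝ) < mu top
  tB : 4 * (B.D top : ℝ) < mu top

/-- The mass below the record is at most natural. -/
def Prof.mild (A : Prof) (t : ℕ) : Prop := (A.D (t - 1) : ℝ) ≤ 2 * mu t

/-- The height `c` is well placed for the heavy side. -/
structure HeavyOK (A : Prof) (top c : ℕ) : Prop where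
  nl : ¬ A.L c
  below : ∀ t, A.L t → t < c → c < t + 4 * cK → ¬ A.mild t ∧ A.D t ≤ 2 * A.D (t - 1)
  above : ∀ v, A.L v → c < v → v < c + 4 * cK → ¬ A.mild v
  good : 2 ≤ run bt A.L c ∨ ∀ v, A.L v → c < v → v ≤ top → 16 ≤ (A.D (v - 1) / mu v) ^ cp →
    16 * amp bt cK A.L c v * A.D (v - 1) ≤ (A.D (v - 1) / mu v) ^ cp * mu c

/-- The height `c` is regular in the zone of a marked record. -/
def Reg (B : Prof) (lo c : ℕ) : Prop :=
  (∀ u, B.L u → u + cZ ≤ c ∨ c + cZ ≤ u) ∧ ∃ y, B.L y ∧ B.F y ≠ 0 ∧ c < y ∧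
    lo + 1 + cR * B.F y < y ∧ (∀ z, B.L z → c < z → z < y → B.F z = 0) ∧
    ∀ v, B.L v → c < v → v < y → run gm (fun z => z = c ∨ (B.L z ∧ c < z)) v ≤
      2 ^ (1024 * B.F y) * (1 + 2 ^ (11 * B.F y) * B.D (v - 1) / mu y)

/-- The height `c` may carry the mark `S`. -/
def Sq (B : Prof) (lo c S : ℕ) : Prop :=
  lo + 1 + 10 * cR * S < c ∧ mu c ≤ 2 ^ (2 * S) * B.D c ∧
    (∀ u, B.L u → B.F u ≠ 0 → u < c → u + cZ ≤ c) ∧
    ∀ y, B.L y → B.F y ≠ 0 → c < y → c + cR * B.F y ≤ y ∨ (16 * S ≤ B.F y ∧ c + cR * S ≤ y)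

/-- The height `c` with mark `S` is well placed for the light side. -/
structure LightOK (B : Prof) (lo c S : ℕ) : Prop where
  far : ∀ u, B.L u → u + cl ≤ c ∨ c + cl ≤ u
  low : lo + 1 + cZ ≤ c
  alt : (S = 0 ∧ Reg B lo c) ∨ (5 ≤ S ∧ Sq B lo c S)

variable {O A B N : Prof} {t n c f g S lo top : ℕ}

lemma Glue.Dc (h : Glue O t n c f g B N) : N.D (c - 1) = n + 1 :=
  h.D2 _ (by have := h.lt; omega) (by have := h.lt; omega)

lemma Glue.mc (h : Glue O t n c f g B N) {v : ℕ} (hv : c < v) : N.m c v = B.D (v - 1) := by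
  simp only [Prof.m]; rw [h.Dc, h.D3 _ (by omega)]; push_cast; ring

lemma Glue.mt (h : Glue O t n c f g B N) (hc : Cls O A t n) (ht : 0 < t) :
    N.m t (t + 1) = A.D (t - 1) := by
  have h1 := (hc.resolve_left (by omega)).2.1
  have h2 : ((O.D (t - 1) + A.D (t - 1) : ℕ) : ℝ) = (n + 1 : ℕ) := by rw [h1]
  simp only [Prof.m, Nat.add_sub_cancel]
  rw [h.D2 t le_rfl h.lt, h.D1 _ (by omega)]; push_cast at h2 ⊢; linarith

lemma Glue.vtop (h : Glue O t n c f g B N) {u : ℕ} (h1 : t < u) (h2 : u ≤ c) :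
    mrun bt (Lge N.L u) c = 2 := by
  rw [mrun_step (u := u - 1) ⟨⟨h.Lc, h2⟩, by omega, fun z _ b hz => by
    have := h.cases hz.1; have := hz.2; omega⟩, mrun_zero (by omega)]
  simp

lemma Glue.vlow (h : Glue O t n c f g B N) {u : ℕ} (h2 : u ≤ t) :
    mrun bt (Lge N.L u) c = max 2 (1 + 2 * (mrun bt (Lge N.L u) t / bt ^ (c - t))) :=
  mrun_step ⟨⟨h.Lc, by have := h.lt; omega⟩, h.lt, fun z a b hz => by
    have := h.cases hz.1; omega⟩

lemma Cls.le (hc : Cls O A t n) (hA : Inv A) {x : ℕ} (hx : t ≤ x) : n + 1 ≤ A.D x := by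
  rcases hc with hc | hc
  · have := hA.one x; omega
  · exact hc.2.2.1.trans (hA.mono hx)

lemma Rng.sum (hr : Rng A B lo top) {x y : ℕ} (hx : x ≤ A.D top) (hy : y ≤ B.D top) :
    ((x + y : ℕ) : ℝ) ≤ mu top := by
  have h1 : (x : ℝ) ≤ A.D top := by exact_mod_cast hx
  have h2 : (y : ℝ) ≤ B.D top := by exact_mod_cast hy
  have := hr.tA; have := hr.tB; have := mu_pos top
  push_cast; linarith

lemma mu_two {x y : ℕ} (h : x ≤ y + cC) : mu x ≤ 2 * mu y := by
  simpa using mu_le (x := x) (y := y) 1 (by omega)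

lemma big_pow {x : ℝ} (h : 2 ≤ x) : 16 ≤ x ^ cp :=
  calc (16 : ℝ) = 2 ^ 4 := by norm_num
    _ ≤ 2 ^ cp := pow_le_pow_right₀ (by norm_num) (by simp [cp])
    _ ≤ _ := by gcongr

lemma near_pow {x : ℝ} {u v : ℕ} (h1 : u ≤ v) (h2 : v ≤ u + 4 * cK) (hx : 0 ≤ x) :
    (x / mu u) ^ cp ≤ 2 * (x / mu v) ^ cp := by
  have h3 : mu ((v - u) * cp) ≤ 2 ^ 1 := by
    rw [← mu_mul]; exact mu_mono (by simp only [cK, cp, cC] at h2 ⊢; lia)
  have : 0 ≤ (x / mu v) ^ cp := by have := mu_pos v; positivity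
  rw [shift_pow h1]; nlinarith

lemma glueR (h : Glue O t n c S 0 B N) (hO : Inv O) (hA : Inv A) (hB : Inv B)
    (hc : Cls O A t n) (hr : Rng A B lo top) (hct : c < top) (hH : HeavyOK A top c)
    (hL : LightOK B lo c S) : Inv N := by
  have hlt := h.lt
  have hlow := hL.low
  have hm := h.mono hO hB
  have hjt : 0 < t → N.jk t → t ≤ lo + 1 := fun h1 h2 => by
    by_contra h3
    have e1 := hr.hA (t - 1) (by omega) (by omega)
    have e2 := mu_two (x := t) (y := t - 1) (by have := cC0; omega)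
    unfold Prof.jk at h2
    rw [h.mt hc h1] at h2; linarith
  have hB' : ∀ v, c < v → (N.L v ↔ B.L v) := fun v hv => (h.high v).L v hv le_rfl
  have hfar : ∀ v, c < v → N.L v → c + cl ≤ v := fun v hv h1 =>
    (hL.far v ((hB' v hv).1 h1)).resolve_left (by omega)
  have hS : N.F c ≠ 0 → Sq B lo c S := fun h1 =>
    (hL.alt.resolve_left fun h2 => h1 (h.F2.trans h2.1)).2
  have hR : N.F c = 0 → Reg B lo c := fun h1 =>
    (hL.alt.resolve_right fun h2 => by have := h.F2; omega).2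
  refine h.inv hO hB (fun h1 => (hL.alt.resolve_left fun h2 => h1 h2.1).1) (fun u v h1 h2 => ?_)
    (fun h1 _ _ => ⟨fun h2 => ?_, fun h2 => ?_⟩) (fun v _ hn => ⟨fun _ => ?_, fun _ => ?_⟩)
    (fun y z h1 h2 hy hz h3 f1 f2 a1 a2 => ?_) fun y u v h1 h2 h3 h4 hy f1 a1 a2 hv a3 => ?_
  · refine h.prop hO hB h2 hct.le (fun _ => ?_) (fun w hn => Or.inl ?_)
      (fun w _ a b e => absurd e (not_le.2 ?_)) (hr.sum (hc.le hA (by omega)) le_rfl) v
    · rcases lt_or_ge t u with h3 | h3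
      · rw [h.vtop h3 h2]; exact le_max_left _ _
      rw [h.vlow h3]
      have e1 := h.low.iB hO h1 h1 h3 le_rfl (h.Lt (by omega))
      have e2 : 0 ≤ N.m u t + 1 := by linarith [m_mono hm (le_refl u) h3, m_self N u]
      rcases le_or_gt (t + 4 * cK) c with h4 | h4
      · exact lemJ h4 e2 (by linarith [m_mono hm (le_refl u) hlt.le]) e1
      obtain ⟨c1, c2, c3, -⟩ := hc.resolve_left (by omega)
      obtain ⟨b1, b2⟩ := hH.below t c1 hlt h4
      have e3 : ((O.D (t - 1) + A.D (t - 1) : ℕ) : ℝ) = (n + 1 : ℕ) := by rw [c2]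
      have e4 : ((n + 1 : ℕ) : ℝ) ≤ (2 * A.D (t - 1) : ℕ) := by exact_mod_cast c3.trans b2
      have e5 : (1 : ℝ) ≤ N.D (u - 1) := by exact_mod_cast h.one hO _
      have e6 : N.m u t = O.D (t - 1) - N.D (u - 1) := by rw [Prof.m, h.D1 _ (by omega)]
      have e7 : N.m u c = n + 1 - N.D (u - 1) := by rw [Prof.m, h.Dc]; push_cast; ring
      have e8 := not_le.1 b1
      have e9 := mu_pos t
      push_cast at e3 e4
      set y := (N.m u c + 1) / 2 with hy
      have d1 : 1 ≤ (y / mu t) ^ cp := one_le_pow₀ (by rw [le_div_iff₀ e9]; linarith)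
      have d2 : ((N.m u t + 1) / mu t) ^ cp ≤ (y / mu t) ^ cp := by gcongr; linarith
      have d3 := near_pow (x := y) hlt.le h4.le (by linarith)
      have d4 : ((N.m u c + 1) / mu c) ^ cp = 2 ^ cp * (y / mu c) ^ cp := by
        rw [← mul_pow]; congr 1; rw [hy]; ring
      have d5 := big_pow (le_refl (2 : ℝ))
      have d6 : mrun bt (Lge N.L u) t / bt ^ (c - t) ≤ mrun bt (Lge N.L u) t :=
        div_le_self (mrun_nonneg bt_gt _) (one_le_pow₀ bt_gt.le)
      have d7 : mrun bt (Lge N.L u) t ≤ 2 * (y / mu t) ^ cp :=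
        e1.trans (max_le (by linarith) (by linarith))
      refine max_le_max le_rfl ?_
      rw [d4]; nlinarith
    · have := (hL.far w hn.1).resolve_left (by have := hn.2.1; omega)
      simp only [cK, cl] at this ⊢; omega
    · refine lt_of_le_of_lt (pow_le_one₀ ?_ ?_) (by norm_num)
      · have := hB.m_nonneg (show c + 1 ≤ w by omega)
        have := mu_pos w
        positivity
      · have e1 := hr.hB (w - 1) (by omega) (by omega)
        have e2 := mu_mono (show w - 1 ≤ w by omega)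
        have e3 : (1 : ℝ) ≤ B.D c := by exact_mod_cast hB.one c
        rw [div_le_one (mu_pos w)]
        simp only [Prof.m, Nat.add_sub_cancel]; linarith
  · by_contra h3
    have e1 := not_le.1 (hH.below t (hc.resolve_left (by omega)).1 hlt (by omega)).1
    have e2 := near_pow (x := A.D (t - 1)) hlt.le (by omega) (Nat.cast_nonneg _)
    have e3 : (2 : ℝ) ^ cp ≤ (A.D (t - 1) / mu t) ^ cp := by
      gcongr; rw [le_div_iff₀ (mu_pos t)]; linarith
    have e4 : (2 : ℝ) ^ 5 ≤ 2 ^ cp := pow_le_pow_right₀ (by norm_num) (by simp [cp])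
    rw [h.mt hc h1] at h2
    linarith
  · have := hjt h1 h2
    exact ⟨by simp only [cl, cZ] at hlow ⊢; omega, fun h3 => by omega⟩
  · have := hfar v hn.2.1 hn.1
    simp only [cK, cl] at this ⊢; omega
  · refine ⟨hfar v hn.2.1 hn.1, fun h1 => Or.inl fun h2 => ?_⟩
    have := (hR h2).1 v ((hB' v hn.2.1).1 hn.1)
    have := hn.2.1
    omega
  · have hyt : y < c → y ≤ lo + 1 := fun h4 => by
      have e1 := h.cases hy
      have e2 := (hO.pos y ((h.low.L y ?_ (by omega)).1 hy))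
      · have := hjt (by omega) (a1 t (h.Lt (by omega)) (by omega) (by omega)); omega
      · rcases (h.L y).1 hy with e | e | e
        · exact hO.pos y e.1
        · omega
        · omega
    rcases h2.eq_or_lt with rfl | h2
    · have := (hS f2).1
      have := hyt h3
      rw [h.F2]; right; omega
    have hzB := (hB' z h2).1 hz
    rw [h.F3 z h2] at f2 ⊢
    left
    rcases h1.eq_or_lt with rfl | h1
    · obtain ⟨-, s2, -, s4⟩ := hS f1
      rw [h.F2, h.mc h2]
      refine ⟨s2.trans ?_, s4 z hzB f2 h2⟩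
      have : (B.D y : ℝ) ≤ B.D (z - 1) := by exact_mod_cast hB.mono (by omega)
      gcongr
    · obtain ⟨-, w, w1, w2, w3, w4, w5, -⟩ := hR (a2 c h.Lc h1 h2)
      have e0 := hyt h1
      obtain rfl : w = z := by
        rcases lt_trichotomy w z with e | e | e
        · exact absurd (by rw [← h.F3 w w3]; exact a2 w ((hB' w w3).2 w1) (by omega) e) w2
        · exact e
        · exact absurd (w5 z hzB h2 e) f2
      refine ⟨?_, Or.inl (by omega)⟩
      have e1 := m_mono hm h1.le (le_refl w)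
      have e2 : (B.D lo : ℝ) ≤ B.D (w - 1) := by exact_mod_cast hB.mono (by omega)
      have e3 := mu_two (x := y) (y := lo) (by have := cC0; omega)
      have e4 := hr.lo
      have e5 : 5 ≤ N.F y := by
        have e6 := h.cases hy
        have e7 : 1 ≤ y := by
          rcases (h.L y).1 hy with e | e | e
          · exact hO.pos y e.1
          · omega
          · omega
        rw [h.F1 y e7 (by omega)] at f1 ⊢
        exact hO.i0 y ((h.low.L y e7 (by omega)).1 hy) f1
      have e6 : (2 : ℝ) ^ 3 ≤ 2 ^ (2 * N.F y) := pow_le_pow_right₀ (by norm_num) (by omega)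
      have e7 : (0 : ℝ) ≤ B.D lo := Nat.cast_nonneg _
      rw [h.mc h2] at e1
      nlinarith
  · have hut : u ≤ t → u ≤ lo + 1 := fun h5 => by
      have := hjt (by omega) (a3 t (h.Lt (by omega)) h5 (by omega)).1; omega
    rcases h4.eq_or_lt with rfl | h4
    · have := (hS f1).1
      have := h.cases hv
      have := hut (by omega)
      rw [h.F2] at a1
      nlinarith [Nat.zero_le (cR * S)]
    obtain ⟨-, w, w1, w2, w3, w4, w5, w6⟩ := hR (a3 c h.Lc h2 h4).2
    have hyB := (hB' y h4).1 hy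
    rw [h.F3 y h4] at f1 a1 ⊢
    obtain rfl : w = y := by
      rcases lt_trichotomy w y with e | e | e
      · exact absurd (by rw [← h.F3 w w3]; exact (a3 w ((hB' w w3).2 w1) (by omega) e).2) w2
      · exact e
      · exact absurd (w5 y hyB h4 e) f1
    have e1 : t < u := by
      by_contra e1
      have := hut (by omega); omega
    have e2 : c ≤ v := by have := h.cases hv; omega
    rw [run_congr (L' := fun z => z = c ∨ (B.L z ∧ c < z)) fun z _ _ => by
      unfold Lge; rw [h.L]; constructor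
      · rintro ⟨e | e, e'⟩
        · omega
        · exact e
      · exact fun e => ⟨Or.inr e, by omega⟩]
    have e3 : N.m u v = N.m c v := by
      simp only [Prof.m]; rw [h.Dc, h.D2 (u - 1) (by omega) (by omega)]
    rw [e3]
    rcases e2.eq_or_lt with rfl | e2
    · obtain ⟨x, rfl⟩ : ∃ x, c = x + 1 := ⟨c - 1, by omega⟩
      rw [run_pos (Or.inl rfl), run_congr (L' := Lge B.L (x + 1)) fun z _ e => by
        unfold Lge; constructor <;> intro e <;> omega, run_zero (by omega), m_self]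
      simpa using one_le_pow₀ (by norm_num)
    · rw [h.mc e2]; exact w6 v ((hB' v e2).1 hv) e2 a2

lemma pow_gain {X Y T a : ℝ} (hX : 0 ≤ X) (hY : 0 ≤ Y) (hT : 0 < T) (h : T ≤ X + Y)
    (ha : a * T ≤ T ^ cp * Y) : X ^ cp + a ≤ (X + Y) ^ cp := by
  obtain ⟨k, hk⟩ : ∃ k, cp = k + 1 := ⟨cp - 1, by simp [cp]⟩
  rw [hk] at ha ⊢
  have h1 : a ≤ T ^ k * Y := le_of_mul_le_mul_right (by rw [pow_succ] at ha; linarith) hT
  have h2 : T ^ k ≤ (X + Y) ^ k := by gcongr
  have h3 : X ^ k ≤ (X + Y) ^ k := by gcongr; linarith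
  rw [pow_succ, pow_succ]; nlinarith

lemma glueL (h : Glue O t n c 0 S A N) (hO : Inv O) (hA : Inv A) (hB : Inv B)
    (hc : Cls O B t n) (hr : Rng A B lo top) (hct : c < top) (hH : HeavyOK A top c)
    (hL : LightOK B lo c S) : Inv N := by
  have hlt := h.lt
  have hlow := hL.low
  have hm := h.mono hO hA
  have hmu := hr.hA c (by omega) hct
  have hnj : ¬ N.jk c := fun h1 => by
    unfold Prof.jk at h1
    rw [h.mc (by omega), Nat.add_sub_cancel] at h1
    linarith [mu_pos c]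
  have hA' : ∀ v, c < v → (N.L v ↔ A.L v) := fun v hv => (h.high v).L v hv le_rfl
  have ht : 0 < t → t + cl ≤ c := fun h1 =>
    (hL.far t (hc.resolve_left (by omega)).1).resolve_right (by omega)
  have hmv : ∀ u v, u ≤ c → c < v → (A.D (v - 1) : ℝ) ≤ N.m u v := fun u v a b => by
    rw [← h.mc b]; exact m_mono hm a le_rfl
  refine h.inv hO hA (fun h1 => absurd rfl h1) (fun u v h1 h2 h3 => ?_)
    (fun h1 _ _ => ⟨fun _ => ?_, fun _ => ⟨ht h1, fun h2 => Or.inr ?_⟩⟩)
    (fun v _ hn => ⟨fun h1 => ?_, fun h1 => absurd h1 hnj⟩)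
    (fun y z h1 h2 hy hz h3 f1 f2 a1 a2 => ?_) fun y u v h1 h2 h3 h4 hy f1 a1 a2 hv a3 => ?_
  · have hV : mrun bt (Lge N.L u) c ≤ 2 := by
      rcases lt_or_ge t u with h3 | h3
      · rw [h.vtop h3 h2]
      rw [h.vlow h3]
      refine lemM (by have := ht (by omega); simp only [cK, cl] at this ⊢; omega)
        (by linarith [m_mono hm (le_refl u) h3, m_self N u]) ?_
        (h.low.iB hO h1 h1 h3 le_rfl (h.Lt (by omega)))
      have e1 : ((n + 1 : ℕ) : ℝ) ≤ B.D c := by exact_mod_cast hc.le hB hlt.le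
      have e2 : (1 : ℝ) ≤ N.D (u - 1) := by exact_mod_cast h.one hO _
      have e3 := m_mono hm (le_refl u) hlt.le
      have e4 := hr.hB c (by omega) hct.le
      rw [Prof.m.eq_1 N u c, h.Dc] at e3
      linarith
    have hV' : IB N u c := fun _ => hV.trans (le_max_left _ _)
    rcases h3.eq_or_lt with rfl | h3
    · exact hV'
    intro hv
    obtain ⟨z, z1, z2⟩ := exists_next h3 ((hA' v h3).1 hv)
    have z3 := z2.2.1
    rcases le_or_gt (c + 4 * cK) z with h4 | h4
    · refine h.masked hO hA h2 z3 z2.1 ?_ z1 hv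
      rw [mrun_step (h.nx h2 le_rfl z2)]
      exact lemM h4 le_rfl (mu_pos z).le (hV.trans (le_max_left _ _))
    rcases hH.good with h5 | h5
    · have e1 : mrun bt (Lge N.L u) v ≤ mrun bt (Lge A.L 1) v :=
        mrun_mono bt_gt h3.le (fun y a _ => h.lge h2 a (by omega)) (hV.trans (h5.trans
          ((run_le_mrun bt_gt c).trans_eq (mrun_congr bt_gt fun y a _ => (and_iff_left a).symm))))
      refine e1.trans ((hA.iB 1 v le_rfl (by omega) ((hA' v h3).1 hv)).trans ?_)
      have e2 := hA.m_nonneg (show 1 ≤ v by omega)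
      have e3 := hmv u v h2 h3
      have e4 : (0 : ℝ) ≤ A.D (1 - 1) := Nat.cast_nonneg _
      have e5 := mu_pos v
      gcongr
      rw [Prof.m.eq_1 A]; linarith
    refine h.prop hO hA h2 hct.le hV' (fun w hw => Or.inr ?_) (fun w w1 w2 w3 w4 => ?_) ?_ v
      h3.le hv
    · obtain rfl : w = z := by
        rcases lt_trichotomy w z with e | e | e
        · exact absurd hw.1 (z2.2.2 w hw.2.1 e)
        · exact e
        · exact absurd z2.1 (hw.2.2 z z3 e)
      have e1 := not_le.1 (hH.above w hw.1 z3 h4)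
      refine ⟨not_lt.1 fun e2 => ?_, fun _ => ?_⟩
      · have e3 : (A.D c : ℝ) ≤ A.D top := by exact_mod_cast hA.mono hct.le
        have e4 := mu_mono e2.le
        rw [hA.D_nx hw] at e1
        linarith [hr.tA, mu_pos w]
      · rw [mrun_step (h.nx h2 le_rfl hw)]
        have e2 : mrun bt (Lge N.L u) c / bt ^ (w - c) ≤ mrun bt (Lge N.L u) c :=
          div_le_self (mrun_nonneg bt_gt _) (one_le_pow₀ bt_gt.le)
        have e3 := big_pow (x := (N.m u w + 1) / mu w) (by
          rw [le_div_iff₀ (mu_pos w)]; linarith [hmv u w h2 z3])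
        exact max_le_max le_rfl (by linarith)
    · have e1 := mu_pos w
      have e2 : (1 : ℝ) ≤ A.D c := by exact_mod_cast hA.one c
      have e3 : (1 : ℝ) ≤ A.D (w - 1) := by exact_mod_cast hA.one _
      have e4 := hA.m_nonneg (show c + 1 ≤ w by omega)
      have e5 : A.m (c + 1) w = A.D (w - 1) - A.D c := rfl
      have e6 := h5 w w1 w2 w3 (w4.trans (by gcongr; linarith))
      have e7 := amp_pos (K := cK) (L := A.L) bt_gt c w
      have e8 : 0 ≤ ((A.D (w - 1) : ℝ) / mu w) ^ cp := by positivity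
      have e9 := pow_gain (X := (A.m (c + 1) w + 1) / mu w) (Y := A.D c / mu w)
        (T := A.D (w - 1) / mu w) (a := 2 * amp bt cK A.L c w) (by positivity) (by positivity)
        (by positivity) (by rw [← add_div]; gcongr; linarith)
        (by rw [← mul_div_assoc, ← mul_div_assoc]; gcongr ?_ / _; nlinarith)
      have d1 : ((A.m (c + 1) w + 1) / mu w + A.D c / mu w) ^ cp ≤ ((N.m u w + 1) / mu w) ^ cp := by
        rw [← add_div]; gcongr (?_ / _) ^ _; linarith [hmv u w h2 w2]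
      nlinarith
    · rw [add_comm]; exact hr.sum le_rfl (hc.le hB (by omega))
  · have := ht h1
    simp only [cK, cl] at this ⊢; omega
  · obtain ⟨c1, -, -, c4⟩ := hc.resolve_left (by omega)
    rw [h.G2, h.G1 t h1 le_rfl, c4]
    rcases hL.alt with e | e
    · have := e.2.1 t c1; omega
    · exact ⟨by omega, by_contra fun e1 => by have := e.2.2.2.1 t c1 e1 hlt; omega⟩
  · by_contra h2
    have hn' := hn.2.1
    have e1 := not_le.1 (hH.above v ((hA' v hn').1 hn.1) hn' (by omega))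
    rw [hA.D_nx ⟨(hA' v hn').1 hn.1, hn', fun z a b e => hn.2.2 z a b ((hA' z a).2 e)⟩] at e1
    rw [h.mc (by omega), Nat.add_sub_cancel] at h1
    linarith [big_pow (x := A.D c / mu v) (by rw [le_div_iff₀ (mu_pos v)]; linarith)]
  · refine absurd (a1 c h.Lc h1 (lt_of_le_of_ne h2 ?_)) hnj
    rintro rfl; exact f2 h.F2
  · refine absurd (a3 c h.Lc h2 (lt_of_le_of_ne h4 ?_)).1 hnj
    rintro rfl; exact f1 h.F2

end Pool.Agent.Lib.MP_755262_lc
end

-- part Pool.Agent.Lib.MP_755262_lc.H84Heavy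
section

/-!
Few heights are badly placed for the heavy side.
-/

open Finset

namespace Pool.Agent.Lib.MP_755262_lc

open Classical in
lemma phi_sub {K : ℕ} {L : ℕ → Prop} (x j : ℕ) :
    phi K L (x + j) = phi K L x + K * ((Ioc x (x + j)).filter L).card - j := by
  induction j with
  | zero => simp
  | succ j ih =>
    rw [← add_assoc, ← Finset.insert_Ioc_right_eq_Ioc_add_one (by omega), filter_insert]
    by_cases h : L (x + j + 1)
    · rw [if_pos h, card_insert_of_notMem (by simp), phi_pos h, ih]; push_cast; ring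
    · rw [if_neg h, phi_neg h, ih]; push_cast; ring

open Classical in
lemma card_loc {β : ℝ} {K : ℕ} {L : ℕ → Prop} (hβ : 1 < β) (hK : β ^ K = 2) {x w e : ℕ}
    (H : ∀ a v, L a → L v → x < a → a ≤ v → v ≤ x + w → amp β K L a v ≤ 2 ^ e) :
    K * ((Ioc x (x + w)).filter L).card ≤ w + (e + 1) * K := by
  obtain ⟨u, u1, u2, u3, u4⟩ := exists_prev L (show x < x + w + 1 by omega)
  obtain ⟨j, rfl⟩ : ∃ j, u = x + j := ⟨u - x, by omega⟩
  have h1 : (Ioc x (x + w)).filter L = (Ioc x (x + j)).filter L := by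
    ext z
    simp only [mem_filter, mem_Ioc]
    refine and_congr_left fun hz => and_congr_right fun _ => ⟨fun h => ?_, fun h => by omega⟩
    by_contra h2
    exact u4 z (by omega) (by omega) hz
  have h2 := phi_sub (K := K) (L := L) x j
  rw [h1]
  have h3 : (0 : ℤ) ≤ (e + 1) * K := by positivity
  rcases phi_next (K := K) (L := L) u1 with h | ⟨a, a1, a2, a3, a4⟩
  · zify; omega
  · have := H a _ a1 (u3.resolve_left (by omega)) a2 a3 (by omega)
    rw [amp, two_pow_eq hK, zpow_le_zpow_iff_right₀ hβ] at this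
    zify; nlinarith

lemma card_dbl {D : ℕ → ℕ} (hD : Monotone D) (x j : ℕ) :
    2 ^ ((Ioc x (x + j)).filter fun t => 2 * D (t - 1) < D t).card * D x ≤ D (x + j) := by
  induction j with
  | zero => simp
  | succ j ih =>
    rw [← add_assoc, ← Finset.insert_Ioc_right_eq_Ioc_add_one (by omega), filter_insert]
    split_ifs with h
    · rw [card_insert_of_notMem (by simp), pow_succ]
      simp only [Nat.add_sub_cancel] at h
      nlinarith
    · exact ih.trans (hD (by omega))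

variable {A B : Prof} {lo top : ℕ}

lemma Inv.run_le (hA : Inv A) {v : ℕ} (hv : A.L v) :
    run bt A.L v ≤ max 2 ((A.D (v - 1) / mu v) ^ cp) := by
  have h0 := hA.pos v hv
  refine (run_le_mrun bt_gt v).trans ?_
  rw [mrun_congr (L' := Lge A.L 1) bt_gt fun y a _ => (and_iff_left a).symm]
  refine (hA.iB 1 v le_rfl h0 hv).trans ?_
  have e2 := hA.m_nonneg h0
  have e4 : (1 : ℝ) ≤ A.D (1 - 1) := by exact_mod_cast hA.one _
  have e5 := mu_pos v
  gcongr
  rw [Prof.m.eq_1 A]; linarith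

/-- The main potential would jump after an insertion at height `c`. -/
def Own (A : Prof) (top c : ℕ) : Prop :=
  (¬ A.L c ∧ run bt A.L c < 2) ∧ (∀ v, A.L v → c < v → v ≤ top → A.mild v → c + cd ≤ v) ∧
    ∃ v, A.L v ∧ c < v ∧ v ≤ top ∧ 16 ≤ (A.D (v - 1) / mu v) ^ cp ∧
      (A.D (v - 1) / mu v) ^ cp * mu c < 16 * amp bt cK A.L c v * A.D (v - 1)

open Classical in
lemma card_own (hA : Inv A) (ht : 4 * (A.D top : ℝ) < mu top) (lo : ℕ) :
    524288 * ((Icc (lo + 1) top).filter (Own A top)).card ≤ top - lo := by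
  refine rounds (Ov := 0) bt_gt bt_pow (fun c hc => hc.1) (fun c hc _ => ?_) (top - lo) (lo + 1)
    (by omega) (by omega)
  obtain ⟨-, h1, v, v1, v2, v3, v4, v5⟩ := hc
  have hv := mu_pos v
  have hb : bt ≠ 0 := by linarith [bt_gt]
  set r := (A.D (v - 1) : ℝ) / mu v with hr
  have r0 : 1 ≤ r := by
    by_contra h
    linarith [pow_le_one₀ (n := cp) (show 0 ≤ r by positivity) (not_le.1 h).le]
  have r1 : (A.D (v - 1) : ℝ) = r * mu v := by rw [hr, div_mul_cancel₀ _ hv.ne']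
  obtain ⟨j, j1, j2⟩ := exists_nat_pow_near r0 (show (1 : ℝ) < 2 by norm_num)
  obtain ⟨q, q1, q2⟩ : ∃ q, c + cC * q ≤ v ∧ v ≤ c + cC * (q + 1) := by
    have e1 := Nat.div_add_mod (v - c) cC
    have e2 := Nat.mod_lt (v - c) (Nat.pos_of_ne_zero cC0)
    exact ⟨(v - c) / cC, by omega, by rw [mul_add]; omega⟩
  have a0 := amp_pos (K := cK) (L := A.L) bt_gt c v
  have e1 : r ^ cp < 2 ^ (q + 5) * r * amp bt cK A.L c v := by
    have e2 := mu_le (q + 1) q2
    have e3 : 0 < amp bt cK A.L c v * r := by positivity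
    refine lt_of_mul_lt_mul_right ?_ (mu_pos c).le
    rw [r1] at v5
    calc _ < _ := v5
      _ = 16 * (amp bt cK A.L c v * r) * mu v := by ring
      _ ≤ 16 * (amp bt cK A.L c v * r) * (2 ^ (q + 1) * mu c) := by gcongr
      _ = _ := by ring
  have e4 : cC * j + v < top := mu_lt (by
    have : (A.D (v - 1) : ℝ) ≤ A.D top := by exact_mod_cast hA.mono (by omega)
    rw [mu_add, mu_mul]; nlinarith)
  have e5 : j = 0 → c + cd ≤ v := fun h => h1 v v1 v2 v3 (by
    subst h; unfold Prof.mild; rw [r1]; gcongr; simpa using j2.le)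
  refine ⟨v, cK * (j * (cp - 1) - (q + 7)), cK * (q + j + 7), v2, v1, ?_, fun a a1 a2 a3 => ?_,
    ?_, ?_⟩
  · rcases le_or_gt (j * (cp - 1)) (q + 7) with h | h
    · left; rw [Nat.sub_eq_zero_of_le h, mul_zero]
    right
    have e2 : (2 : ℝ) ^ (j * (cp - 1)) < 2 ^ (q + 5) * amp bt cK A.L c v := by
      refine lt_of_mul_lt_mul_right ?_ (show 0 ≤ r by linarith)
      calc _ = ((2 : ℝ) ^ j) ^ (cp - 1) * r := by rw [pow_mul]
        _ ≤ r ^ (cp - 1) * r := by gcongr
        _ = r ^ cp := by rw [← pow_succ]; congr 1; simp [cp]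
        _ < _ := by linarith
    rw [amp, two_pow_eq bt_pow, two_pow_eq bt_pow, ← zpow_add₀ hb,
      zpow_lt_zpow_iff_right₀ bt_gt] at e2
    push_cast [Nat.cast_sub h.le] at e2 ⊢
    linarith
  · have e2 := (amp_le_run bt_gt bt_pow a1 (by omega) a3).trans (hA.run_le v1)
    rw [← hr, max_eq_right (by linarith)] at e2
    have e3 : amp bt cK A.L a v < 2 ^ (q + j + 6) * amp bt cK A.L c v :=
      calc _ < _ := e2.trans_lt e1
        _ ≤ 2 ^ (q + 5) * 2 ^ (j + 1) * amp bt cK A.L c v := by gcongr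
        _ = _ := by ring
    rw [amp, amp, two_pow_eq bt_pow, ← zpow_add₀ hb, zpow_lt_zpow_iff_right₀ bt_gt] at e3
    push_cast at e3 ⊢
    linarith
  · simp only [cK, cp, cC, cd] at q1 e5 ⊢; lia
  · simp only [cK, cp, cC] at e4 ⊢; lia

/-- The height `c` lies well inside the range and is badly placed for the heavy side. -/
def HBad (A : Prof) (lo top c : ℕ) : Prop := lo + 1 + cZ ≤ c ∧ c + cd ≤ top ∧ ¬ HeavyOK A top c

open Classical in
lemma card_heavy {w : ℕ} (hA : Inv A) (hr : Rng A B lo (lo + w)) :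
    65536 * ((Ioc lo (lo + w)).filter (HBad A lo (lo + w))).card ≤ w := by
  have hw : cC ≤ 2 * w := by have := hr.len; omega
  obtain ⟨q, q1, q2⟩ : ∃ q, cC * q ≤ w + cC ∧ w ≤ cC * q := by
    have e1 := Nat.div_add_mod w cC
    have e2 := Nat.mod_lt w (Nat.pos_of_ne_zero cC0)
    exact ⟨w / cC + 1, by rw [mul_add]; omega, by rw [mul_add]; omega⟩
  have q0 : 1 ≤ q := by simp only [cC] at hw q2; omega
  have htA := hr.tA
  have c1 := card_loc (x := lo) (w := w) (e := q * cp) bt_gt bt_pow fun a v a1 v1 a2 a3 v2 => by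
    refine (amp_le_run bt_gt bt_pow a1 (by omega) a3).trans ((hA.run_le v1).trans (max_le ?_ ?_))
    · exact le_self_pow₀ (by norm_num) (by simp only [cp]; omega)
    · have e1 : (A.D (v - 1) : ℝ) ≤ A.D (lo + w) := by exact_mod_cast hA.mono (by omega)
      have e2 := mu_le (x := lo + w) (y := v) q (by omega)
      have e3 := mu_pos v
      have e4 := mu_pos (lo + w)
      rw [pow_mul]; gcongr; rw [div_le_iff₀ e3]; linarith
  have c2 := card_sep (S := (Ioc lo (lo + w)).filter fun t => A.L t ∧ ∀ u, A.L u → u < t → u + cl ≤ t)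
    (x := lo) (w := w) (d := cl) (by simp [cl])
    (fun a ha => by have := mem_Ioc.1 (mem_filter.1 ha).1; omega)
    fun a ha b hb h => (mem_filter.1 hb).2.2 a (mem_filter.1 ha).2.1 h
  have c3 := card_nt hA.mono lo w
  have c4 : ((Ioc (lo + 1) (lo + w)).filter fun t => 2 * A.D (t - 1) < A.D t).card ≤ q := by
    have e1 := card_dbl hA.mono (lo + 1) (w - 1)
    have w0 : 2 ≤ w := by simp only [cC] at hw; omega
    rw [show lo + 1 + (w - 1) = lo + w by omega] at e1
    generalize ((Ioc (lo + 1) (lo + w)).filter fun t => 2 * A.D (t - 1) < A.D t).card = k at e1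
    have e2 : (2 : ℝ) ^ k * A.D (lo + 1) ≤ A.D (lo + w) := by exact_mod_cast e1
    have e3 := hr.hA (lo + 1) (by omega) (by omega)
    have e4 := mu_le (x := lo + w) (y := lo + 1) q (by omega)
    have e5 := mu_pos (lo + 1)
    have e6 : (2 : ℝ) ^ k < 2 ^ (q + 1) := by
      refine lt_of_mul_lt_mul_right ?_ e5.le
      have : (2 : ℝ) ^ k * mu (lo + 1) ≤ 2 ^ k * (8 * A.D (lo + 1)) := by gcongr
      rw [pow_succ]; linarith
    have := (pow_lt_pow_iff_right₀ (by norm_num)).1 e6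
    omega
  have c5 := card_own hA htA lo
  generalize hS2 : ((Ioc lo (lo + w)).filter fun t => A.L t ∧ ∀ u, A.L u → u < t → u + cl ≤ t) =
    S2 at c2
  generalize hS3 : (Ioc lo (lo + w)).filter A.nt = S3 at c3
  generalize hS4 : ((Ioc (lo + 1) (lo + w)).filter fun t => 2 * A.D (t - 1) < A.D t) = S4 at c4
  have d2 := card_near (S := S2) (r := cd) (r' := cd)
    (T := (Ioc lo (lo + w)).filter fun c => ∃ u ∈ S2, u < c + cd ∧ c < u + cd)
    fun c hc => (mem_filter.1 hc).2
  have d3 := card_near (S := S3) (r := cd) (r' := cl + cd)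
    (T := (Ioc lo (lo + w)).filter fun c => ∃ u ∈ S3, u < c + cd ∧ c < u + (cl + cd))
    fun c hc => (mem_filter.1 hc).2
  have d4 := card_near (S := S4) (r := 0) (r' := 4 * cK)
    (T := (Ioc lo (lo + w)).filter fun c => ∃ u ∈ S4, u < c + 0 ∧ c < u + 4 * cK)
    fun c hc => (mem_filter.1 hc).2
  have hsub : (Ioc lo (lo + w)).filter (HBad A lo (lo + w)) ⊆ (Ioc lo (lo + w)).filter A.L ∪
      ((Ioc lo (lo + w)).filter fun c => ∃ u ∈ S2, u < c + cd ∧ c < u + cd) ∪
      ((Ioc lo (lo + w)).filter fun c => ∃ u ∈ S3, u < c + cd ∧ c < u + (cl + cd)) ∪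
      ((Ioc lo (lo + w)).filter fun c => ∃ u ∈ S4, u < c + 0 ∧ c < u + 4 * cK) ∪
      (Icc (lo + 1) (lo + w)).filter (Own A (lo + w)) := by
    intro c hc
    obtain ⟨hc, h1, h2, h3⟩ := mem_filter.1 hc
    by_contra hn
    simp only [mem_union, mem_filter, hc, true_and, not_or] at hn
    obtain ⟨⟨⟨⟨n1, n2⟩, n3⟩, n4⟩, n5⟩ := hn
    have hm : ∀ t, A.L t → A.mild t → t + cd ≤ c ∨ c + cd ≤ t := by
      intro t t1 t2
      by_contra h4
      have t3 : lo + 1 + cl < t := by simp only [cl, cd, cZ] at h1 h4 ⊢; omega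
      by_cases h5 : ∀ u, A.L u → u < t → u + cl ≤ t
      · exact n2 ⟨t, hS2 ▸ mem_filter.2 ⟨mem_Ioc.2 (by omega), t1, h5⟩, by omega⟩
      push Not at h5
      obtain ⟨u, u1, u2, u3⟩ := h5
      obtain ⟨z, z1, z2, z3, z4⟩ := exists_prev A.L u2
      have z5 : A.L z := z3.elim (fun e => e ▸ u1) id
      refine n3 ⟨z, hS3 ▸ mem_filter.2 ⟨mem_Ioc.2 (by omega), fun e => ?_, ?_⟩, by omega⟩
      · have := ((hA.iE z t z5 ⟨t1, z2, z4⟩).2 e).1; omega
      · have := mu_two (x := t) (y := z) (by simp only [cl, cC] at u3 ⊢; omega)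
        unfold Prof.mild at t2
        rw [hA.D_nx ⟨t1, z2, z4⟩] at t2; linarith
    have hd : 4 * cK ≤ cd := by simp [cK, cd]
    refine h3 ⟨n1, fun t t1 t2 t3 => ⟨fun e => by have := hm t t1 e; omega, ?_⟩,
      fun v v1 v2 v3 e => by have := hm v v1 e; omega, ?_⟩
    · by_contra e
      refine n4 ⟨t, hS4 ▸ mem_filter.2 ⟨mem_Ioc.2 ⟨?_, by omega⟩, by omega⟩, by omega⟩
      simp only [cK, cZ] at h1 t3; omega
    · by_contra e
      push Not at e
      obtain ⟨e1, v, e2⟩ := e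
      exact n5 ⟨mem_Icc.2 (by omega), ⟨n1, e1⟩,
        fun z a b _ e => by have := hm z a e; omega, v, e2⟩
  have f0 := card_le_card hsub
  have f1 := fun a b : Finset ℕ => card_union_le a b
  refine le_trans (Nat.mul_le_mul_left _ (f0.trans ((f1 _ _).trans (Nat.add_le_add_right
    ((f1 _ _).trans (Nat.add_le_add_right ((f1 _ _).trans (Nat.add_le_add_right (f1 _ _) _)) _))
    _)))) ?_
  simp only [cK, cp, cC, cd, cl] at c1 c2 c3 d2 d3 d4 q1 hw ⊢
  lia

end Pool.Agent.Lib.MP_755262_lc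
end

-- part Pool.Agent.Lib.MP_755262_lc.H84Light
section

/-!
Many heights of a light window are well placed for the light side.
-/

open Finset

namespace Pool.Agent.Lib.MP_755262_lc

/-- Above `h` the side `B` stays light, with depth about `S`, for a while. -/
structure Win (B : Prof) (lo h S : ℕ) : Prop where
  low : lo + 2 ≤ h
  five : 5 ≤ S
  jk : ∀ u, h < u → u ≤ h + 320 * cR * S → B.jk u
  up : ∀ x, h ≤ x → x ≤ h + 320 * cR * S → (B.D x : ℝ) ≤ mu x
  dn : ∀ x, h ≤ x → x ≤ h + 320 * cR * S → mu x ≤ 2 ^ (2 * S) * B.D x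
  mass : ∀ y x s, h ≤ y → y ≤ x → x ≤ h + 320 * cR * S → 5 ≤ s → mu y ≤ 2 ^ (2 * s) * B.D x →
    S ≤ 5 * s

variable {B : Prof} {lo h S : ℕ}

lemma m_le (P : Prof) (u v : ℕ) : P.m u v ≤ P.D (v - 1) := sub_le_self _ (Nat.cast_nonneg _)

/-- The zone potential would jump after an insertion at height `c`. -/
def ZBad (L : ℕ → Prop) (y e c : ℕ) : Prop :=
  (¬ L c ∧ run gm L c < 2) ∧ ∃ v, L v ∧ c < v ∧ v < y ∧ 2 ^ e < amp gm cJ L c v

lemma light_reg (hB : Inv B) (hW : Win B lo h S) {T : Finset ℕ}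
    (hT : 4096 * T.card ≤ 320 * cR * S) {x s : ℕ} (y1 : B.L (x + cR * s))
    (y2 : B.F (x + cR * s) = s) (hs : s ≠ 0) (y3 : h ≤ x) (y4 : x + cR * s ≤ h + 320 * cR * S)
    (y5 : ∀ z, B.L z → x < z → z < x + cR * s → B.F z = 0) (y6 : S ≤ 5 * s) :
    ∃ c, h < c ∧ c ≤ h + 320 * cR * S ∧ c ∉ T ∧ LightOK B lo c 0 := by
  classical
  have hy := mu_pos (x + cR * s)
  have hg : gm ≠ 0 := by linarith [gm_gt]
  have H5 : ∀ v, Lge B.L (x + 1) v → v < x + cR * s → run gm (Lge B.L (x + 1)) v ≤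
      2 ^ (1024 * s) * (1 + 2 ^ (11 * s) * B.m (x + 1) v / mu (x + cR * s)) := fun v a b => by
    have := hB.i5 (x + cR * s) (x + 1) v (by omega) a.2 y1 (by omega) (by rw [y2]; omega) b a.1
      fun z z1 z2 z3 => ⟨hW.jk z (by omega) (by omega), y5 z z1 z2 z3⟩
    rwa [y2] at this
  have He : ∀ a v, Lge B.L (x + 1) a → Lge B.L (x + 1) v → a ≤ v → v < x + cR * s →
      amp gm cJ (Lge B.L (x + 1)) a v ≤ 2 ^ (1035 * s + 1) := fun a v a1 v1 a2 v2 => by
    have a3 := a1.2
    refine (amp_le_run gm_gt gm_pow a1 (by omega) a2).trans ((H5 v v1 v2).trans ?_)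
    have e1 := (m_le B (x + 1) v).trans ((hW.up (v - 1) (by omega) (by omega)).trans
      (mu_mono (show v - 1 ≤ x + cR * s by omega)))
    have e2 : 2 ^ (11 * s) * B.m (x + 1) v / mu (x + cR * s) ≤ 2 ^ (11 * s) := by
      rw [div_le_iff₀ hy]; gcongr
    have e3 : (1 : ℝ) ≤ 2 ^ (11 * s) := one_le_pow₀ (by norm_num)
    calc _ ≤ (2 : ℝ) ^ (1024 * s) * (2 ^ (11 * s) + 2 ^ (11 * s)) := by gcongr
      _ = _ := by ring
  have hRs : 4 * cZ ≤ cR * s := by simp only [cZ, cR]; omega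
  have c1 := card_loc (x := x) (w := cR * s - 1) (e := 1035 * s + 1) gm_gt gm_pow
    fun a v a1 v1 _ a3 v2 => He a v a1 v1 a3 (by have := cZ; simp only [cZ] at hRs; omega)
  have c2 := rounds (Bad := ZBad (Lge B.L (x + 1)) (x + cR * s) (1024 * s)) (E := 16)
    (w := x + cR * s) (Ov := cJ * (1024 * s)) gm_gt gm_pow
    (fun c hc => hc.1) (fun c hc _ => by
      obtain ⟨-, v, v1, v2, v3, v4⟩ := hc
      rw [amp, two_pow_eq gm_pow, zpow_lt_zpow_iff_right₀ gm_gt] at v4
      refine ⟨v, cJ * (1024 * s - 2), cJ * (11 * s + 2), v2, v1, Or.inr ?_, fun a a1 a2 a3 => ?_,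
        ?_, ?_⟩
      · push_cast [Nat.cast_sub (show 2 ≤ 1024 * s by omega)] at v4 ⊢; linarith
      · have := He a v a1 v1 a3 v3
        rw [amp, two_pow_eq gm_pow, zpow_le_zpow_iff_right₀ gm_gt] at this
        push_cast at v4 this ⊢; linarith
      · simp only [cJ]; omega
      · simp only [cJ]; omega) (cR * s) (x + 1) (by omega) (by omega)
  generalize hS1 : (Ioc x (x + (cR * s - 1))).filter (Lge B.L (x + 1)) = S1 at c1
  have d1 := card_near (S := S1) (r := cZ) (r' := cZ)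
    (T := (Ioc x (x + cR * s)).filter fun c => ∃ u ∈ S1, u < c + cZ ∧ c < u + cZ)
    fun c hc => (mem_filter.1 hc).2
  generalize hN1 : ((Ioc x (x + cR * s)).filter fun c => ∃ u ∈ S1, u < c + cZ ∧ c < u + cZ) =
    N1 at d1
  generalize hN2 : (Icc (x + 1) (x + cR * s)).filter
    (ZBad (Lge B.L (x + 1)) (x + cR * s) (1024 * s)) = N2 at c2
  obtain ⟨c, hc, hn⟩ := exists_mem_notMem_of_card_lt_card (s := T ∪ N1 ∪ N2)
    (t := Ioc (x + cZ) (x + cR * s - cZ)) (by
      have e1 := card_union_le T N1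
      have e2 := card_union_le (T ∪ N1) N2
      rw [Nat.card_Ioc]
      simp only [cR, cZ, cJ] at hT c1 c2 d1 ⊢; lia)
  rw [mem_Ioc] at hc
  simp only [mem_union, not_or] at hn
  have hZ : 0 < cZ := by simp [cZ]
  have f1 : ∀ u, B.L u → u + cZ ≤ c ∨ c + cZ ≤ u := fun u hu => by
    by_contra e
    exact hn.1.2 (hN1 ▸ mem_filter.2 ⟨mem_Ioc.2 (by omega), u,
      hS1 ▸ mem_filter.2 ⟨mem_Ioc.2 (by omega), hu, by omega⟩, by omega⟩)
  have hlow := hW.low
  refine ⟨c, by omega, by omega, hn.1.1, fun u hu => ?_, by omega, Or.inl ⟨rfl, f1, _, y1,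
    by omega, by omega, by rw [y2]; omega, fun z a b e => y5 z a (by omega) e,
    fun v v1 v2 v3 => ?_⟩⟩
  · have := f1 u hu
    simp only [cl, cZ] at this ⊢; omega
  have v4 : Lge B.L (x + 1) v := ⟨v1, by omega⟩
  have e1 := H5 v v4 v3
  have e2 : run gm (fun z => z = c ∨ (B.L z ∧ c < z)) c = 1 := by
    obtain ⟨k, rfl⟩ : ∃ k, c = k + 1 := ⟨c - 1, by omega⟩
    rw [run_pos (Or.inl rfl), run_congr (L' := Lge B.L (k + 1)) fun z _ e => by
      unfold Lge; constructor <;> intro e <;> omega, run_zero (by omega)]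
    simp
  have e3 := amp_pos (K := cJ) (L := Lge B.L (x + 1)) gm_gt c v
  rw [run_lin (L := Lge B.L (x + 1)) gm_gt gm_pow v2.le fun z a _ => by
    unfold Lge; constructor
    · rintro (e | e)
      · omega
      · exact ⟨e.1, by omega⟩
    · exact fun e => Or.inr ⟨e.1, a⟩, e2, y2]
  have e4 : amp gm cJ (Lge B.L (x + 1)) c v * (1 - run gm (Lge B.L (x + 1)) c) ≤
      2 ^ (1024 * s) := by
    rcases le_or_gt 2 (run gm (Lge B.L (x + 1)) c) with e | e
    · exact le_trans (by nlinarith) (show (0 : ℝ) ≤ _ by positivity)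
    · have e5 : amp gm cJ (Lge B.L (x + 1)) c v ≤ 2 ^ (1024 * s) := not_lt.1 fun e5 =>
        hn.2 (hN2 ▸ mem_filter.2 ⟨mem_Icc.2 (by omega),
          ⟨fun e6 => by have := f1 c e6.1; omega, e⟩, v, v4, v2, v3, e5⟩)
      nlinarith [run_nonneg (L := Lge B.L (x + 1)) gm_gt c]
  have e5 : mu (x + cR * s) ≤ 2 ^ (11 * s) * B.D x :=
    calc _ ≤ 2 ^ s * mu x := mu_le s (by simp only [cR, cC]; omega)
      _ ≤ 2 ^ s * (2 ^ (2 * S) * B.D x) := by gcongr; exact hW.dn x y3 (by omega)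
      _ ≤ 2 ^ s * (2 ^ (10 * s) * B.D x) := by
        gcongr _ * (?_ * _); exact pow_le_pow_right₀ (by norm_num) (by omega)
      _ = _ := by ring
  have e6 : 2 ^ (11 * s) * B.m (x + 1) v / mu (x + cR * s) + 1 ≤
      2 ^ (11 * s) * B.D (v - 1) / mu (x + cR * s) := by
    rw [div_add_one hy.ne']; gcongr
    simp only [Prof.m, Nat.add_sub_cancel]; linarith
  have e7 : (0 : ℝ) < 2 ^ (1024 * s) := by positivity
  nlinarith

lemma light_sq (hB : Inv B) (hW : Win B lo h S) {T : Finset ℕ}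
    (hT : 4096 * T.card ≤ 320 * cR * S)
    (H : ∀ y, B.L y → B.F y ≠ 0 → h + cR * B.F y ≤ y → y ≤ h + 320 * cR * S → S ≤ 5 * B.F y →
      ∃ z, B.L z ∧ y < z + cR * B.F y ∧ z < y ∧ B.F z ≠ 0) :
    ∃ c, h < c ∧ c ≤ h + 320 * cR * S ∧ c ∉ T ∧ LightOK B lo c S := by
  classical
  set Fl : ℕ → Prop := fun y => B.L y ∧ B.F y ≠ 0 with hFl
  have hS := hW.five
  have pair : ∀ y z, Fl y → Fl z → h < y → y < z → z ≤ h + 320 * cR * S →
      (∀ u, y < u → u < z → ¬ Fl u) → (S ≤ 5 * B.F y ∧ (y + cR * B.F z ≤ z ∨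
        (16 * B.F y ≤ B.F z ∧ y + cR * B.F y ≤ z))) ∨ y + 10 * cR * B.F z ≤ z :=
    fun y z a b c d e f => (hB.i3 y z a.1 b.1 d a.2 b.2
      (fun u _ u1 u2 => hW.jk u (by omega) (by omega))
      fun u u0 u1 u2 => by_contra fun u3 => f u u1 u2 ⟨u0, u3⟩).imp_left fun g =>
        ⟨hW.mass y (z - 1) _ c.le (by omega) (by omega) (hB.i0 y a.1 a.2)
          (g.1.trans (by gcongr; exact m_le B y z)), g.2⟩
  have step : ∀ y, Fl y → h + cR * B.F y ≤ y → y ≤ h + 320 * cR * S → S ≤ 5 * B.F y →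
      ∃ z, Fl z ∧ z < y ∧ y < z + cR * B.F y ∧ S ≤ 5 * B.F z ∧ 16 * B.F z ≤ B.F y := by
    intro y a b c d
    obtain ⟨z, z1, z2, z3, z4⟩ := H y a.1 a.2 b c d
    obtain ⟨u, u1, u2, u3, u4⟩ := exists_prev Fl z3
    have u5 : Fl u := u3.elim (fun e => e ▸ ⟨z1, z4⟩) id
    have := pair u y u5 a (by omega) u2 c u4
    refine ⟨u, u5, u2, by omega, ?_⟩
    simp only [cR] at this z2; omega
  have med : ∀ y, Fl y → h + 17 * cR * S ≤ y → y ≤ h + 320 * cR * S →
      16 * S ≤ B.F y ∨ 5 * B.F y < S := by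
    intro y a b c
    by_contra d
    obtain ⟨z, z1, z2, z3, z4, z5⟩ := step y a (by simp only [cR] at b ⊢; omega) c (by omega)
    obtain ⟨u, -, -, -, u4, u5⟩ := step z z1 (by simp only [cR] at b z3 ⊢; omega) (by omega) z4
    omega
  obtain ⟨b, hb⟩ : ∃ b, b = h + 17 * cR * S := ⟨_, rfl⟩
  set zn : ℕ → ℕ := fun y => if 16 * S ≤ B.F y then cR * S else cR * B.F y with hzn
  have hsum : ∀ y, Fl y → b < y → y ≤ h + 320 * cR * S →
      5 * ∑ u ∈ (Ioc b y).filter Fl, (zn u + 2 * cZ) +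
        (if 16 * S ≤ B.F y then cR * S + 10 * cZ else 0) + b ≤ y + 10 * cR * S := by
    intro y
    induction y using Nat.strong_induction_on with
    | h y ih =>
      intro y1 y2 y3
      obtain ⟨u, u1, u2, u3, u4⟩ := exists_prev Fl y2
      have e1 : (Ioc b y).filter Fl = insert y ((Ioc b u).filter Fl) := by
        ext z
        simp only [mem_filter, mem_Ioc, mem_insert]
        refine ⟨fun e => ?_, ?_⟩
        · by_contra e'
          simp only [e.2, and_true] at e'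
          exact u4 z (by omega) (by omega) e.2
        · rintro (rfl | e)
          · exact ⟨⟨y2, le_rfl⟩, y1⟩
          · exact ⟨by omega, e.2⟩
      have m1 := med y y1 (by omega) y3
      have m2 := hB.i0 y y1.1 y1.2
      rw [e1, sum_insert (by simp only [mem_filter, mem_Ioc]; omega)]
      rcases u1.eq_or_lt with rfl | u1
      · simp only [hzn, cR, cZ, Ioc_self, filter_empty, sum_empty]
        split_ifs <;> omega
      have u5 := u3.resolve_left (by omega)
      have m3 := med u u5 (by omega) (by omega)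
      have m4 := pair u y u5 y1 (by omega) u2 y3 u4
      have m5 := ih u u2 u5 u1 (by omega)
      generalize ∑ u ∈ (Ioc b u).filter Fl, (zn u + 2 * cZ) = X at m5
      simp only [hzn, cR, cZ] at m4 m5 ⊢
      split_ifs at m5 ⊢ <;> lia
  have hZ : cl ≤ cZ := by simp [cl, cZ]
  have c1 : 5 * (((Ioc b (h + 320 * cR * S)).filter Fl).biUnion
      fun y => Ico (y - zn y) (y + 2 * cZ)).card ≤ 313 * cR * S := by
    have e0 : b ≤ h + 320 * cR * S := by simp only [cR] at hb ⊢; omega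
    obtain ⟨u, u1, u2, u3, u4⟩ := exists_prev Fl (Nat.lt_succ_of_le e0)
    have e1 : (Ioc b (h + 320 * cR * S)).filter Fl = (Ioc b u).filter Fl := by
      ext z
      simp only [mem_filter, mem_Ioc]
      refine and_congr_left fun hz => and_congr_right fun _ => ⟨fun e => ?_, fun e => by omega⟩
      by_contra e'
      exact u4 z (by omega) (by omega) hz
    rw [e1]
    rcases u1.eq_or_lt with rfl | u1
    · simp
    have e2 := hsum u (u3.resolve_left (by omega)) u1 (by omega)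
    have e3 : (((Ioc b u).filter Fl).biUnion fun y => Ico (y - zn y) (y + 2 * cZ)).card ≤
        ∑ u ∈ (Ioc b u).filter Fl, (zn u + 2 * cZ) :=
      card_biUnion_le.trans (sum_le_sum fun y _ => by rw [Nat.card_Ico]; omega)
    generalize ∑ u ∈ (Ioc b u).filter Fl, (zn u + 2 * cZ) = X at e2 e3
    simp only [cR] at e2 hb u2 ⊢
    omega
  have c2 := card_fib (S := (Ioc b (h + 320 * cR * S)).filter
      fun a => B.L a ∧ ∀ u, Fl u → u ≤ a → u + cZ ≤ a) (x := h) (w := 320 * cR * S) (d := cZ)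
    (m := 2) (by simp [cZ]) (fun a ha => by have := mem_Ioc.1 (mem_filter.1 ha).1; omega)
    fun y => not_lt.1 fun e => by
      set U := ((Ioc b (h + 320 * cR * S)).filter
        fun a => B.L a ∧ ∀ u, Fl u → u ≤ a → u + cZ ≤ a).filter fun a => y ≤ a ∧ a < y + cZ
      have key : ∀ p ∈ U, ∀ q ∈ U, ∀ r ∈ U, p < q → q < r → False := by
        intro p hp q hq r hr pq qr
        simp only [U, mem_filter, mem_Ioc] at hp hq hr
        obtain ⟨p', p1, p2⟩ := exists_next pq hq.1.2.1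
        obtain ⟨q', q1, q2⟩ := exists_next (show p' < r by omega) hr.1.2.1
        have p3 := p2.2.1
        have p4 := ((hB.iE p p' hp.1.2.1 p2).2 (hW.jk p (by omega) (by omega))).2 (by omega)
        have q4 := ((hB.iE p' q' p2.1 q2).2 (hW.jk p' (by omega) (by omega))).2 (by omega)
        rcases p4 with e | e
        · have := hp.1.2.2 p ⟨hp.1.2.1, e⟩ le_rfl; omega
        rcases q4 with e' | e'
        · have := hq.1.2.2 p' ⟨p2.1, e'⟩ p1; omega
        · exact e.1 e'.2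
      obtain ⟨p, q, r, hp, hq, hr, pq, pr, qr⟩ := two_lt_card_iff.1 e
      rcases lt_or_gt_of_ne pq with h1 | h1 <;> rcases lt_or_gt_of_ne pr with h2 | h2 <;>
        rcases lt_or_gt_of_ne qr with h3 | h3
      exacts [key p hp q hq r hr h1 h3, key p hp r hr q hq h2 h3, by omega,
        key r hr p hp q hq h2 h1, key q hq p hp r hr h1 h2, by omega, key q hq r hr p hp h3 h2,
        key r hr q hq p hp h3 h1]
  generalize hS2 : ((Ioc b (h + 320 * cR * S)).filter
      fun a => B.L a ∧ ∀ u, Fl u → u ≤ a → u + cZ ≤ a) = S2 at c2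
  have d1 := card_near (S := S2) (r := cl) (r' := cl)
    (T := (Ioc h (h + 320 * cR * S)).filter fun c => ∃ u ∈ S2, u < c + cl ∧ c < u + cl)
    fun c hc => (mem_filter.1 hc).2
  generalize hN1 : ((Ioc h (h + 320 * cR * S)).filter fun c => ∃ u ∈ S2, u < c + cl ∧ c < u + cl) =
    N1 at d1
  generalize hN2 : (((Ioc b (h + 320 * cR * S)).filter Fl).biUnion
      fun y => Ico (y - zn y) (y + 2 * cZ)) = N2 at c1
  obtain ⟨c, hc, hn⟩ := exists_mem_notMem_of_card_lt_card (s := T ∪ N1 ∪ N2)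
    (t := Ioc (b + 2 * cZ) (h + 304 * cR * S)) (by
      have e1 := card_union_le T N1
      have e2 := card_union_le (T ∪ N1) N2
      rw [Nat.card_Ioc]
      simp only [cR, cZ, cl] at hT c1 c2 d1 hb ⊢; lia)
  rw [mem_Ioc] at hc
  simp only [mem_union, not_or] at hn
  have hlow := hW.low
  have g0 : c + cR * (16 * S) ≤ h + 320 * cR * S := by simp only [cR] at hc ⊢; omega
  have g1 : 2 * cZ ≤ cR * S := by simp only [cR, cZ]; omega
  have g2 : cR * S ≤ cR * (16 * S) := Nat.mul_le_mul_left _ (by omega)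
  have f1 : ∀ y, Fl y → b < y → y ≤ h + 320 * cR * S → c + zn y < y ∨ y + 2 * cZ ≤ c :=
    fun y a d e => by
      by_contra e'
      exact hn.2 (hN2 ▸ mem_biUnion.2 ⟨y, mem_filter.2 ⟨mem_Ioc.2 ⟨d, e⟩, a⟩, mem_Ico.2 (by omega)⟩)
  refine ⟨c, by omega, by omega, hn.1.1, fun u hu => ?_, by omega, Or.inr ⟨hS,
    by simp only [cR] at hb ⊢; omega, hW.dn c (by omega) (by omega), fun u u1 u2 u3 => ?_,
    fun y y1 y2 y3 => ?_⟩⟩
  · by_contra e
    by_cases e1 : ∀ z, Fl z → z ≤ u → z + cZ ≤ u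
    · exact hn.1.2 (hN1 ▸ mem_filter.2 ⟨mem_Ioc.2 (by omega), u,
        hS2 ▸ mem_filter.2 ⟨mem_Ioc.2 (by omega), hu, e1⟩, by omega⟩)
    push Not at e1
    obtain ⟨z, z1, z2, z3⟩ := e1
    have z4 := f1 z z1 (by omega) (by omega)
    have z5 := hB.i0 z z1.1 z1.2
    have z6 : cl ≤ zn z := by simp only [hzn, cR, cl]; split_ifs <;> omega
    omega
  · by_contra e
    have := f1 u ⟨u1, u2⟩ (by omega) (by omega)
    omega
  · rcases le_or_gt y (h + 320 * cR * S) with e | e
    · have := f1 y ⟨y1, y2⟩ (by omega) e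
      simp only [hzn] at this
      split_ifs at this <;> omega
    · rcases le_or_gt (16 * S) (B.F y) with e1 | e1
      · exact Or.inr ⟨e1, by omega⟩
      · have := Nat.mul_le_mul_left cR e1.le
        omega

lemma light (hB : Inv B) (hW : Win B lo h S) {T : Finset ℕ} (hT : 4096 * T.card ≤ 320 * cR * S) :
    ∃ c s, h < c ∧ c ≤ h + 320 * cR * S ∧ c ∉ T ∧ LightOK B lo c s := by
  by_cases H : ∀ y, B.L y → B.F y ≠ 0 → h + cR * B.F y ≤ y → y ≤ h + 320 * cR * S →
      S ≤ 5 * B.F y → ∃ z, B.L z ∧ y < z + cR * B.F y ∧ z < y ∧ B.F z ≠ 0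
  · obtain ⟨c, hc⟩ := light_sq hB hW hT H
    exact ⟨c, S, hc⟩
  · push Not at H
    obtain ⟨y, y1, y2, y3, y4, y5, y6⟩ := H
    have e : y - cR * B.F y + cR * B.F y = y := by omega
    obtain ⟨c, hc⟩ := light_reg (x := y - cR * B.F y) (s := B.F y) hB hW hT (by rwa [e])
      (by rw [e]) y2 (by omega) (by omega) (fun z a b c => y6 z a (by omega) (by omega)) y5
    exact ⟨c, 0, hc⟩

end Pool.Agent.Lib.MP_755262_lc
end

-- part Pool.Agent.Lib.MP_755262_lc.H84Pick
section

/-!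
Choice of the range, of the window and of the height.
-/

open Finset

namespace Pool.Agent.Lib.MP_755262_lc

variable {A B : Prof} {lo top : ℕ}

lemma rng_of (hA : Inv A) (hB : Inv B) (h0 : cC ≤ top)
    (h1 : ∀ h, h < top → mu h ≤ 4 * A.D h ∨ mu h ≤ 4 * B.D h)
    (h2 : mu (top - cC) ≤ 4 * A.D (top - cC)) (tA : 4 * (A.D top : ℝ) < mu top)
    (tB : 4 * (B.D top : ℝ) < mu top) : ∃ lo, Rng A B lo top := by
  classical
  have e0 : mu 0 ≤ 4 * B.D 0 := by
    have : (1 : ℝ) ≤ B.D 0 := by exact_mod_cast hB.one 0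
    simp only [mu, pow_zero]; linarith
  have e1 := Nat.findGreatest_spec (P := fun h => mu h ≤ 4 * B.D h) (Nat.zero_le (top - cC / 2)) e0
  have e2 := Nat.findGreatest_le (P := fun h => mu h ≤ 4 * B.D h) (top - cC / 2)
  have e3 := fun k => Nat.findGreatest_is_greatest (P := fun h => mu h ≤ 4 * B.D h)
    (n := top - cC / 2) (k := k)
  refine ⟨_, by simp only [cC] at e2 h0 ⊢; omega, fun h a b => ?_, fun h a b => ?_, e1, tA, tB⟩
  · rcases le_or_gt (top - cC) h with e | e
    · have : (A.D (top - cC) : ℝ) ≤ A.D h := by exact_mod_cast hA.mono e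
      linarith [mu_two (x := h) (y := top - cC) (by omega)]
    · linarith [(h1 h b).resolve_right (e3 h a (by omega)), mu_pos h]
  · rcases le_or_gt h (top - cC / 2) with e | e
    · linarith [not_le.1 (e3 h a e), mu_pos h]
    · have : (B.D h : ℝ) ≤ B.D top := by exact_mod_cast hB.mono b
      linarith [mu_two (x := top) (y := h) (by omega), mu_pos h]

lemma exists_rng (hA : Inv A) (hB : Inv B) {n : ℕ} (bA : ∀ h, A.D h ≤ n) (bB : ∀ h, B.D h ≤ n) :
    ∃ lo top, Rng A B lo top ∨ Rng B A lo top := by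
  classical
  have ex : ∃ h, 4 * (A.D h : ℝ) < mu h ∧ 4 * (B.D h : ℝ) < mu h := by
    have e1 : ((4 * n : ℕ) : ℝ) < (2 ^ (4 * n) : ℕ) := by exact_mod_cast Nat.lt_two_pow_self
    have e2 : (A.D (cC * (4 * n)) : ℝ) ≤ n := by exact_mod_cast bA _
    have e3 : (B.D (cC * (4 * n)) : ℝ) ≤ n := by exact_mod_cast bB _
    push_cast at e1
    exact ⟨cC * (4 * n), by rw [mu_mul]; linarith, by rw [mu_mul]; linarith⟩
  obtain ⟨t1, t2⟩ := Nat.find_spec ex
  have t3 : ∀ h, h < Nat.find ex → mu h ≤ 4 * A.D h ∨ mu h ≤ 4 * B.D h := fun h a => by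
    simpa only [not_and_or, not_lt] using Nat.find_min ex a
  generalize Nat.find ex = top at t1 t2 t3
  have t0 : cC < top := mu_lt (by
    have : (1 : ℝ) ≤ A.D top := by exact_mod_cast hA.one _
    have := mu_mul 1
    rw [mul_one] at this; linarith)
  rcases t3 (top - cC) (by have := cC0; omega) with e | e
  · obtain ⟨lo, h⟩ := rng_of hA hB t0.le t3 e t1 t2
    exact ⟨lo, top, Or.inl h⟩
  · obtain ⟨lo, h⟩ := rng_of hB hA t0.le (fun h a => (t3 h a).symm) e t2 t1
    exact ⟨lo, top, Or.inr h⟩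

lemma card_split (P : ℕ → Prop) [DecidablePred P] {a b c : ℕ} (h1 : a ≤ b) (h2 : b ≤ c) :
    ((Ioc a c).filter P).card = ((Ioc a b).filter P).card + ((Ioc b c).filter P).card := by
  rw [← Ioc_union_Ioc_eq_Ioc h1 h2, filter_union, card_union_of_disjoint]
  exact disjoint_filter_filter (Ioc_disjoint_Ioc_of_le le_rfl)

open Classical in
lemma exists_win {w : ℕ} (hB : Inv B) (hr : Rng A B lo (lo + w)) {P : ℕ → Prop}
    (hP : 65536 * ((Ioc lo (lo + w)).filter P).card ≤ w) :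
    ∃ h S, Win B lo h S ∧ h + 320 * cR * S + cd ≤ lo + w ∧
      4096 * ((Ioc h (h + 320 * cR * S)).filter P).card ≤ 320 * cR * S := by
  have hw : cC ≤ 2 * w := by have := hr.len; omega
  have ex : ∀ x, ∃ y, cC * 5 ≤ y ∧ mu x ≤ B.D x * mu y := fun x => ⟨x + cC * 5, by omega, by
    have : (1 : ℝ) ≤ B.D x := by exact_mod_cast hB.one x
    have := mu_mono (show x ≤ x + cC * 5 by omega)
    nlinarith [mu_pos x]⟩
  obtain ⟨G, G1, G2, G3⟩ : ∃ G : ℕ → ℕ, (∀ x, cC * 5 ≤ G x) ∧ (∀ x, mu x ≤ B.D x * mu (G x)) ∧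
      ∀ x y, cC * 5 ≤ y → mu x ≤ B.D x * mu y → G x ≤ y :=
    ⟨fun x => Nat.find (ex x), fun x => (Nat.find_spec (ex x)).1,
      fun x => (Nat.find_spec (ex x)).2, fun x y a b => Nat.find_min' _ ⟨a, b⟩⟩
  have G4 : ∀ x y z k, y ≤ x → y ≤ z → z ≤ x → cC * 5 ≤ k → mu y ≤ B.D z * mu k →
      G x + y ≤ k + x := fun x y z k a b c d e => by
    obtain ⟨j, rfl⟩ : ∃ j, x = y + j := ⟨x - y, by omega⟩
    have : (B.D z : ℝ) ≤ B.D (y + j) := by exact_mod_cast hB.mono c
    have := G3 (y + j) (k + j) (by omega) (by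
      rw [mu_add, mu_add, ← mul_assoc]
      have := mu_pos j
      have := mu_pos k
      gcongr; exact e.trans (by gcongr))
    omega
  have G5 : ∀ x, mu x ≤ 16 * B.D x → G x ≤ cC * 5 := fun x a => G3 x _ le_rfl (by
    have : (0 : ℝ) ≤ B.D x := Nat.cast_nonneg _
    rw [mu_mul]; linarith)
  have w0 : 2 ≤ w := by simp only [cC] at hw; omega
  obtain ⟨h, h1, h2⟩ := exists_max_image (Icc (lo + 2) (lo + w)) (fun x => (8192 *
    (((Ioc lo x).filter P).card + cR * ((Ioc lo x).filter B.nt).card) - x - G x : ℤ))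
    ⟨lo + 2, mem_Icc.2 (by omega)⟩
  rw [mem_Icc] at h1
  have h3 : ∀ x, h ≤ x → x ≤ lo + w → 8192 * (((Ioc h x).filter P).card +
      cR * ((Ioc h x).filter B.nt).card) + h + G h ≤ x + G x := fun x a b => by
    have := h2 x (mem_Icc.2 (by omega))
    rw [card_split P (show lo ≤ h by omega) a, card_split B.nt (show lo ≤ h by omega) a] at this
    zify; push_cast at this; linarith
  obtain ⟨S, S1, S2⟩ : ∃ S, cC * S ≤ G h + cC ∧ G h ≤ cC * S ∧ 6 ≤ S := by
    have e1 := Nat.div_add_mod (G h) cC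
    have e2 := Nat.mod_lt (G h) (Nat.pos_of_ne_zero cC0)
    have e3 := G1 h
    refine ⟨G h / cC + 1, by rw [mul_add]; omega, by rw [mul_add]; omega, ?_⟩
    simp only [cC] at e3 ⊢; omega
  have h4 : h + 320 * cR * S + cd ≤ lo + w := by
    have e1 := h2 (lo + 2) (mem_Icc.2 (by omega))
    have e2 := G5 (lo + 2) (by
      have : (B.D lo : ℝ) ≤ B.D (lo + 2) := by exact_mod_cast hB.mono (by omega)
      linarith [mu_two (x := lo + 2) (y := lo) (by simp [cC]), hr.lo, mu_pos lo])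
    have e3 := card_nt hB.mono lo w
    rw [card_split P (show lo ≤ h by omega) h1.2] at hP
    rw [card_split B.nt (show lo ≤ h by omega) h1.2] at e3
    simp only [cC, cR, cd] at e1 e2 e3 S1 hw ⊢
    lia
  have h5 : ∀ x, h ≤ x → G x + h ≤ G h + x := fun x a => G4 x h h _ a le_rfl a (G1 h) (G2 h)
  refine ⟨h, S, ⟨h1.1, by omega, fun u a b => by_contra fun e => ?_,
    fun x a b => hr.hB x (by omega) (by omega), fun x a b => ?_, fun y x s a b c d e => ?_⟩, h4, ?_⟩
  · have e1 := h3 u a.le (by omega)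
    have e2 : 0 < ((Ioc h u).filter B.nt).card := card_pos.2 ⟨u, mem_filter.2 ⟨mem_Ioc.2 ⟨a, le_rfl⟩,
      e, by linarith [hr.hB u (by omega) (by omega), mu_pos u]⟩⟩
    have e3 := G5 u ((not_lt.1 e).trans (by
      have := m_le B u (u + 1); rw [Nat.add_sub_cancel] at this; linarith))
    simp only [cC, cR] at e1 e3 S1 b
    lia
  · have e1 := h5 x a
    have e2 : mu (G x) ≤ 2 ^ (2 * S) := by
      rw [← mu_mul]; exact mu_mono (by simp only [cC, cR] at S2 b ⊢; omega)
    rw [mul_comm]; exact (G2 x).trans (by gcongr)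
  · have e1 := h3 x (by omega) (by omega)
    have e2 := G4 x y x (cC * (2 * s)) b b le_rfl (Nat.mul_le_mul_left _ (by omega))
      (by rwa [mu_mul, mul_comm])
    simp only [cC, cR] at e1 e2 S1 c
    lia
  · have e1 := h3 (h + 320 * cR * S) (by omega) (by omega)
    have e2 := h5 (h + 320 * cR * S) (by omega)
    omega

lemma pick (hA : Inv A) (hB : Inv B) (hr : Rng A B lo top) :
    ∃ c s, c < top ∧ HeavyOK A top c ∧ LightOK B lo c s := by
  classical
  obtain ⟨w, rfl⟩ : ∃ w, top = lo + w := ⟨top - lo, by have := hr.len; omega⟩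
  obtain ⟨h, S, h1, h2, h3⟩ := exists_win hB hr (card_heavy hA hr)
  obtain ⟨c, s, c1, c2, c3, c4⟩ := light hB h1 h3
  have : 0 < cd := by simp [cd]
  exact ⟨c, s, by omega, by_contra fun e =>
    c3 (mem_filter.2 ⟨mem_Ioc.2 ⟨c1, c2⟩, c4.low, by omega, e⟩), c4⟩

end Pool.Agent.Lib.MP_755262_lc
end
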