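import Mathlib

-- part Pool.Agent.Lib.MP_755262_lc.Run
section

/-!
A potential on sets of heights, and the count of good heights.
-/

open Finset

namespace Pool.Agent.Lib.MP_755262_lc

open Classical in
/-- The running potential of a set of heights. -/
noncomputable def run (β : ℝ) (L : ℕ → Prop) : ℕ → ℝ
  | 0 => 0
  | x + 1 => if L (x + 1) then 1 + 2 / β * run β L x else run β L x / β

open Classical in
/-- Number of positive elements of `L` up to `x`. -/
noncomputable def cnt (L : ℕ → Prop) : ℕ → ℕ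
  | 0 => 0
  | x + 1 => if L (x + 1) then cnt L x + 1 else cnt L x

/-- The walk attached to a set of heights. -/
noncomputable def phi (K : ℕ) (L : ℕ → Prop) (x : ℕ) : ℤ := K * cnt L x - x

/-- Amplification between two heights. -/
noncomputable def amp (β : ℝ) (K : ℕ) (L : ℕ → Prop) (c x : ℕ) : ℝ := β ^ (phi K L x - phi K L c)

variable {β : ℝ} {K : ℕ} {L L' : ℕ → Prop}

lemma run_pos {x : ℕ} (h : L (x + 1)) : run β L (x + 1) = 1 + 2 / β * run β L x := by
  simp [run, h]

lemma run_neg {x : ℕ} (h : ¬ L (x + 1)) : run β L (x + 1) = run β L x / β := by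
  simp [run, h]

lemma phi_pos {x : ℕ} (h : L (x + 1)) : phi K L (x + 1) = phi K L x + K - 1 := by
  simp [phi, cnt, h]; ring

lemma phi_neg {x : ℕ} (h : ¬ L (x + 1)) : phi K L (x + 1) = phi K L x - 1 := by
  simp [phi, cnt, h]; ring

lemma run_nonneg (hβ : 1 < β) (x : ℕ) : 0 ≤ run β L x := by
  induction x with
  | zero => simp [run]
  | succ x ih =>
    by_cases h : L (x + 1)
    · rw [run_pos h]; positivity
    · rw [run_neg h]; positivity

lemma run_congr {x : ℕ} (h : ∀ y, 0 < y → y ≤ x → (L y ↔ L' y)) : run β L x = run β L' x := by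
  induction x with
  | zero => simp [run]
  | succ x ih =>
    have := ih fun y h0 hy => h y h0 (by omega)
    by_cases h1 : L (x + 1)
    · rw [run_pos h1, run_pos ((h _ (by omega) le_rfl).1 h1), this]
    · rw [run_neg h1, run_neg (fun h2 => h1 ((h _ (by omega) le_rfl).2 h2)), this]

lemma run_gap {x : ℕ} (j : ℕ) (h : ∀ y, x < y → y ≤ x + j → ¬ L y) :
    run β L (x + j) = run β L x / β ^ j := by
  induction j with
  | zero => simp
  | succ j ih =>
    rw [← add_assoc, run_neg (h _ (by omega) (by omega)), ih fun y h1 h2 => h y h1 (by omega),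
      div_div, pow_succ]

lemma amp_self (c : ℕ) : amp β K L c c = 1 := by simp [amp]

lemma amp_pos (hβ : 1 < β) (c x : ℕ) : 0 < amp β K L c x := zpow_pos (by linarith) _

lemma zpow_step (hβ : 1 < β) (hK : β ^ K = 2) (z : ℤ) : β ^ (z + K - 1) = 2 / β * β ^ z := by
  have : β ≠ 0 := by linarith
  rw [zpow_sub₀ this, zpow_add₀ this, zpow_natCast, hK, zpow_one]; ring

lemma zpow_step' (hβ : 1 < β) (z : ℤ) : β ^ (z - 1) = β ^ z / β := by
  rw [zpow_sub₀ (by linarith), zpow_one]

lemma amp_succ_pos (hβ : 1 < β) (hK : β ^ K = 2) (c : ℕ) {x : ℕ} (h : L (x + 1)) :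
    amp β K L c (x + 1) = 2 / β * amp β K L c x := by
  rw [amp, amp, phi_pos h, ← zpow_step hβ hK]; congr 1; ring

lemma amp_succ_neg (hβ : 1 < β) (c : ℕ) {x : ℕ} (h : ¬ L (x + 1)) :
    amp β K L c (x + 1) = amp β K L c x / β := by
  rw [amp, amp, phi_neg h, ← zpow_step' hβ]; congr 1; ring

lemma run_lin (hβ : 1 < β) (hK : β ^ K = 2) {c x : ℕ} (hx : c ≤ x)
    (h : ∀ y, c < y → y ≤ x → (L' y ↔ L y)) :
    run β L' x = run β L x + amp β K L c x * (run β L' c - run β L c) := by
  induction x, hx using Nat.le_induction with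
  | base => rw [amp_self]; ring
  | succ x hx ih =>
    have := ih fun y h1 h2 => h y h1 (by omega)
    by_cases h1 : L (x + 1)
    · rw [run_pos h1, run_pos ((h _ (by omega) le_rfl).2 h1), amp_succ_pos hβ hK c h1, this]; ring
    · rw [run_neg h1, run_neg (fun h2 => h1 ((h _ (by omega) le_rfl).1 h2)),
        amp_succ_neg hβ c h1, this]; ring

lemma amp_le_run (hβ : 1 < β) (hK : β ^ K = 2) {a x : ℕ} (ha : L a) (h0 : 0 < a) (hx : a ≤ x) :
    amp β K L a x ≤ run β L x := by
  have hβ0 : 0 < β := by linarith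
  induction x, hx using Nat.le_induction with
  | base =>
    obtain ⟨a, rfl⟩ : ∃ b, a = b + 1 := ⟨a - 1, by omega⟩
    rw [amp_self, run_pos ha]
    have := run_nonneg (L := L) hβ a
    have : 0 ≤ 2 / β * run β L a := by positivity
    linarith
  | succ x hx ih =>
    by_cases h1 : L (x + 1)
    · rw [run_pos h1, amp_succ_pos hβ hK a h1]
      have : 2 / β * amp β K L a x ≤ 2 / β * run β L x := by gcongr
      linarith
    · rw [run_neg h1, amp_succ_neg hβ a h1]; gcongr

lemma two_pow_eq (hK : β ^ K = 2) (e : ℕ) : (2 : ℝ) ^ e = β ^ ((e : ℤ) * K) := by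
  rw [← hK, ← pow_mul, ← zpow_natCast]; congr 1; push_cast; ring

/-- Heights at distance at least `Z` from each other. -/
def Sp (Z : ℕ) (L : ℕ → Prop) : Prop := ∀ a b, L a → L b → a < b → a + Z ≤ b

lemma run_le_two (hβ : 1 < β) (hK : β ^ K = 2) (h : Sp (2 * K) L) (x : ℕ) :
    run β L x ≤ 2 := by
  have hβ0 : 0 < β := by linarith
  have hK0 : 0 < K := by
    rcases K.eq_zero_or_pos with rfl | h
    · norm_num at hK
    · exact h
  induction x using Nat.strong_induction_on with
  | h x ih =>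
    rcases x with _ | x
    · simp [run]
    by_cases h1 : L (x + 1)
    · rw [run_pos h1]
      rcases le_or_gt (2 * K) (x + 1) with h2 | h2
      · obtain ⟨y, rfl⟩ : ∃ y, x = y + (2 * K - 1) := ⟨x + 1 - 2 * K, by omega⟩
        rw [run_gap _ fun z a1 a2 hz => by have := h z _ hz h1 (by omega); omega]
        have e1 : β * β ^ (2 * K - 1) = 4 := by
          rw [← pow_succ', show 2 * K - 1 + 1 = K * 2 by omega, pow_mul, hK]; norm_num
        have := ih y (by omega)
        rw [div_mul_div_comm, e1]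
        linarith
      · have := run_gap (β := β) (L := L) (x := 0) x fun z a1 a2 hz => by
          have := h z _ hz h1 (by omega); omega
        rw [zero_add] at this
        rw [this]; simp [run]
    · rw [run_neg h1, div_le_iff₀ hβ0]
      nlinarith [ih x (by omega)]

/-- Inserting the height `c` and erasing the lower ones is cheap. -/
def Good (β : ℝ) (K g : ℕ) (L : ℕ → Prop) (c : ℕ) : Prop :=
  2 ≤ run β L c ∨ ∀ v, L v → c < v → amp β K L c v ≤ 2 ^ g

lemma phi_le (hβ : 1 < β) (hK : β ^ K = 2) {e : ℕ} (H : ∀ v, L v → run β L v ≤ 2 ^ e) (x : ℕ) :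
    phi K L x ≤ (e + 1) * K := by
  have hβ0 : 0 < β := by linarith
  have h1 : ∀ x, cnt L x = 0 ∨ β ^ (phi K L x - K) ≤ run β L x := by
    intro x
    induction x with
    | zero => simp [cnt]
    | succ x ih =>
      by_cases h : L (x + 1)
      · right
        have := run_nonneg (L := L) hβ x
        rw [run_pos h]
        rcases ih with ih | ih
        · have : β ^ (phi K L (x + 1) - K) ≤ 1 := by
            refine zpow_le_one_of_nonpos₀ hβ.le ?_
            rw [phi_pos h, phi, ih]; simp; omega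
          have : 0 ≤ 2 / β * run β L x := by positivity
          linarith
        · rw [phi_pos h, show phi K L x + K - 1 - K = phi K L x - K + K - 1 by ring,
            zpow_step hβ hK]
          have : 2 / β * β ^ (phi K L x - K) ≤ 2 / β * run β L x := by gcongr
          linarith
      · refine ih.imp (fun ih => by simp [cnt, h, ih]) fun ih => ?_
        rw [run_neg h, phi_neg h, show phi K L x - 1 - K = phi K L x - K - 1 by ring,
          zpow_step' hβ]
        gcongr
  induction x with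
  | zero => simp [phi, cnt]
  | succ x ih =>
    by_cases h : L (x + 1)
    · rcases h1 (x + 1) with h2 | h2
      · simp [cnt, h] at h2
      · have := h2.trans (H _ h)
        rw [two_pow_eq hK, zpow_le_zpow_iff_right₀ hβ] at this
        linarith
    · rw [phi_neg h]; linarith

open Classical in
lemma cnt_eq (x : ℕ) : ((Icc 1 x).filter L).card = cnt L x := by
  induction x with
  | zero => simp [cnt]
  | succ x ih =>
    rw [← Finset.insert_Icc_right_eq_Icc_add_one (by omega), filter_insert]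
    by_cases h : L (x + 1)
    · rw [if_pos h, card_insert_of_notMem (by simp), ih]; simp [cnt, h]
    · rw [if_neg h, ih]; simp [cnt, h]

open Classical in
lemma card_letters (hβ : 1 < β) (hK : β ^ K = 2) {e : ℕ} (H : ∀ v, L v → run β L v ≤ 2 ^ e)
    (w : ℕ) : K * ((Icc 1 w).filter L).card ≤ w + (e + 1) * K := by
  have := phi_le hβ hK H w
  rw [cnt_eq]
  unfold phi at this
  zify; linarith

lemma phi_next {c x : ℕ} (hx : c ≤ x) :
    phi K L x ≤ phi K L c ∨ ∃ a, L a ∧ c < a ∧ a ≤ x ∧ phi K L a ≤ phi K L c + K - 1 := by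
  induction x, hx using Nat.le_induction with
  | base => simp
  | succ x hx ih =>
    rcases ih with ih | ⟨a, h1, h2, h3, h4⟩
    · by_cases h : L (x + 1)
      · exact Or.inr ⟨x + 1, h, by omega, le_rfl, by rw [phi_pos h]; linarith⟩
      · left; rw [phi_neg h]; linarith
    · exact Or.inr ⟨a, h1, h2, by omega, h4⟩

lemma phi_down {c x : ℕ} (hx : c ≤ x) : phi K L c - (x - c) ≤ phi K L x := by
  induction x, hx using Nat.le_induction with
  | base => simp
  | succ x hx ih =>
    by_cases h : L (x + 1)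
    · rw [phi_pos h]; push_cast; linarith [Int.natCast_nonneg K]
    · rw [phi_neg h]; push_cast; linarith

open Classical in
lemma multiplicity (hβ : 1 < β) (hK : β ^ K = 2) (y : ℤ) (x : ℕ) :
    ((((Icc 1 x).filter fun c => ¬ L c ∧ phi K L c = y).card : ℝ) -
      if phi K L x ≤ y then 1 else 0) * β ^ (phi K L x - y - K) ≤ run β L x := by
  have hβ0 : 0 < β := by linarith
  induction x with
  | zero =>
    have : 0 < β ^ (phi K L 0 - y - K) := zpow_pos hβ0 _
    simp only [run]
    split_ifs <;> simp [this.le]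
  | succ x ih =>
    rw [← Finset.insert_Icc_right_eq_Icc_add_one (by omega), filter_insert]
    have hp : 0 < β ^ (phi K L x - y - K) := zpow_pos hβ0 _
    by_cases h : L (x + 1)
    · rw [if_neg (by simp [h]), run_pos h, phi_pos h,
        show phi K L x + K - 1 - y - K = phi K L x - y - K + K - 1 by ring, zpow_step hβ hK]
      have h2 := mul_le_mul_of_nonneg_left ih (show 0 ≤ 2 / β by positivity)
      have h3 : 0 < 2 / β * β ^ (phi K L x - y - K) := by positivity
      by_cases h1 : phi K L x ≤ y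
      · have h4 : 2 / β * β ^ (phi K L x - y - K) ≤ 1 := by
          rw [← zpow_step hβ hK]
          exact zpow_le_one_of_nonpos₀ hβ.le (by linarith)
        rw [if_pos h1] at h2
        split_ifs <;> nlinarith
      · rw [if_neg h1] at h2
        split_ifs <;> nlinarith
    · rw [run_neg h, phi_neg h, show phi K L x - 1 - y - K = phi K L x - y - K - 1 by ring,
        zpow_step' hβ, ← mul_div_assoc]
      refine div_le_div_of_nonneg_right (le_trans ?_ ih) hβ0.le
      refine mul_le_mul_of_nonneg_right ?_ hp.le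
      by_cases h1 : phi K L x - 1 = y
      · rw [if_pos ⟨h, h1⟩, card_insert_of_notMem (by simp), if_pos h1.le, if_neg (by omega)]
        push_cast; linarith
      · rw [if_neg (fun h2 => h1 h2.2)]
        split_ifs <;> first | omega | linarith

open Classical in
lemma card_bad (hβ : 1 < β) (hK : β ^ K = 2) {g q : ℕ}
    (H : ∀ v, L v → run β L v ≤ 2 ^ (g + 2 + q)) (w : ℕ) :
    g * K * ((Icc 1 w).filter fun c => ¬ L c ∧ ¬ Good β K (g + 2) L c).card ≤
      4 * (q + 3) * K * (w + g * K) := by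
  have hβ0 : 0 < β := by linarith
  set Bad : ℕ → Prop := fun c => ¬ L c ∧ ¬ Good β K (g + 2) L c with hBad
  have hlt : ∀ c, Bad c → run β L c < 2 := fun c hc => by
    have := hc.2; unfold Good at this; push Not at this; exact this.1
  have hup : ∀ c c', Bad c' → c ≤ c' → phi K L c' < phi K L c + 2 * K := by
    intro c c' hc' hle
    have hK0 : 0 < K := by
      rcases K.eq_zero_or_pos with rfl | h
      · norm_num at hK
      · exact h
    rcases phi_next (K := K) (L := L) hle with h | ⟨a, h1, h2, h3, h4⟩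
    · omega
    · have := (amp_le_run hβ hK h1 (by omega) h3).trans_lt (hlt c' hc')
      rw [amp, ← hK, ← zpow_natCast, zpow_lt_zpow_iff_right₀ hβ] at this
      omega
  have hdown : ∀ c v, L v → c ≤ v → phi K L v - (g + 2 + q + 1) * K ≤ phi K L c := by
    intro c v hv hle
    have : (0 : ℤ) ≤ (g + 2 + q) * K := by positivity
    rcases phi_next (K := K) (L := L) hle with h | ⟨a, h1, h2, h3, h4⟩
    · nlinarith [Int.natCast_nonneg K]
    · have := (amp_le_run hβ hK h1 (by omega) h3).trans (H v hv)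
      rw [amp, two_pow_eq hK, zpow_le_zpow_iff_right₀ hβ] at this
      push_cast at this
      linarith
  have hfib : ∀ (y : ℤ) (S : Finset ℕ), (∀ c ∈ S, 1 ≤ c ∧ Bad c ∧ phi K L c = y) → S.card ≤ 4 := by
    intro y S hS
    rcases S.eq_empty_or_nonempty with rfl | hne
    · simp
    obtain ⟨-, h2, h3⟩ := hS _ (S.max'_mem hne)
    have h4 := (multiplicity hβ hK y (S.max' hne)).trans_lt (hlt _ h2)
    rw [if_pos h3.le, h3, sub_self, zero_sub, zpow_neg, zpow_natCast, hK] at h4
    have h5 : S.card ≤ ((Icc 1 (S.max' hne)).filter fun c => ¬ L c ∧ phi K L c = y).card :=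
      card_le_card fun c hc => mem_filter.2 ⟨mem_Icc.2 ⟨(hS c hc).1, S.le_max' c hc⟩,
        (hS c hc).2.1.1, (hS c hc).2.2⟩
    have h6 : (((Icc 1 (S.max' hne)).filter fun c => ¬ L c ∧ phi K L c = y).card : ℝ) < 5 := by
      linarith
    have h7 : ((Icc 1 (S.max' hne)).filter fun c => ¬ L c ∧ phi K L c = y).card < 5 := by
      exact_mod_cast h6
    omega
  have main : ∀ k x, 1 ≤ x → w + 1 ≤ x + k →
      g * K * ((Icc x w).filter Bad).card ≤ 4 * (q + 3) * K * (k + g * K) := by
    intro k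
    induction k using Nat.strong_induction_on with
    | h k ih =>
      intro x hx hk
      rcases ((Icc x w).filter Bad).eq_empty_or_nonempty with h0 | hne
      · simp [h0]
      set c := ((Icc x w).filter Bad).min' hne with hc
      obtain ⟨c1, c2⟩ := mem_filter.1 (min'_mem _ hne)
      rw [← hc, mem_Icc] at c1
      rw [← hc] at c2
      obtain ⟨v, v1, v2, v3⟩ : ∃ v, L v ∧ c < v ∧ 2 ^ (g + 2) < amp β K L c v := by
        have := c2.2; unfold Good at this; push Not at this; exact this.2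
      rw [amp, two_pow_eq hK, zpow_lt_zpow_iff_right₀ hβ] at v3
      push_cast at v3
      have hsub : (Icc x w).filter Bad ⊆
          (Icc c v).filter Bad ∪ (Icc (v + g * K + 1) w).filter Bad := by
        intro d hd
        have d0 : c ≤ d := min'_le _ _ hd
        obtain ⟨d1, d2⟩ := mem_filter.1 hd
        rw [mem_Icc] at d1
        rcases le_or_gt d v with h | h
        · exact mem_union_left _ (mem_filter.2 ⟨mem_Icc.2 ⟨d0, h⟩, d2⟩)
        · refine mem_union_right _ (mem_filter.2 ⟨mem_Icc.2 ⟨?_, d1.2⟩, d2⟩)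
          have a1 := hup c d d2 d0
          have a2 := phi_down (K := K) (L := L) h.le
          zify; linarith
      have h1 : ((Icc c v).filter Bad).card ≤ 4 * ((q + 3) * K) := by
        have := card_le_mul_card_image_of_maps_to (f := phi K L) (s := (Icc c v).filter Bad)
          (t := Ico (phi K L c - (q + 1) * K) (phi K L c + 2 * K)) (fun d hd => by
            obtain ⟨d1, d2⟩ := mem_filter.1 hd
            rw [mem_Icc] at d1
            exact mem_Ico.2 ⟨by linarith [hdown d v v1 d1.2], hup c d d2 d1.1⟩) 4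
          fun y _ => hfib y _ fun d hd => by
            obtain ⟨d1, d2⟩ := mem_filter.1 hd
            obtain ⟨d3, d4⟩ := mem_filter.1 d1
            rw [mem_Icc] at d3
            exact ⟨by omega, d4, d2⟩
        rw [Int.card_Ico, show phi K L c + 2 * K - (phi K L c - (q + 1) * K) =
          (((q + 3) * K : ℕ) : ℤ) by push_cast; ring, Int.toNat_natCast] at this
        exact this
      have h2 := (card_le_card hsub).trans (card_union_le _ _)
      rcases le_or_gt k (g * K) with h3 | h3
      · rw [show Icc (v + g * K + 1) w = ∅ from Icc_eq_empty (by omega)] at h2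
        simp only [filter_empty, card_empty, add_zero] at h2
        calc _ ≤ g * K * (4 * ((q + 3) * K)) := Nat.mul_le_mul_left _ (h2.trans h1)
          _ ≤ _ := by nlinarith [Nat.zero_le (4 * (q + 3) * K * k)]
      · obtain ⟨k', rfl⟩ : ∃ k', k = k' + g * K + 1 := ⟨k - g * K - 1, by omega⟩
        have h4 := ih k' (by omega) (v + g * K + 1) (by omega) (by omega)
        calc _ ≤ g * K * (4 * ((q + 3) * K) + ((Icc (v + g * K + 1) w).filter Bad).card) :=
              Nat.mul_le_mul_left _ (h2.trans (Nat.add_le_add_right h1 _))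
          _ ≤ _ := by nlinarith [Nat.zero_le (4 * (q + 3) * K)]
  exact main w 1 le_rfl (by omega)

end Pool.Agent.Lib.MP_755262_lc
end

-- part Pool.Agent.Lib.MP_755262_lc.H84Run
section

/-!
Masked runs and counting lemmas for sets of heights.
-/

open Finset

namespace Pool.Agent.Lib.MP_755262_lc

/-- The `k`-th root of two. -/
noncomputable def rt (k : ℕ) : ℝ := 2 ^ ((k : ℝ)⁻¹)

lemma rt_gt {k : ℕ} (hk : k ≠ 0) : 1 < rt k := Real.one_lt_rpow (by norm_num) (by positivity)

lemma rt_pow {k : ℕ} (hk : k ≠ 0) : rt k ^ k = 2 := Real.rpow_inv_natCast_pow (by norm_num) hk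

lemma rt_le {k k' x y : ℕ} (hk : k ≠ 0) (hk' : k' ≠ 0) (h : x * k' ≤ y * k) :
    rt k ^ x ≤ rt k' ^ y := by
  unfold rt
  rw [← Real.rpow_mul_natCast (by norm_num), ← Real.rpow_mul_natCast (by norm_num)]
  refine Real.rpow_le_rpow_of_exponent_le (by norm_num) ?_
  rw [inv_mul_eq_div, inv_mul_eq_div, div_le_div_iff₀ (by positivity) (by positivity)]
  exact_mod_cast h

lemma two_pow_rt {k : ℕ} (hk : k ≠ 0) (j : ℕ) : (2 : ℝ) ^ j = rt k ^ (k * j) := by
  rw [pow_mul, rt_pow hk]

open Classical in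
/-- The running potential, kept at least two at each letter. -/
noncomputable def mrun (β : ℝ) (L : ℕ → Prop) : ℕ → ℝ
  | 0 => 0
  | x + 1 => if L (x + 1) then max 2 (1 + 2 / β * mrun β L x) else mrun β L x / β

variable {β : ℝ} {K : ℕ} {L L' : ℕ → Prop}

lemma mrun_pos {x : ℕ} (h : L (x + 1)) : mrun β L (x + 1) = max 2 (1 + 2 / β * mrun β L x) := by
  simp [mrun, h]

lemma mrun_neg {x : ℕ} (h : ¬ L (x + 1)) : mrun β L (x + 1) = mrun β L x / β := by
  simp [mrun, h]

lemma mrun_nonneg (hβ : 1 < β) (x : ℕ) : 0 ≤ mrun β L x := by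
  induction x with
  | zero => simp [mrun]
  | succ x ih =>
    by_cases h : L (x + 1)
    · rw [mrun_pos h]; positivity
    · rw [mrun_neg h]; positivity

lemma run_le_mrun (hβ : 1 < β) (x : ℕ) : run β L x ≤ mrun β L x := by
  have hβ0 : 0 < β := by linarith
  induction x with
  | zero => simp [mrun, run]
  | succ x ih =>
    by_cases h : L (x + 1)
    · rw [mrun_pos h, run_pos h]
      refine le_trans ?_ (le_max_right _ _)
      gcongr
    · rw [mrun_neg h, run_neg h]; gcongr

lemma mrun_mono (hβ : 1 < β) {c x : ℕ} (hx : c ≤ x) (h : ∀ y, c < y → y ≤ x → (L y ↔ L' y))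
    (h0 : mrun β L c ≤ mrun β L' c) : mrun β L x ≤ mrun β L' x := by
  have hβ0 : 0 < β := by linarith
  induction x, hx using Nat.le_induction with
  | base => exact h0
  | succ x hx ih =>
    have := ih fun y h1 h2 => h y h1 (by omega)
    by_cases h1 : L (x + 1)
    · rw [mrun_pos h1, mrun_pos ((h _ (by omega) le_rfl).1 h1)]; gcongr
    · rw [mrun_neg h1, mrun_neg (fun h2 => h1 ((h _ (by omega) le_rfl).2 h2))]; gcongr

lemma mrun_congr (hβ : 1 < β) {x : ℕ} (h : ∀ y, 0 < y → y ≤ x → (L y ↔ L' y)) :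
    mrun β L x = mrun β L' x :=
  le_antisymm (mrun_mono hβ (Nat.zero_le _) h le_rfl)
    (mrun_mono hβ (Nat.zero_le _) (fun y h1 h2 => (h y h1 h2).symm) le_rfl)

lemma mrun_gap {x : ℕ} (j : ℕ) (h : ∀ y, x < y → y ≤ x + j → ¬ L y) :
    mrun β L (x + j) = mrun β L x / β ^ j := by
  induction j with
  | zero => simp
  | succ j ih =>
    rw [← add_assoc, mrun_neg (h _ (by omega) (by omega)), ih fun y h1 h2 => h y h1 (by omega),
      div_div, pow_succ]

/-- `v` is the first letter above `u`. -/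
def Nx (L : ℕ → Prop) (u v : ℕ) : Prop := L v ∧ u < v ∧ ∀ z, u < z → z < v → ¬ L z

lemma mrun_step {u v : ℕ} (h : Nx L u v) :
    mrun β L v = max 2 (1 + 2 * (mrun β L u / β ^ (v - u))) := by
  obtain ⟨h1, h2, h3⟩ := h
  obtain ⟨j, rfl⟩ : ∃ j, v = u + j + 1 := ⟨v - u - 1, by omega⟩
  rw [mrun_pos h1, mrun_gap j fun y a b => h3 y a (by omega),
    show u + j + 1 - u = j + 1 by omega, pow_succ]
  congr 2; ring

lemma amp_step (hβ : 1 < β) (hK : β ^ K = 2) {c u v : ℕ} (h : Nx L u v) :
    amp β K L c v = 2 * (amp β K L c u / β ^ (v - u)) := by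
  obtain ⟨h1, h2, h3⟩ := h
  obtain ⟨j, rfl⟩ : ∃ j, v = u + j + 1 := ⟨v - u - 1, by omega⟩
  have : ∀ i, i ≤ j → amp β K L c (u + i) = amp β K L c u / β ^ i := by
    intro i hi
    induction i with
    | zero => simp
    | succ i ih =>
      rw [← add_assoc, amp_succ_neg hβ c (h3 _ (by omega) (by omega)), ih (by omega), div_div,
        pow_succ]
  rw [amp_succ_pos hβ hK c h1, this j le_rfl, show u + j + 1 - u = j + 1 by omega, pow_succ]
  ring

lemma exists_prev (L : ℕ → Prop) {c v : ℕ} (h : c < v) :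
    ∃ u, c ≤ u ∧ u < v ∧ (u = c ∨ L u) ∧ ∀ z, u < z → z < v → ¬ L z := by
  induction v, h using Nat.le_induction with
  | base => exact ⟨c, le_rfl, by omega, Or.inl rfl, fun z a b => by omega⟩
  | succ v hv ih =>
    by_cases h1 : L v
    · exact ⟨v, by omega, by omega, Or.inr h1, fun z a b => by omega⟩
    · obtain ⟨u, a1, a2, a3, a4⟩ := ih
      refine ⟨u, a1, by omega, a3, fun z a b => ?_⟩
      rcases Nat.lt_succ_iff_lt_or_eq.1 b with h2 | rfl
      · exact a4 z a h2
      · exact h1

lemma exists_next {c v : ℕ} (h : c < v) (hv : L v) : ∃ u, u ≤ v ∧ Nx L c u := by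
  classical
  have : ∃ u, c < u ∧ L u := ⟨v, h, hv⟩
  exact ⟨Nat.find this, Nat.find_min' this ⟨h, hv⟩, (Nat.find_spec this).2,
    (Nat.find_spec this).1, fun z a b hz => Nat.find_min this b ⟨a, hz⟩⟩

lemma mrun_sub (hβ : 1 < β) (hK : β ^ K = 2) {c x : ℕ} (hx : c ≤ x)
    (h : ∀ y, c < y → y ≤ x → (L' y ↔ L y)) :
    mrun β L' x ≤ mrun β L x + amp β K L c x * mrun β L' c := by
  have hβ0 : 0 < β := by linarith
  induction x, hx using Nat.le_induction with
  | base => rw [amp_self]; linarith [mrun_nonneg (L := L) hβ c]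
  | succ x hx ih =>
    have := ih fun y h1 h2 => h y h1 (by omega)
    have h3 : 0 ≤ amp β K L c x * mrun β L' c :=
      mul_nonneg (amp_pos hβ _ _).le (mrun_nonneg hβ _)
    by_cases h1 : L (x + 1)
    · rw [mrun_pos h1, mrun_pos ((h _ (by omega) le_rfl).2 h1), amp_succ_pos hβ hK c h1]
      have h4 := mul_le_mul_of_nonneg_left this (show 0 ≤ 2 / β by positivity)
      have h5 : 0 ≤ 2 / β * (amp β K L c x * mrun β L' c) := by positivity
      refine max_le ?_ ?_
      · nlinarith [le_max_left 2 (1 + 2 / β * mrun β L x)]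
      · nlinarith [le_max_right 2 (1 + 2 / β * mrun β L x)]
    · rw [mrun_neg h1, mrun_neg (fun h2 => h1 ((h _ (by omega) le_rfl).1 h2)),
        amp_succ_neg hβ c h1, div_mul_eq_mul_div, ← add_div]
      gcongr

/-- The letters from `u` on. -/
def Lge (L : ℕ → Prop) (u z : ℕ) : Prop := L z ∧ u ≤ z

lemma mrun_zero {u x : ℕ} (h : x < u) : mrun β (Lge L u) x = 0 := by
  have := mrun_gap (β := β) (L := Lge L u) (x := 0) x fun y _ b hy => by have := hy.2; omega
  rw [zero_add] at this
  rw [this]; simp [mrun]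

lemma run_zero {u x : ℕ} (h : x < u) : run β (Lge L u) x = 0 := by
  have := run_gap (β := β) (L := Lge L u) (x := 0) x fun y _ b hy => by have := hy.2; omega
  rw [zero_add] at this
  rw [this]; simp [run]

open Classical in
lemma rounds (hβ : 1 < β) (hK : β ^ K = 2) {Bad : ℕ → Prop} {E w Ov : ℕ}
    (h1 : ∀ c, Bad c → ¬ L c ∧ run β L c < 2)
    (h2 : ∀ c, Bad c → c ≤ w → ∃ v s W : ℕ, c < v ∧ L v ∧
      (s = 0 ∨ phi K L c + s + 2 * K ≤ phi K L v) ∧
      (∀ a, L a → c < a → a ≤ v → phi K L c + K ≤ phi K L a + W) ∧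
      E * (4 * (W + 2 * K)) + c ≤ v + s ∧ v + s ≤ w + Ov) :
    ∀ k x, 1 ≤ x → w + 1 ≤ x + k → E * ((Icc x w).filter Bad).card ≤ k + Ov := by
  have hβ0 : 0 < β := by linarith
  have hK0 : 0 < K := by
    rcases K.eq_zero_or_pos with rfl | h
    · norm_num at hK
    · exact h
  have hup : ∀ c c', 1 ≤ c → Bad c' → c ≤ c' → phi K L c' < phi K L c + 2 * K := by
    intro c c' _ hc' hle
    rcases phi_next (K := K) (L := L) hle with h | ⟨a, h1', h2, h3, h4⟩
    · omega
    · have := (amp_le_run hβ hK h1' (by omega) h3).trans_lt (h1 c' hc').2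
      rw [amp, ← hK, ← zpow_natCast, zpow_lt_zpow_iff_right₀ hβ] at this
      omega
  have hfib : ∀ (y : ℤ) (S : Finset ℕ), (∀ c ∈ S, 1 ≤ c ∧ Bad c ∧ phi K L c = y) → S.card ≤ 4 := by
    intro y S hS
    rcases S.eq_empty_or_nonempty with rfl | hne
    · simp
    obtain ⟨-, h2, h3⟩ := hS _ (S.max'_mem hne)
    have h4 := (multiplicity hβ hK y (S.max' hne)).trans_lt (h1 _ h2).2
    rw [if_pos h3.le, h3, sub_self, zero_sub, zpow_neg, zpow_natCast, hK] at h4
    have h5 : S.card ≤ ((Icc 1 (S.max' hne)).filter fun c => ¬ L c ∧ phi K L c = y).card :=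
      card_le_card fun c hc => mem_filter.2 ⟨mem_Icc.2 ⟨(hS c hc).1, S.le_max' c hc⟩,
        (h1 _ (hS c hc).2.1).1, (hS c hc).2.2⟩
    have h6 : (((Icc 1 (S.max' hne)).filter fun c => ¬ L c ∧ phi K L c = y).card : ℝ) < 5 := by
      linarith
    have h7 : ((Icc 1 (S.max' hne)).filter fun c => ¬ L c ∧ phi K L c = y).card < 5 := by
      exact_mod_cast h6
    omega
  intro k
  induction k using Nat.strong_induction_on with
  | h k ih =>
    intro x hx hk
    rcases ((Icc x w).filter Bad).eq_empty_or_nonempty with h0 | hne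
    · simp [h0]
    set c := ((Icc x w).filter Bad).min' hne with hc
    obtain ⟨c1, c2⟩ := mem_filter.1 (min'_mem _ hne)
    rw [← hc, mem_Icc] at c1
    rw [← hc] at c2
    obtain ⟨v, s, W, v1, v2, v3, v4, v5, v6⟩ := h2 c c2 c1.2
    have hsub : (Icc x w).filter Bad ⊆
        (Icc c v).filter Bad ∪ (Icc (v + s + 1) w).filter Bad := by
      intro d hd
      have d0 : c ≤ d := min'_le _ _ hd
      obtain ⟨d1, d2⟩ := mem_filter.1 hd
      rw [mem_Icc] at d1
      rcases le_or_gt d v with h | h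
      · exact mem_union_left _ (mem_filter.2 ⟨mem_Icc.2 ⟨d0, h⟩, d2⟩)
      · refine mem_union_right _ (mem_filter.2 ⟨mem_Icc.2 ⟨?_, d1.2⟩, d2⟩)
        have a1 := hup c d (by omega) d2 d0
        have a2 := phi_down (K := K) (L := L) h.le
        rcases v3 with rfl | v3
        · omega
        · zify; linarith
    have h3 : ((Icc c v).filter Bad).card ≤ 4 * (W + 2 * K) := by
      have := card_le_mul_card_image_of_maps_to (f := phi K L) (s := (Icc c v).filter Bad)
        (t := Ico (phi K L c - W) (phi K L c + 2 * K)) (fun d hd => by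
          obtain ⟨d1, d2⟩ := mem_filter.1 hd
          rw [mem_Icc] at d1
          refine mem_Ico.2 ⟨?_, hup c d (by omega) d2 d1.1⟩
          rcases phi_next (K := K) (L := L) d1.2 with h | ⟨a, a1, a2, a3, a4⟩
          · have := v4 v v2 v1 le_rfl; omega
          · have := v4 a a1 (by omega) a3; omega) 4
        fun y _ => hfib y _ fun d hd => by
          obtain ⟨d1, d2⟩ := mem_filter.1 hd
          obtain ⟨d3, d4⟩ := mem_filter.1 d1
          rw [mem_Icc] at d3
          exact ⟨by omega, d4, d2⟩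
      rw [Int.card_Ico, show phi K L c + 2 * K - (phi K L c - W) =
        ((W + 2 * K : ℕ) : ℤ) by push_cast; ring, Int.toNat_natCast] at this
      exact this
    have h4 := Nat.mul_le_mul_left E ((card_le_card hsub).trans (card_union_le _ _))
    have h5 := Nat.mul_le_mul_left E h3
    rw [mul_add] at h4
    rcases lt_or_ge w (v + s + 1) with h6 | h6
    · rw [show Icc (v + s + 1) w = ∅ from Icc_eq_empty (by omega)] at h4
      simp only [filter_empty, card_empty, mul_zero] at h4
      omega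
    · have := ih (w - (v + s)) (by omega) (v + s + 1) (by omega) (by omega)
      omega

lemma card_fib {S : Finset ℕ} {x w d m : ℕ} (hd : 0 < d) (h1 : ∀ a ∈ S, x ≤ a ∧ a ≤ x + w)
    (h2 : ∀ y, (S.filter fun a => y ≤ a ∧ a < y + d).card ≤ m) : d * S.card ≤ m * (w + d) := by
  have := card_le_mul_card_image_of_maps_to (f := fun a => (a - x) / d) (s := S)
    (t := range (w / d + 1)) (fun a ha => mem_range.2 (Nat.lt_succ_of_le
      (Nat.div_le_div_right (by have := h1 a ha; omega)))) m fun y _ =>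
      le_trans (card_le_card fun a ha => by
        obtain ⟨a1, a2⟩ := mem_filter.1 ha
        refine mem_filter.2 ⟨a1, ?_⟩
        have := h1 a a1
        have e1 := Nat.div_add_mod (a - x) d
        have e2 := Nat.mod_lt (a - x) hd
        rw [a2] at e1
        omega) (h2 (x + d * y))
  rw [card_range] at this
  calc d * S.card ≤ d * (m * (w / d + 1)) := Nat.mul_le_mul_left _ this
    _ = m * (d * (w / d) + d) := by ring
    _ ≤ _ := by gcongr; exact Nat.mul_div_le w d

lemma card_sep {S : Finset ℕ} {x w d : ℕ} (hd : 0 < d) (h1 : ∀ a ∈ S, x ≤ a ∧ a ≤ x + w)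
    (h2 : ∀ a ∈ S, ∀ b ∈ S, a < b → a + d ≤ b) : d * S.card ≤ w + d := by
  have := card_fib (m := 1) hd h1 fun y => card_le_one.2 fun a ha b hb => by
    obtain ⟨a1, a2⟩ := mem_filter.1 ha
    obtain ⟨b1, b2⟩ := mem_filter.1 hb
    rcases lt_trichotomy a b with h | h | h
    · have := h2 a a1 b b1 h; omega
    · exact h
    · have := h2 b b1 a a1 h; omega
  omega

lemma card_near {S T : Finset ℕ} {r r' : ℕ} (h : ∀ c ∈ T, ∃ u ∈ S, u < c + r ∧ c < u + r') :
    T.card ≤ S.card * (r + r') := by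
  refine le_trans (card_le_card fun c hc => ?_)
    (card_biUnion_le_card_mul S (fun u => Ico (u - r) (u + r')) (r + r') fun u _ => by
      rw [Nat.card_Ico]; omega)
  obtain ⟨u, h1, h2, h3⟩ := h c hc
  exact mem_biUnion.2 ⟨u, h1, mem_Ico.2 ⟨by omega, h3⟩⟩

end Pool.Agent.Lib.MP_755262_lc
end

-- part Pool.Agent.Lib.MP_755262_lc.H84Prof
section

/-!
Profiles of segments (records, distances, marks) and their invariants.
-/

open Finset

namespace Pool.Agent.Lib.MP_755262_lc

/-- Period of the main walk. -/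
@[irreducible] def cK : ℕ := 524288
/-- Exponent of the mass budget. -/
@[irreducible] def cp : ℕ := 33554432
/-- Radius around special letters. -/
@[irreducible] def cd : ℕ := 35184372088832
/-- Least length of a light edge. -/
@[irreducible] def cl : ℕ := 73786976294838206464
/-- Length of a regular edge. -/
@[irreducible] def cZ : ℕ := 1180591620717411303424
/-- Period of the zone walk. -/
@[irreducible] def cJ : ℕ := 18889465931478580854784
/-- Length of a zone per unit of mark. -/
@[irreducible] def cR : ℕ := 309485009821345068724781056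
/-- Heights per doubling of the mass. -/
@[irreducible] def cC : ℕ := 1361129467683753853853498429727072845824

/-- The natural mass of a height. -/
noncomputable def mu (h : ℕ) : ℝ := rt cC ^ h
/-- Base of the main walk. -/
noncomputable def bt : ℝ := rt cK
/-- Base of the zone walk. -/
noncomputable def gm : ℝ := rt cJ

lemma cK0 : cK ≠ 0 := by simp [cK]
lemma cJ0 : cJ ≠ 0 := by simp [cJ]
lemma cC0 : cC ≠ 0 := by simp [cC]
lemma bt_gt : 1 < bt := rt_gt cK0
lemma bt_pow : bt ^ cK = 2 := rt_pow cK0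
lemma gm_gt : 1 < gm := rt_gt cJ0
lemma gm_pow : gm ^ cJ = 2 := rt_pow cJ0
lemma mu_pos (h : ℕ) : 0 < mu h := pow_pos (by linarith [rt_gt cC0]) _
lemma mu_add (x y : ℕ) : mu (x + y) = mu x * mu y := pow_add _ _ _
lemma mu_mono {x y : ℕ} (h : x ≤ y) : mu x ≤ mu y := pow_le_pow_right₀ (rt_gt cC0).le h
lemma mu_mul (k : ℕ) : mu (cC * k) = 2 ^ k := (two_pow_rt cC0 k).symm
lemma mu_pow (x k : ℕ) : mu x ^ k = mu (x * k) := (pow_mul _ _ _).symm

lemma mu_le {x y : ℕ} (k : ℕ) (h : x ≤ y + cC * k) : mu x ≤ 2 ^ k * mu y := by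
  rw [← mu_mul, ← mu_add, add_comm]; exact mu_mono h

lemma mu_le_bt {x y : ℕ} (h : x * cK ≤ y * cC) : mu x ≤ bt ^ y := rt_le cC0 cK0 h

lemma le_mu {x y : ℕ} (k : ℕ) (h : y + cC * k ≤ x) : 2 ^ k * mu y ≤ mu x := by
  rw [← mu_mul, ← mu_add, add_comm]; exact mu_mono h

lemma mu_lt {x y : ℕ} (h : mu x < mu y) : x < y := by
  by_contra h1
  exact absurd (mu_mono (not_lt.1 h1)) (not_le.2 h)

/-- Records, distance to the first higher point, and the two marks of a record. -/
structure Prof where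
  /-- The records. -/
  L : ℕ → Prop
  /-- Position of the first point above a height. -/
  D : ℕ → ℕ
  /-- The mark in the reading direction. -/
  F : ℕ → ℕ
  /-- The mark in the opposite direction. -/
  G : ℕ → ℕ

/-- Number of steps from the record `u` to the record `v`. -/
def Prof.m (P : Prof) (u v : ℕ) : ℝ := (P.D (v - 1) : ℝ) - P.D (u - 1)

/-- The edge leaving `u` is light. -/
def Prof.jk (P : Prof) (u : ℕ) : Prop := 16 * P.m u (u + 1) < mu u

/-- The main potential is bounded by the mass. -/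
def IB (P : Prof) (u v : ℕ) : Prop :=
  P.L v → mrun bt (Lge P.L u) v ≤ max 2 (((P.m u v + 1) / mu v) ^ cp)

/-- Light edges are long. -/
def IE (P : Prof) (u v : ℕ) : Prop :=
  P.L u → Nx P.L u v → ((P.m u (u + 1) / mu v) ^ cp < 16 → u + 4 * cK ≤ v) ∧
    (P.jk u → u + cl ≤ v ∧ (v < u + cZ → P.F u ≠ 0 ∨ (P.G v ≠ 0 ∧ P.G u = 0)))

/-- Marked records are sparse. -/
def I3 (P : Prof) (y z : ℕ) : Prop :=
  P.L y → P.L z → y < z → P.F y ≠ 0 → P.F z ≠ 0 → (∀ u, P.L u → y ≤ u → u < z → P.jk u) →
    (∀ u, P.L u → y < u → u < z → P.F u = 0) →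
    (mu y ≤ 2 ^ (2 * P.F y) * P.m y z ∧
      (y + cR * P.F z ≤ z ∨ (16 * P.F y ≤ P.F z ∧ y + cR * P.F y ≤ z))) ∨ y + 10 * cR * P.F z ≤ z

/-- The potential of the zone below a marked record. -/
def I5 (P : Prof) (y u v : ℕ) : Prop :=
  P.L y → P.F y ≠ 0 → y ≤ u + cR * P.F y → v < y → P.L v →
    (∀ z, P.L z → u ≤ z → z < y → P.jk z ∧ P.F z = 0) →
    run gm (Lge P.L u) v ≤ 2 ^ (1024 * P.F y) * (1 + 2 ^ (11 * P.F y) * P.m u v / mu y)

/-- The invariant of a profile. -/
structure Inv (P : Prof) : Prop where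
  pos : ∀ v, P.L v → 1 ≤ v
  one : ∀ h, 1 ≤ P.D h
  mono : Monotone P.D
  stay : ∀ h, ¬ P.L (h + 1) → P.D (h + 1) = P.D h
  i0 : ∀ v, P.L v → P.F v ≠ 0 → 5 ≤ P.F v
  iB : ∀ u v, 1 ≤ u → u ≤ v → IB P u v
  iE : ∀ u v, IE P u v
  i3 : ∀ y z, I3 P y z
  i5 : ∀ y u v, 1 ≤ u → u ≤ v → I5 P y u v

lemma Inv.m_nonneg {P : Prof} (h : Inv P) {u v : ℕ} (huv : u ≤ v) : 0 ≤ P.m u v := by
  have := h.mono (show u - 1 ≤ v - 1 by omega)
  unfold Prof.m
  have : (P.D (u - 1) : ℝ) ≤ P.D (v - 1) := by exact_mod_cast this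
  linarith

lemma Inv.D_nx {P : Prof} (h : Inv P) {u v : ℕ} (hn : Nx P.L u v) : P.D (v - 1) = P.D u := by
  have : ∀ j, u + j < v → P.D (u + j) = P.D u := by
    intro j
    induction j with
    | zero => simp
    | succ j ih =>
      intro hj
      rw [← add_assoc, h.stay _ (hn.2.2 _ (by omega) (by omega)), ih (by omega)]
  have h1 := hn.2.1
  rw [← this (v - 1 - u) (by omega)]; congr 1; omega

/-- The two profiles agree between two heights, up to larger distances. -/
structure Agree (P P' : Prof) (lo hi : ℕ) : Prop where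
  L : ∀ z, lo ≤ z → z ≤ hi → (P'.L z ↔ P.L z)
  F : ∀ z, lo ≤ z → z ≤ hi → P'.F z = P.F z
  G : ∀ z, lo ≤ z → z ≤ hi → P'.G z = P.G z
  m : ∀ x y, lo ≤ x → x ≤ y → y ≤ hi → P.m x y ≤ P'.m x y

variable {P P' : Prof} {lo hi : ℕ}

lemma Agree.jk (h : Agree P P' lo hi) {u : ℕ} (h1 : lo ≤ u) (h2 : u < hi) (hj : P'.jk u) :
    P.jk u := by
  have := h.m u (u + 1) h1 (by omega) h2
  unfold Prof.jk at *; linarith

lemma Agree.lge (h : Agree P P' lo hi) {u y : ℕ} (h1 : lo ≤ u) (h2 : y ≤ hi) :
    Lge P'.L u y ↔ Lge P.L u y :=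
  and_congr_left fun h3 => h.L y (by omega) h2

lemma Agree.iB (h : Agree P P' lo hi) (hP : Inv P) {u v : ℕ} (h0 : 1 ≤ u) (h1 : lo ≤ u)
    (h2 : u ≤ v) (h3 : v ≤ hi) : IB P' u v := by
  intro hv
  rw [mrun_congr bt_gt fun y _ hy => h.lge h1 (hy.trans h3)]
  refine (hP.iB u v h0 h2 ((h.L v (by omega) h3).1 hv)).trans ?_
  have := hP.m_nonneg h2
  have := h.m u v h1 h2 h3
  have := mu_pos v
  gcongr

lemma Agree.iE (h : Agree P P' lo hi) (hP : Inv P) {u v : ℕ} (h1 : lo ≤ u) (h3 : v ≤ hi) :
    IE P' u v := by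
  intro hu hn
  have h2 := hn.2.1
  have := hP.iE u v ((h.L u h1 (by omega)).1 hu) ⟨(h.L v (by omega) h3).1 hn.1, h2,
    fun z a b hz => hn.2.2 z a b ((h.L z (by omega) (by omega)).2 hz)⟩
  rw [h.F u h1 (by omega), h.G u h1 (by omega), h.G v (by omega) h3]
  refine ⟨fun h4 => this.1 (lt_of_le_of_lt ?_ h4), fun h4 => this.2 (h.jk h1 (by omega) h4)⟩
  have := hP.m_nonneg (show u ≤ u + 1 by omega)
  have := h.m u (u + 1) h1 (by omega) (by omega)
  have := mu_pos v
  gcongr

lemma Agree.i3 (h : Agree P P' lo hi) (hP : Inv P) {y z : ℕ} (h1 : lo ≤ y) (h3 : z ≤ hi) :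
    I3 P' y z := by
  intro hy hz h2 f1 f2 a1 a2
  rw [h.F y h1 (by omega)] at f1 ⊢
  rw [h.F z (by omega) h3] at f2 ⊢
  have := hP.i3 y z ((h.L y h1 (by omega)).1 hy) ((h.L z (by omega) h3).1 hz) h2 f1 f2
    (fun u hu b1 b2 => h.jk (by omega) (by omega)
      (a1 u ((h.L u (by omega) (by omega)).2 hu) b1 b2))
    fun u hu b1 b2 => by
      rw [← h.F u (by omega) (by omega)]; exact a2 u ((h.L u (by omega) (by omega)).2 hu) b1 b2
  refine this.imp_left fun h4 => ⟨h4.1.trans ?_, h4.2⟩
  have := h.m y z h1 h2.le h3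
  gcongr

lemma Agree.i5 (h : Agree P P' lo hi) (hP : Inv P) {y u v : ℕ} (h0 : 1 ≤ u) (h1 : lo ≤ u)
    (h2 : u ≤ v) (h3 : y ≤ hi) : I5 P' y u v := by
  intro hy f1 a1 a2 hv a3
  rw [h.F y (by omega) h3] at f1 a1 ⊢
  rw [run_congr fun z _ hz => h.lge h1 (by omega)]
  refine (hP.i5 y u v h0 h2 ((h.L y (by omega) h3).1 hy) f1 a1 a2
    ((h.L v (by omega) (by omega)).1 hv) fun z hz b1 b2 => ?_).trans ?_
  · have := a3 z ((h.L z (by omega) (by omega)).2 hz) b1 b2
    exact ⟨h.jk (by omega) (by omega) this.1, by rw [← h.F z (by omega) (by omega)]; exact this.2⟩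
  · have := h.m u v h1 h2 (by omega)
    have := mu_pos y
    gcongr

/-- The profile `N` follows `O` up to `t`, then has the new record `c`, then follows `B`. -/
structure Glue (O : Prof) (t n c f g : ℕ) (B N : Prof) : Prop where
  lt : t < c
  L : ∀ v, N.L v ↔ (O.L v ∧ v ≤ t) ∨ v = c ∨ (B.L v ∧ c < v)
  D1 : ∀ h, h < t → N.D h = O.D h
  D2 : ∀ h, t ≤ h → h < c → N.D h = n + 1
  D3 : ∀ h, c ≤ h → N.D h = n + 1 + B.D h
  F1 : ∀ v, 1 ≤ v → v ≤ t → N.F v = O.F v
  F2 : N.F c = f
  F3 : ∀ v, c < v → N.F v = B.F v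
  G1 : ∀ v, 1 ≤ v → v ≤ t → N.G v = O.G v
  G2 : N.G c = g
  G3 : ∀ v, c < v → N.G v = B.G v
  top : t = 0 ∨ (O.L t ∧ O.D (t - 1) ≤ n)

variable {O B N : Prof} {t n c f g : ℕ}

lemma Glue.low (h : Glue O t n c f g B N) : Agree O N 1 t where
  L z _ h2 := by rw [h.L]; have := h.lt; constructor
                 · rintro (h3 | h3 | h3)
                   · exact h3.1
                   · omega
                   · omega
                 · exact fun h3 => Or.inl ⟨h3, h2⟩
  F := h.F1
  G := h.G1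
  m x y h1 h2 h3 := by simp only [Prof.m]; rw [h.D1 _ (by omega), h.D1 _ (by omega)]

lemma Glue.high (h : Glue O t n c f g B N) (hi : ℕ) : Agree B N (c + 1) hi where
  L z h1 _ := by rw [h.L]; have := h.lt; constructor
                 · rintro (h3 | h3 | h3)
                   · omega
                   · omega
                   · exact h3.1
                 · exact fun h3 => Or.inr (Or.inr ⟨h3, h1⟩)
  F z h1 _ := h.F3 z h1
  G z h1 _ := h.G3 z h1
  m x y h1 h2 h3 := by
    simp only [Prof.m]; rw [h.D3 _ (by omega), h.D3 _ (by omega)]; push_cast; linarith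

lemma Glue.Lc (h : Glue O t n c f g B N) : N.L c := (h.L c).2 (Or.inr (Or.inl rfl))

lemma Glue.cases (h : Glue O t n c f g B N) {v : ℕ} (hv : N.L v) : v ≤ t ∨ c ≤ v := by
  rcases (h.L v).1 hv with h | h | h <;> omega

lemma Glue.Lt (h : Glue O t n c f g B N) (ht : 0 < t) : N.L t :=
  (h.L t).2 (Or.inl ⟨(h.top.resolve_left (by omega)).1, le_rfl⟩)

lemma Glue.inv (h : Glue O t n c f g B N) (hO : Inv O) (hB : Inv B) (h0 : f ≠ 0 → 5 ≤ f)
    (hb : ∀ u v, 1 ≤ u → u ≤ c → c ≤ v → IB N u v) (he1 : 0 < t → IE N t c)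
    (he2 : ∀ v, IE N c v) (h3 : ∀ y z, y ≤ c → c ≤ z → I3 N y z)
    (h5 : ∀ y u v, 1 ≤ u → u ≤ c → u ≤ v → c ≤ y → I5 N y u v) : Inv N := by
  have hlt := h.lt
  have hpos : ∀ v, N.L v → 1 ≤ v := fun v hv => by
    rcases (h.L v).1 hv with h1 | h1 | h1
    · exact hO.pos v h1.1
    · omega
    · omega
  refine ⟨hpos, fun x => ?_, monotone_nat_of_le_succ fun x => ?_, fun x hx => ?_,
    fun v hv => ?_, fun u v h1 h2 => ?_, fun u v => ?_, fun y z => ?_, fun y u v h1 h2 => ?_⟩
  · rcases lt_or_ge x t with h1 | h1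
    · rw [h.D1 x h1]; exact hO.one x
    · rcases lt_or_ge x c with h2 | h2
      · rw [h.D2 x h1 h2]; omega
      · rw [h.D3 x h2]; omega
  · rcases lt_trichotomy (x + 1) t with h1 | h1 | h1
    · rw [h.D1 x (by omega), h.D1 _ h1]; exact hO.mono (by omega)
    · have := (h.top.resolve_left (by omega)).2
      rw [h.D1 x (by omega), h.D2 _ (by omega) (by omega), show x = t - 1 by omega]; omega
    · rcases lt_trichotomy (x + 1) c with h2 | h2 | h2
      · rw [h.D2 x (by omega) (by omega), h.D2 _ (by omega) h2]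
      · rw [h.D2 x (by omega) (by omega), h.D3 _ (by omega)]; omega
      · rw [h.D3 x (by omega), h.D3 _ (by omega)]
        have := hB.mono (show x ≤ x + 1 by omega); omega
  · rcases lt_trichotomy (x + 1) t with h1 | h1 | h1
    · rw [h.D1 x (by omega), h.D1 _ h1]
      exact hO.stay x fun h2 => hx ((h.low.L _ (by omega) h1.le).2 h2)
    · exact absurd (h1 ▸ h.Lt (by omega)) hx
    · rcases lt_trichotomy (x + 1) c with h2 | h2 | h2
      · rw [h.D2 x (by omega) (by omega), h.D2 _ (by omega) h2]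
      · exact absurd (h2 ▸ h.Lc) hx
      · rw [h.D3 x (by omega), h.D3 _ (by omega),
          hB.stay x fun h3 => hx (((h.high _).L _ h2 le_rfl).2 h3)]
  · rcases (h.L v).1 hv with h1 | rfl | h1
    · rw [h.F1 v (hpos v hv) h1.2]; exact hO.i0 v h1.1
    · rwa [h.F2]
    · rw [h.F3 v h1.2]; exact hB.i0 v h1.1
  · intro hv
    rcases h.cases hv with h4 | h4
    · exact h.low.iB hO h1 h1 h2 h4 hv
    · rcases le_or_gt u c with h6 | h6
      · exact hb u v h1 h6 h4 hv
      · exact (h.high v).iB hB h1 h6 h2 le_rfl hv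
  · intro hu hn
    rcases h.cases hn.1 with h4 | h4
    · exact h.low.iE hO (hpos u hu) h4 hu hn
    · rcases lt_trichotomy u c with h6 | rfl | h6
      · have h7 : v = c := by
          by_contra h7
          exact hn.2.2 c h6 (by omega) h.Lc
        have h8 := hpos u hu
        have h9 : u = t := by
          by_contra h9
          have := h.cases hu
          exact hn.2.2 t (by omega) (by omega) (h.Lt (by omega))
        subst h7 h9
        exact he1 h8 hu hn
      · exact he2 v hu hn
      · exact (h.high v).iE hB h6 le_rfl hu hn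
  · intro hy hz
    rcases h.cases hz with h4 | h4
    · exact h.low.i3 hO (hpos y hy) h4 hy hz
    · rcases le_or_gt y c with h6 | h6
      · exact h3 y z h6 h4 hy hz
      · exact (h.high z).i3 hB h6 le_rfl hy hz
  · intro hy
    rcases h.cases hy with h4 | h4
    · exact h.low.i5 hO h1 h1 h2 h4 hy
    · rcases le_or_gt u c with h6 | h6
      · exact h5 y u v h1 h6 h2 h4 hy
      · exact (h.high y).i5 hB h1 h6 h2 le_rfl hy

end Pool.Agent.Lib.MP_755262_lc
end

-- part Pool.Agent.Lib.MP_755262_lc.H84Prop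
section

/-!
Propagation of the main potential along a chain of records.
-/

open Finset

namespace Pool.Agent.Lib.MP_755262_lc

lemma amp_congr {β : ℝ} {K : ℕ} {L L' : ℕ → Prop} (hβ : 1 < β) (hK : β ^ K = 2) {c x : ℕ}
    (hx : c ≤ x) (h : ∀ y, c < y → y ≤ x → (L' y ↔ L y)) : amp β K L' c x = amp β K L c x := by
  induction x, hx using Nat.le_induction with
  | base => rw [amp_self, amp_self]
  | succ x hx ih =>
    have := ih fun y h1 h2 => h y h1 (by omega)
    by_cases h1 : L (x + 1)
    · rw [amp_succ_pos hβ hK c h1, amp_succ_pos hβ hK c ((h _ (by omega) le_rfl).2 h1), this]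
    · rw [amp_succ_neg hβ c h1, amp_succ_neg hβ c (fun h2 => h1 ((h _ (by omega) le_rfl).1 h2)),
        this]

lemma shift_pow {x : ℝ} {u v : ℕ} (h : u ≤ v) :
    (x / mu u) ^ cp = (x / mu v) ^ cp * mu ((v - u) * cp) := by
  rw [← mu_pow, ← mul_pow]
  congr 1
  have : mu v = mu u * mu (v - u) := by rw [← mu_add]; congr 1; omega
  have h1 := mu_pos u
  have h2 := mu_pos (v - u)
  rw [this]; field_simp

lemma lemJ {r x y : ℝ} {u v : ℕ} (huv : u + 4 * cK ≤ v) (hx : 0 ≤ x) (hxy : x ≤ y)
    (hr : r ≤ max 2 ((x / mu u) ^ cp)) :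
    max 2 (1 + 2 * (r / bt ^ (v - u))) ≤ max 2 ((y / mu v) ^ cp) := by
  have hb : 0 < bt ^ (v - u) := pow_pos (by linarith [bt_gt]) _
  have h4 : 2 ^ 2 * mu ((v - u) * cp) ≤ bt ^ (v - u) :=
    (le_mu 2 le_rfl).trans (mu_le_bt (by simp only [cK, cp, cC] at huv ⊢; lia))
  have h5 : 1 ≤ mu ((v - u) * cp) := one_le_pow₀ (rt_gt cC0).le
  refine max_le (le_max_left _ _) ?_
  rcases le_or_gt (r / bt ^ (v - u)) (1 / 2) with h1 | h1
  · exact le_trans (by linarith) (le_max_left _ _)
  · rw [lt_div_iff₀ hb] at h1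
    have h2 : r ≤ (x / mu u) ^ cp := (le_max_iff.1 hr).resolve_left (by linarith)
    have h3 : (x / mu v) ^ cp ≤ (y / mu v) ^ cp := by have := mu_pos v; gcongr
    have h6 : 0 ≤ (x / mu v) ^ cp := by have := mu_pos v; positivity
    rw [shift_pow (show u ≤ v by omega)] at h2
    refine le_trans ?_ (h3.trans (le_max_right _ _))
    have h7 : 4 * (r / bt ^ (v - u)) ≤ (x / mu v) ^ cp := by
      rw [← mul_div_assoc, div_le_iff₀ hb]; nlinarith
    have h8 : 1 / 2 < r / bt ^ (v - u) := by rw [lt_div_iff₀ hb]; exact h1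
    linarith

lemma lemM {r x : ℝ} {u v : ℕ} (huv : u + 4 * cK ≤ v) (hx : 0 ≤ x) (hxy : x ≤ mu v)
    (hr : r ≤ max 2 ((x / mu u) ^ cp)) : max 2 (1 + 2 * (r / bt ^ (v - u))) ≤ 2 := by
  have := lemJ huv hx hxy hr
  rwa [div_self (mu_pos v).ne', one_pow, max_eq_left (show (1 : ℝ) ≤ 2 by norm_num)] at this

variable {O A B N : Prof} {t n c f g : ℕ}

lemma Glue.mono (h : Glue O t n c f g B N) (hO : Inv O) (hB : Inv B) : Monotone N.D := by
  have hlt := h.lt
  refine monotone_nat_of_le_succ fun x => ?_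
  rcases lt_trichotomy (x + 1) t with h1 | h1 | h1
  · rw [h.D1 x (by omega), h.D1 _ h1]; exact hO.mono (by omega)
  · have := (h.top.resolve_left (by omega)).2
    rw [h.D1 x (by omega), h.D2 _ (by omega) (by omega), show x = t - 1 by omega]; omega
  · rcases lt_trichotomy (x + 1) c with h2 | h2 | h2
    · rw [h.D2 x (by omega) (by omega), h.D2 _ (by omega) h2]
    · rw [h.D2 x (by omega) (by omega), h.D3 _ (by omega)]; omega
    · rw [h.D3 x (by omega), h.D3 _ (by omega)]
      have := hB.mono (show x ≤ x + 1 by omega); omega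

lemma Glue.one (h : Glue O t n c f g B N) (hO : Inv O) (x : ℕ) : 1 ≤ N.D x := by
  rcases lt_or_ge x t with h1 | h1
  · rw [h.D1 x h1]; exact hO.one x
  · rcases lt_or_ge x c with h2 | h2
    · rw [h.D2 x h1 h2]; omega
    · rw [h.D3 x h2]; omega

lemma m_mono {P : Prof} (h : Monotone P.D) {u u' v v' : ℕ} (h1 : u' ≤ u) (h2 : v ≤ v') :
    P.m u v ≤ P.m u' v' := by
  have a1 : (P.D (u' - 1) : ℝ) ≤ P.D (u - 1) := by exact_mod_cast h (by omega)
  have a2 : (P.D (v - 1) : ℝ) ≤ P.D (v' - 1) := by exact_mod_cast h (by omega)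
  unfold Prof.m; linarith

lemma m_self (P : Prof) (u : ℕ) : P.m u u = 0 := sub_self _

lemma Glue.lge (h : Glue O t n c f g B N) {u z y : ℕ} (hu : u ≤ c) (hy : c < y) (hz : z ≤ y) :
    Lge N.L u y ↔ Lge B.L z y := by
  unfold Lge
  rw [(h.high y).L y hy le_rfl]
  exact and_congr_right fun _ => by omega

lemma Glue.nx (h : Glue O t n c f g B N) {u w v : ℕ} (hu : u ≤ c) (hw : c ≤ w)
    (hn : Nx B.L w v) : Nx (Lge N.L u) w v := by
  have := hn.2.1
  exact ⟨(h.lge hu (by omega) (Nat.zero_le _)).2 ⟨hn.1, by omega⟩, this,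
    fun z a b hz => hn.2.2 z a b ((h.lge hu (by omega) (Nat.zero_le _)).1 hz).1⟩

lemma Glue.masked (h : Glue O t n c f g B N) (hO : Inv O) (hB : Inv B) {u z v : ℕ} (hu : u ≤ c)
    (hz : c < z) (hzL : B.L z) (hm : mrun bt (Lge N.L u) z ≤ 2) (hv : z ≤ v) : IB N u v := by
  intro hvL
  have h1 : mrun bt (Lge N.L u) v ≤ mrun bt (Lge B.L z) v := by
    refine mrun_mono bt_gt hv (fun y a _ => h.lge hu (by omega) a.le) (hm.trans ?_)
    obtain ⟨z, rfl⟩ : ∃ w, z = w + 1 := ⟨z - 1, by omega⟩
    rw [mrun_pos ⟨hzL, le_rfl⟩]; exact le_max_left _ _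
  refine h1.trans ((hB.iB z v (by omega) hv (((h.high v).L v (by omega) le_rfl).1 hvL)).trans ?_)
  have a1 := hB.m_nonneg hv
  have a2 := ((h.high v).m z v hz hv le_rfl).trans (m_mono (h.mono hO hB) (show u ≤ z by omega)
    le_rfl)
  have := mu_pos v
  gcongr

lemma Glue.prop (h : Glue O t n c f g B N) (hO : Inv O) (hB : Inv B) {u top : ℕ} (hu : u ≤ c)
    (hct : c ≤ top) (hV : IB N u c)
    (h1 : ∀ v, Nx B.L c v → c + 4 * cK ≤ v ∨ (v ≤ top ∧ IB N u v))
    (h2 : ∀ v, B.L v → c < v → v ≤ top → 16 ≤ ((B.m (c + 1) v + 1) / mu v) ^ cp →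
      ((B.m (c + 1) v + 1) / mu v) ^ cp + amp bt cK B.L c v * mrun bt (Lge N.L u) c ≤
        ((N.m u v + 1) / mu v) ^ cp)
    (h3 : ((n + 1 + B.D top : ℕ) : ℝ) ≤ mu top) : ∀ v, c ≤ v → IB N u v := by
  have hm := h.mono hO hB
  have hLw : ∀ w, c ≤ w → (w = c ∨ B.L w) → N.L w := fun w a b => by
    rcases a.eq_or_lt with rfl | a
    · exact h.Lc
    · exact ((h.high w).L w a le_rfl).2 (b.resolve_left (by omega))
  have hnn : ∀ w, c ≤ w → 0 ≤ N.m u w + 1 := fun w a => by
    linarith [m_mono hm (le_refl u) (show u ≤ w by omega), m_self N u]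
  intro v
  induction v using Nat.strong_induction_on with
  | h v ih =>
    intro hv hvL
    rcases hv.eq_or_lt with rfl | hv
    · exact hV hvL
    have hvB := ((h.high v).L v hv le_rfl).1 hvL
    rcases le_or_gt v top with hvt | hvt
    · obtain ⟨w, w1, w2, w3, w4⟩ := exists_prev B.L hv
      have hn : Nx B.L w v := ⟨hvB, w2, w4⟩
      rcases le_or_gt (w + 4 * cK) v with h4 | h4
      · rw [mrun_step (h.nx hu w1 hn)]
        exact lemJ h4 (hnn w w1) (by linarith [m_mono hm (le_refl u) w2.le])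
          (ih w w2 w1 (hLw w w1 w3))
      rcases w1.eq_or_lt with rfl | w1
      · exact ((h1 v hn).resolve_left (by omega)).2 hvL
      have h5 : 16 ≤ ((B.m (c + 1) v + 1) / mu v) ^ cp := by
        refine (not_lt.1 fun h5 => ?_ : 16 ≤ (B.m w (w + 1) / mu v) ^ cp).trans ?_
        · have := (hB.iE w v (w3.resolve_left (by omega)) hn).1 h5; omega
        · have := hB.m_nonneg (show w ≤ w + 1 by omega)
          have := m_mono hB.mono (show c + 1 ≤ w by omega) (show w + 1 ≤ v by omega)
          have := mu_pos v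
          gcongr; linarith
      have h6 := hB.iB (c + 1) v (by omega) hv hvB
      rw [max_eq_right (by linarith)] at h6
      have h7 := mrun_sub (L := Lge B.L (c + 1)) (L' := Lge N.L u) bt_gt bt_pow hv.le
        fun y a _ => h.lge hu a a
      rw [amp_congr (L := B.L) (L' := Lge B.L (c + 1)) bt_gt bt_pow hv.le
        fun y a _ => and_iff_left a] at h7
      exact le_trans (by linarith [h2 v hvB hv hvt h5]) (le_max_right _ _)
    · obtain ⟨z, z1, z2⟩ := exists_next hvt hvB
      have z3 := z2.2.1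
      obtain ⟨w, w1, w2, w3, w4⟩ := exists_prev B.L (show c < z by omega)
      have hn : Nx B.L w z := ⟨z2.1, w2, w4⟩
      have w5 : w ≤ top := by
        by_contra w5
        exact z2.2.2 w (by omega) w2 (w3.resolve_left (by omega))
      have e1 := mu_mono z3.le
      have h4 : w + 4 * cK ≤ z := by
        rcases w1.eq_or_lt with rfl | w1
        · exact (h1 z hn).resolve_right (by omega)
        refine (hB.iE w z (w3.resolve_left (by omega)) hn).1
          (lt_of_le_of_lt (pow_le_one₀ ?_ ?_) (by norm_num))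
        · exact div_nonneg (hB.m_nonneg (by omega)) (mu_pos z).le
        · rw [div_le_one (mu_pos z)]
          have : (B.D w : ℝ) ≤ B.D top := by exact_mod_cast hB.mono w5
          have : (0 : ℝ) ≤ B.D (w - 1) := Nat.cast_nonneg _
          have : (0 : ℝ) ≤ n := Nat.cast_nonneg _
          simp only [Prof.m, Nat.add_sub_cancel]; push_cast at h3; linarith
      refine h.masked hO hB hu (by omega) z2.1 ?_ z1 hvL
      rw [mrun_step (h.nx hu w1 hn)]
      refine lemM h4 (hnn w w1) ?_ (ih w (by omega) w1 (hLw w w1 w3))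
      have a1 : (N.D (w - 1) : ℝ) ≤ N.D top := by exact_mod_cast hm (by omega)
      have a2 : (1 : ℝ) ≤ N.D (u - 1) := by exact_mod_cast h.one hO _
      rw [h.D3 top hct] at a1
      unfold Prof.m; linarith

/-- The edge leaving `u` is heavy, but the mass below `u` is not too large. -/
def Prof.nt (P : Prof) (u : ℕ) : Prop := ¬ P.jk u ∧ (P.D u : ℝ) ≤ 4 * mu u

open Classical in
lemma card_nt {P : Prof} (hP : Monotone P.D) (x w : ℕ) :
    cC * ((Ioc x (x + w)).filter P.nt).card ≤ 64 * cC + 64 * w := by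
  have hC : (0 : ℝ) < cC := by exact_mod_cast Nat.pos_of_ne_zero cC0
  have hb : rt cC ≤ 1 + 1 / cC := by
    by_contra h
    have h1 := pow_lt_pow_left₀ (not_le.1 h) (by positivity) cC0
    have h2 := one_add_mul_le_pow (show (-2 : ℝ) ≤ 1 / cC by linarith [one_div_pos.2 hC]) cC
    rw [rt_pow cC0] at h1
    rw [mul_one_div_cancel hC.ne'] at h2
    linarith
  have key : (((Ioc x (x + w)).filter P.nt).card : ℝ) / 16 ≤
      min (P.D (x + w) / mu (x + w)) 4 + 4 * w / cC := by
    induction w with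
    | zero => have := mu_pos x; simp; positivity
    | succ w ih =>
      have e1 := mu_pos (x + w)
      have e2 := mu_pos (x + w + 1)
      have e3 : min (P.D (x + w) / mu (x + w)) 4 - 4 / cC ≤ P.D (x + w) / mu (x + w + 1) := by
        set Y := min (P.D (x + w) / mu (x + w)) 4
        have y1 : Y * mu (x + w) ≤ P.D (x + w) := (le_div_iff₀ e1).1 (min_le_left _ _)
        have y2 : Y ≤ 4 := min_le_right _ _
        have y3 : 0 ≤ Y := le_min (by positivity) (by norm_num)
        have y4 : mu (x + w + 1) = mu (x + w) * rt cC := pow_succ _ _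
        rw [le_div_iff₀ e2, y4]
        have y5 : (Y - 4 / cC) * rt cC ≤ Y := by
          have : 4 / (cC : ℝ) = 4 * (1 / cC) := by ring
          have y6 := rt_gt cC0
          have y7 := one_div_pos.2 hC
          rw [this]; nlinarith
        nlinarith
      have e4 : (P.D (x + w) : ℝ) ≤ P.D (x + w + 1) := by exact_mod_cast hP (by omega)
      have e5 : 4 * ((w + 1 : ℕ) : ℝ) / cC = 4 * w / cC + 4 / cC := by push_cast; ring
      rw [← add_assoc, ← Finset.insert_Ioc_right_eq_Ioc_add_one (by omega), filter_insert, e5]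
      split_ifs with h
      · rw [card_insert_of_notMem (by simp), min_eq_left ((div_le_iff₀ e2).2 h.2)]
        have e6 : P.D (x + w) / mu (x + w + 1) + 1 / 16 ≤ P.D (x + w + 1) / mu (x + w + 1) := by
          have := not_lt.1 h.1
          simp only [Prof.m, Nat.add_sub_cancel] at this
          rw [le_div_iff₀ e2, add_mul, div_mul_cancel₀ _ e2.ne']; linarith
        push_cast; linarith
      · have e6 : P.D (x + w) / mu (x + w + 1) ≤ P.D (x + w + 1) / mu (x + w + 1) := by gcongr
        have e7 := min_le_right (P.D (x + w) / mu (x + w)) 4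
        have e8 : 0 < 4 / (cC : ℝ) := by positivity
        have : min (P.D (x + w) / mu (x + w)) 4 - 4 / cC ≤
          min (P.D (x + w + 1) / mu (x + w + 1)) 4 := le_min (by linarith) (by linarith)
        linarith
  have h1 := min_le_right (P.D (x + w) / mu (x + w)) 4
  have h2 : (((Ioc x (x + w)).filter P.nt).card : ℝ) / 16 ≤ 4 + 4 * w / cC := by linarith
  have h3 : (cC : ℝ) * ((Ioc x (x + w)).filter P.nt).card ≤ 64 * cC + 64 * w := by
    have := mul_le_mul_of_nonneg_left h2 hC.le
    rw [mul_add, mul_div_cancel₀ _ hC.ne'] at this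
    linarith
  exact_mod_cast h3

lemma amp_light (hB : Inv B) {top : ℕ} (h1 : ∀ v, B.L v → c < v → c + cl ≤ v)
    (h2 : ∀ h, c ≤ h → h ≤ top → (B.D h : ℝ) ≤ mu h) {v : ℕ} (hv : B.L v) (h3 : c < v)
    (h4 : v ≤ top) : amp bt cK B.L c v * mu ((v - c) * cp) ≤ 2 ^ 64 := by
  classical
  have hs := rt_gt (k := 2 * cK) (by simp [cK])
  have key : ∀ v, B.L v → c < v → v ≤ top → amp bt cK B.L c v * rt (2 * cK) ^ (v - c) ≤
      2 ^ ((Ioc c (v - 1)).filter B.nt).card := by
    intro v
    induction v using Nat.strong_induction_on with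
    | h v ih =>
      intro hv h3 h4
      obtain ⟨w, w1, w2, w3, w4⟩ := exists_prev B.L h3
      have hn : Nx B.L w v := ⟨hv, w2, w4⟩
      have hb : 0 < bt ^ (v - w) := pow_pos (by linarith [bt_gt]) _
      have e1 : amp bt cK B.L c w * rt (2 * cK) ^ (w - c) ≤
          2 ^ ((Ioc c (w - 1)).filter B.nt).card := by
        rcases w1.eq_or_lt with rfl | w1
        · rw [amp_self]; simp
        · exact ih w w2 (w3.resolve_left (by omega)) w1 (by omega)
      have e2 : amp bt cK B.L c v * rt (2 * cK) ^ (v - c) =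
          amp bt cK B.L c w * rt (2 * cK) ^ (w - c) * (2 * rt (2 * cK) ^ (v - w) / bt ^ (v - w)) := by
        rw [amp_step bt_gt bt_pow hn, show v - c = w - c + (v - w) by omega, pow_add]; ring
      have e3 : 0 ≤ amp bt cK B.L c w * rt (2 * cK) ^ (w - c) :=
        mul_nonneg (amp_pos bt_gt _ _).le (by positivity)
      rw [e2]
      rcases le_or_gt (w + cl) v with h5 | h5
      · have e4 : 2 * rt (2 * cK) ^ (v - w) / bt ^ (v - w) ≤ 1 := by
          rw [div_le_one hb, ← rt_pow (k := 2 * cK) (by simp [cK]), ← pow_add]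
          exact rt_le (by simp [cK]) cK0 (by simp only [cK, cl] at *; omega)
        refine (mul_le_of_le_one_right e3 e4).trans (e1.trans ?_)
        gcongr; norm_num
      · have w6 : c < w := by
          by_contra w6
          have := h1 v hv h3; omega
        have w7 := w3.resolve_left (by omega)
        have e4 : 2 * rt (2 * cK) ^ (v - w) / bt ^ (v - w) ≤ 2 := by
          rw [div_le_iff₀ hb]
          have := rt_le (k := 2 * cK) (x := v - w) (y := v - w) (by simp [cK]) cK0
            (by simp only [cK]; omega)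
          unfold bt; linarith
        have e5 : ((Ioc c (w - 1)).filter B.nt).card < ((Ioc c (v - 1)).filter B.nt).card := by
          refine card_lt_card ⟨filter_subset_filter _ (Ioc_subset_Ioc_right (by omega)),
            fun h6 => ?_⟩
          have := h6 (mem_filter.2 ⟨mem_Ioc.2 ⟨w6, by omega⟩, fun h7 => ?_, ?_⟩)
          · simp only [mem_filter, mem_Ioc] at this; omega
          · have := ((hB.iE w v w7 hn).2 h7).1; omega
          · linarith [h2 w w6.le (by omega), mu_pos w]
        calc _ ≤ (2 : ℝ) ^ ((Ioc c (w - 1)).filter B.nt).card * 2 :=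
              mul_le_mul e1 e4 (by positivity) (by positivity)
          _ = 2 ^ (((Ioc c (w - 1)).filter B.nt).card + 1) := by ring
          _ ≤ _ := pow_le_pow_right₀ (by norm_num) e5
  have e1 := key v hv h3 h4
  have e2 := card_nt hB.mono c (v - 1 - c)
  rw [show c + (v - 1 - c) = v - 1 by omega] at e2
  have e3 : (2 : ℝ) ^ ((Ioc c (v - 1)).filter B.nt).card ≤ 2 ^ 64 * mu (64 * (v - c)) := by
    rw [← mu_mul]; exact mu_le 64 (by omega)
  have e4 : mu (64 * (v - c)) * mu ((v - c) * cp) ≤ rt (2 * cK) ^ (v - c) := by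
    rw [← mu_add]
    exact rt_le cC0 (by simp [cK]) (by simp only [cK, cp, cC]; omega)
  have e5 := amp_pos (K := cK) (L := B.L) bt_gt c v
  have e6 := mu_pos (64 * (v - c))
  refine le_of_mul_le_mul_right ?_ e6
  nlinarith

end Pool.Agent.Lib.MP_755262_lc
end
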