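import Pool.Agent.Lib.MP_755262_lc.Scheme
import Pool.Agent.Lib.MP_755262_lc.Online

/-- A deterministic online conflict-free colouring of points on a line with respect to intervals
that uses at most `C log n log log n + C` colours after `n` insertions. -/
theorem Pool.Agent.Lib.MP_755262_lc.loglog_result :
    ∃ A : List ℝ → ℕ, ∃ C : ℕ, ∀ x : ℕ → ℝ, Function.Injective x → ∀ n : ℕ,
      (∀ a b : ℝ, (∃ i, i < n ∧ x i ∈ Set.Icc a b) →
        ∃ i, i < n ∧ x i ∈ Set.Icc a b ∧
          ∀ j, j < n → x j ∈ Set.Icc a b → j ≠ i →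
            A ((List.range (j + 1)).map x) ≠ A ((List.range (i + 1)).map x)) ∧
      ((Finset.range n).image (fun i => A ((List.range (i + 1)).map x))).card
        ≤ C * Nat.log 2 n * Nat.log 2 (Nat.log 2 n) + C := by
  obtain ⟨G, Pal, C, h1, h2, h3, h4, h5, h6⟩ := Pool.Agent.Lib.MP_755262_lc.exists_global
  obtain ⟨A, hA⟩ := Pool.Agent.Lib.MP_755262_lc.online h1 h2 h3 h4 h5
  exact ⟨A, C, fun x hx n => ⟨(hA x hx n).1, (hA x hx n).2.trans (h6 n)⟩⟩
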