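import Pool.Agent.Lib.MP_755262_lc.Piv

/-!
Colouring schemes for a bounded number of insertions, and their composition.
-/

open Finset

namespace Pool.Agent.Lib.MP_755262_lc

variable {α β : Type} [DecidableEq α] [DecidableEq β]

/-- Number of occurrences. -/
def ct (l : List α) (c : α) : ℕ := l.count c

lemma ct_cons (x c : α) (l : List α) : ct (x :: l) c = ct l c + if x = c then 1 else 0 := by
  simp [ct, List.count_cons]

lemma ct_map {f : α → β} (hf : Function.Injective f) (l : List α) (c : α) :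
    ct (l.map f) (f c) = ct l c := List.count_map_of_injective _ _ hf _

/-- An invariant of colour sequences that allows up to `M` insertions, each at distance less than
`m` from an end. -/
structure Sch (I : List α → Prop) (pal : Finset α) (M m : ℕ) : Prop where
  nil : I []
  inf : ∀ l s, I l → s <:+: l → I s
  ins : ∀ l₁ l₂, I (l₁ ++ l₂) → (l₁ ++ l₂).length < M → l₁.length < m ∨ l₂.length < m →
    ∃ c ∈ pal, I (l₁ ++ c :: l₂)
  uniq : ∀ l, I l → l ≠ [] → ∃ c, ct l c = 1

lemma Sch.map {I : List α → Prop} {pal : Finset α} {M m : ℕ} (h : Sch I pal M m) {f : α → β}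
    (hf : Function.Injective f) :
    Sch (fun l => ∃ l₀, I l₀ ∧ l = l₀.map f) (pal.image f) M m where
  nil := ⟨[], h.nil, rfl⟩
  inf := by
    rintro l s ⟨l₀, h0, rfl⟩ hs
    obtain ⟨s₀, h1, rfl⟩ := List.infix_map_iff.1 hs
    exact ⟨s₀, h.inf _ _ h0 h1, rfl⟩
  ins := by
    rintro l₁ l₂ ⟨l₀, h0, h1⟩ h2 h3
    obtain ⟨a, b, rfl, rfl, rfl⟩ := List.map_eq_append_iff.1 h1.symm
    obtain ⟨c, hc, h4⟩ := h.ins a b h0 (by simpa using h2) (by simpa using h3)
    exact ⟨f c, mem_image_of_mem f hc, _, h4, by simp⟩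
  uniq := by
    rintro l ⟨l₀, h0, rfl⟩ h1
    obtain ⟨c, hc⟩ := h.uniq l₀ h0 (by simpa using h1)
    exact ⟨f c, by rwa [ct_map hf]⟩

lemma sch_base (M : ℕ) : Sch (fun l : List ℕ => l.Nodup) (range M) M M where
  nil := List.nodup_nil
  inf := fun _ _ h hs => h.sublist hs.sublist
  ins := by
    intro l₁ l₂ h h1 _
    obtain ⟨c, hc, h2⟩ := exists_mem_notMem_of_card_lt_card (s := (l₁ ++ l₂).toFinset)
      (t := range M) (by simpa using (List.toFinset_card_le _).trans_lt h1)
    exact ⟨c, hc, List.perm_middle.nodup_iff.2 (List.nodup_cons.2 ⟨by simpa using h2, h⟩)⟩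
  uniq := by
    intro l h h1
    obtain ⟨c, hc⟩ := List.exists_mem_of_ne_nil l h1
    exact ⟨c, List.count_eq_one_of_mem h hc⟩

/-- Every block of left colours satisfies `I`. -/
def Cells (I : List α → Prop) (l : List (α ⊕ β)) : Prop := ∀ s, s.map Sum.inl <:+: l → I s

omit [DecidableEq α] [DecidableEq β] in
lemma cell_right (l : List (α ⊕ β)) :
    ∃ b : List α, b.map Sum.inl <+: l ∧ ∀ b' : List α, b'.map Sum.inl <+: l → b' <+: b := by
  induction l with
  | nil => exact ⟨[], by simp, fun b' h => by simpa using h⟩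
  | cons x l ih =>
    obtain ⟨b, h1, h2⟩ := ih
    rcases x with x | x
    · refine ⟨x :: b, by simpa using h1, fun b' h => ?_⟩
      rcases b' with _ | ⟨y, b'⟩
      · simp
      · simp only [List.map_cons, List.cons_prefix_cons, Sum.inl.injEq] at h ⊢
        exact ⟨h.1, h2 _ h.2⟩
    · refine ⟨[], by simp, fun b' h => ?_⟩
      rcases b' with _ | ⟨y, b'⟩
      · simp
      · simp at h

omit [DecidableEq α] [DecidableEq β] in
lemma cell_left (l : List (α ⊕ β)) :
    ∃ a : List α, a.map Sum.inl <:+ l ∧ ∀ a' : List α, a'.map Sum.inl <:+ l → a' <:+ a := by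
  obtain ⟨b, h1, h2⟩ := cell_right l.reverse
  refine ⟨b.reverse, ?_, fun a' h => ?_⟩
  · rwa [List.map_reverse, ← List.reverse_prefix, List.reverse_reverse]
  · rw [← List.reverse_prefix, List.reverse_reverse]
    exact h2 _ (by rwa [List.map_reverse, List.reverse_prefix])

omit [DecidableEq α] [DecidableEq β] in
lemma Cells.inr {I : List α → Prop} {l₁ l₂ : List (α ⊕ β)} (h : Cells I (l₁ ++ l₂)) (c : β) :
    Cells I (l₁ ++ Sum.inr c :: l₂) := by
  intro s hs
  rcases infix_ins hs with hs | ⟨a, b, -, -, h1⟩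
  · exact h s hs
  · have : Sum.inr c ∈ s.map (Sum.inl : α → α ⊕ β) := by rw [h1]; simp
    simp at this

omit [DecidableEq α] [DecidableEq β] in
lemma Cells.inl {I : List α → Prop} (hI : ∀ l s, I l → s <:+: l → I s) {l₁ l₂ : List (α ⊕ β)}
    (h : Cells I (l₁ ++ l₂)) {a b : List α} {c : α}
    (ha : ∀ a' : List α, a'.map Sum.inl <:+ l₁ → a' <:+ a)
    (hb : ∀ b' : List α, b'.map Sum.inl <+: l₂ → b' <+: b) (hc : I (a ++ c :: b)) :
    Cells I (l₁ ++ Sum.inl c :: l₂) := by
  intro s hs
  rcases infix_ins hs with hs | ⟨a', b', h1, h2, h3⟩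
  · exact h s hs
  · obtain ⟨a₀, t, rfl, rfl, h4⟩ := List.map_eq_append_iff.1 h3
    obtain ⟨c₀, b₀, rfl, h5, rfl⟩ := List.map_eq_cons_iff.1 h4
    obtain rfl := Sum.inl.inj h5
    exact hI _ _ hc (infix_mid (ha _ h1) (List.cons_prefix_cons.2 ⟨rfl, hb _ h2⟩))

omit [DecidableEq α] [DecidableEq β] in
lemma all_left (l : List (α ⊕ β)) : (∃ y, Sum.inr y ∈ l) ∨ ∃ s : List α, l = s.map Sum.inl := by
  induction l with
  | nil => exact Or.inr ⟨[], rfl⟩
  | cons x l ih =>
    rcases x with x | x
    · rcases ih with ⟨y, h⟩ | ⟨s, rfl⟩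
      · exact Or.inl ⟨y, by simp [h]⟩
      · exact Or.inr ⟨x :: s, rfl⟩
    · exact Or.inl ⟨x, by simp⟩

lemma Cells.uniq {I : List α → Prop} (hI : ∀ l, I l → l ≠ [] → ∃ c, ct l c = 1) {s : List α}
    (h : Cells (β := β) I (s.map Sum.inl)) (h1 : s.map (Sum.inl : α → α ⊕ β) ≠ []) :
    ∃ c, ct (s.map (Sum.inl : α → α ⊕ β)) c = 1 := by
  obtain ⟨c, hc⟩ := hI s (h s List.infix_rfl) (by simpa using h1)
  exact ⟨Sum.inl c, by rwa [ct_map Sum.inl_injective]⟩

/-- The height of a colour. -/
def ht : α ⊕ ℕ → ℕ := Sum.elim (fun _ => 0) (· + 1)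

omit [DecidableEq α] in
lemma top_ht (a : List α) : top ((a.map Sum.inl).map ht) = 0 := by
  induction a with
  | nil => rfl
  | cons x a ih => rw [List.map_cons, List.map_cons, top_cons, ih]; rfl

lemma top_suffix {a b : List ℕ} (h : a <:+: b) : top a ≤ top b := by
  obtain ⟨s, t, rfl⟩ := h
  simp

lemma count_ht (l : List (α ⊕ ℕ)) (y : ℕ) : ct l (Sum.inr y) = (l.map ht).count (y + 1) := by
  induction l with
  | nil => rfl
  | cons x l ih => rcases x with x | x <;> simp [List.count_cons, ct_cons, ih, ht]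

lemma stepA {I : List α → Prop} {pal : Finset α} {m : ℕ} (h : Sch I pal (2 * m) (2 * m)) (l : ℕ) :
    ∃ I' : List (α ⊕ ℕ) → Prop, Sch I' (pal.disjSum (range (6000 * (2 * l + 4)))) (2 ^ l) m := by
  obtain ⟨β, hβ, hK⟩ := exists_root 2 (by norm_num)
  obtain ⟨γ, hγ, hK'⟩ := exists_root 40 (by norm_num)
  refine ⟨fun r => Cells I r ∧ J β γ l m (r.map ht), ⟨fun s hs => ?_, J_nil⟩, ?_, ?_, ?_⟩
  · obtain rfl : s = [] := by simpa using hs
    exact h.nil
  · exact fun r s hr hs => ⟨fun t ht => hr.1 t (ht.trans hs), hr.2.sub (hs.map _)⟩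
  · rintro l₁ l₂ ⟨h1, h2⟩ h3 h4
    obtain ⟨a, a1, a2⟩ := cell_left l₁
    obtain ⟨b, b1, b2⟩ := cell_right l₂
    rw [List.map_append] at h2
    have a3 := a1.length_le
    have b3 := b1.length_le
    rw [List.length_map] at a3 b3
    rcases lt_or_ge (a ++ b).length (2 * m) with h5 | h5
    · obtain ⟨c, hc, h6⟩ := h.ins a b (h1 _ (by rw [List.map_append]; exact infix_mid a1 b1)) h5
        (Or.inl (by simp at h5; omega))
      exact ⟨Sum.inl c, by simpa using hc, h1.inl h.inf a2 b2 h6, by simpa [ht] using h2.zero⟩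
    · rw [List.length_append] at h5
      obtain ⟨c, c1, c2, c3⟩ : ∃ c, 1 ≤ c ∧ c ≤ 6000 * (2 * l + 4) ∧
          J β γ l m (l₁.map ht ++ c :: l₂.map ht) := by
        rcases h4 with h4 | h4
        · refine h2.pivot' hβ hK hγ hK' (by simpa using h3.le) (by simpa using h4) fun s hs h6 => ?_
          have := top_suffix (List.prefix_of_prefix_length_le hs (b1.map ht)
            (by simp; omega)).isInfix
          rw [top_ht] at this; omega
        · refine h2.pivot hβ hK hγ hK' (by simpa using h3.le) (by simpa using h4) fun s hs h6 => ?_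
          have := top_suffix (List.suffix_of_suffix_length_le hs (a1.map ht)
            (by simp; omega)).isInfix
          rw [top_ht] at this; omega
      obtain ⟨c, rfl⟩ : ∃ d, c = d + 1 := ⟨c - 1, by omega⟩
      exact ⟨Sum.inr c, by simp; omega, h1.inr c, by simpa [ht] using c3⟩
  · rintro r ⟨h1, h2⟩ h3
    rcases all_left r with ⟨y, hy⟩ | ⟨s, rfl⟩
    · have h4 : y + 1 ≤ top (r.map ht) := le_top' (List.mem_map.2 ⟨_, hy, rfl⟩)
      have h5 := (h2 _ List.infix_rfl).1 (by omega)
      refine ⟨Sum.inr (top (r.map ht) - 1), ?_⟩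
      rwa [count_ht, Nat.sub_add_cancel (by omega)]
    · exact h1.uniq h.uniq h3

/-- The right colours of a sequence. -/
def ups (l : List (α ⊕ β)) : List β := l.filterMap Sum.getRight?

omit [DecidableEq α] [DecidableEq β] in
@[simp] lemma ups_append (a b : List (α ⊕ β)) : ups (a ++ b) = ups a ++ ups b :=
  List.filterMap_append

omit [DecidableEq α] [DecidableEq β] in
@[simp] lemma ups_inl (x : α) (b : List (α ⊕ β)) : ups (Sum.inl x :: b) = ups b := rfl

omit [DecidableEq α] [DecidableEq β] in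
@[simp] lemma ups_inr (x : β) (b : List (α ⊕ β)) : ups (Sum.inr x :: b) = x :: ups b := rfl

omit [DecidableEq α] [DecidableEq β] in
@[simp] lemma ups_map (a : List α) : ups (β := β) (a.map Sum.inl) = [] := by
  induction a with
  | nil => rfl
  | cons x a ih => simpa using ih

lemma count_ups (l : List (α ⊕ β)) (y : β) : ct l (Sum.inr y) = ct (ups l) y := by
  induction l with
  | nil => rfl
  | cons x l ih => rcases x with x | x <;> simp [ct_cons, ih]

lemma stepB {I : List α → Prop} {pal : Finset α} {I' : List β → Prop} {pal' : Finset β}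
    {n m M : ℕ} (h : Sch I pal n m) (h' : Sch I' pal' M M) (hn : n + m ≤ M * (m + 1)) :
    ∃ I'' : List (α ⊕ β) → Prop, Sch I'' (pal.disjSum pal') n n := by
  refine ⟨fun r => Cells I r ∧ I' (ups r) ∧
    ∀ s, s <:+: r → (ups s).length * (m + 1) ≤ s.length + m, ⟨fun s hs => ?_, h'.nil, ?_⟩,
    ?_, ?_, ?_⟩
  · obtain rfl : s = [] := by simpa using hs
    exact h.nil
  · intro s hs
    obtain rfl : s = [] := by simpa using hs
    simp [ups]
  · exact fun r s hr hs => ⟨fun t ht => hr.1 t (ht.trans hs), h'.inf _ _ hr.2.1 (hs.filterMap _),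
      fun t ht => hr.2.2 t (ht.trans hs)⟩
  · rintro l₁ l₂ ⟨h1, h2, h3⟩ h4 -
    obtain ⟨a, a1, a2⟩ := cell_left l₁
    obtain ⟨b, b1, b2⟩ := cell_right l₂
    have hab : (a ++ b).map Sum.inl <:+: l₁ ++ l₂ := by
      rw [List.map_append]; exact infix_mid a1 b1
    by_cases h5 : a.length < m ∨ b.length < m
    · obtain ⟨c, hc, h6⟩ := h.ins a b (h1 _ hab)
        (lt_of_le_of_lt (by simpa using hab.length_le) h4) h5
      refine ⟨Sum.inl c, by simpa using hc, h1.inl h.inf a2 b2 h6, by simpa using h2,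
        fun s hs => ?_⟩
      rcases infix_ins hs with hs' | ⟨s, t, hs', ht, rfl⟩
      · exact h3 s hs'
      · have := h3 _ (infix_mid hs' ht)
        simp only [ups_append, ups_inl, List.length_append, List.length_cons] at this ⊢
        omega
    · have h6 := h3 _ List.infix_rfl
      have h7 : (ups (l₁ ++ l₂)).length < M := lt_of_mul_lt_mul_right (a := m + 1)
        (by omega) (Nat.zero_le _)
      rw [ups_append] at h2 h7
      obtain ⟨c, hc, h8⟩ := h'.ins _ _ h2 h7 (Or.inl (by simp at h7; omega))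
      refine ⟨Sum.inr c, by simpa using hc, h1.inr c, by simpa using h8, fun s hs => ?_⟩
      rcases infix_ins hs with hs' | ⟨s, t, hs', ht, rfl⟩
      · exact h3 s hs'
      have e1 : (ups s).length * (m + 1) ≤ s.length := by
        rcases List.suffix_or_suffix_of_suffix hs' a1 with h9 | ⟨p, rfl⟩
        · have := (h9.filterMap Sum.getRight?).length_le
          change (ups s).length ≤ (ups _).length at this
          rw [ups_map] at this
          simp [Nat.le_zero.1 this]
        · have := h3 p (((List.prefix_append _ _).isInfix.trans hs'.isInfix).trans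
            (List.prefix_append _ _).isInfix)
          simp only [ups_append, ups_map, List.length_append, List.length_map, List.length_nil,
            add_zero]
          omega
      have e2 : (ups t).length * (m + 1) ≤ t.length := by
        rcases List.prefix_or_prefix_of_prefix ht b1 with h9 | ⟨p, rfl⟩
        · have := (h9.filterMap Sum.getRight?).length_le
          change (ups t).length ≤ (ups _).length at this
          rw [ups_map] at this
          simp [Nat.le_zero.1 this]
        · have := h3 p (((List.suffix_append _ _).isInfix.trans ht.isInfix).trans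
            (List.suffix_append _ _).isInfix)
          simp only [ups_append, ups_map, List.length_append, List.length_map, List.length_nil,
            zero_add]
          omega
      simp only [ups_append, ups_inr, List.length_append, List.length_cons]
      nlinarith
  · rintro r ⟨h1, h2, -⟩ h3
    rcases all_left r with ⟨y, hy⟩ | ⟨s, rfl⟩
    · obtain ⟨c, hc⟩ := h'.uniq _ h2 (List.ne_nil_of_mem (a := y)
        (List.mem_filterMap.2 ⟨_, hy, rfl⟩))
      exact ⟨Sum.inr c, by rwa [count_ups]⟩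
    · exact h1.uniq h.uniq h3

lemma exists_sch (j : ℕ) : ∃ (I : List ℕ → Prop) (pal : Finset ℕ),
    Sch I pal (2 * 2 ^ 2 ^ j) (2 * 2 ^ 2 ^ j) ∧ pal.card ≤ 30000 * (j + 1) * 2 ^ j := by
  induction j with
  | zero => exact ⟨_, _, sch_base _, by simp⟩
  | succ j ih =>
    obtain ⟨I, pal, h, hc⟩ := ih
    obtain ⟨I₁, h1⟩ := stepA h (2 ^ (j + 1) + 1)
    have e : 2 ^ (2 ^ (j + 1) + 1) = 2 * 2 ^ 2 ^ (j + 1) := by ring
    rw [e] at h1
    obtain ⟨I₂, h2⟩ := stepB h1 h (by
      rw [pow_succ 2 j, pow_mul]; nlinarith [Nat.zero_le (2 ^ 2 ^ j)])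
    refine ⟨_, _, h2.map Encodable.encode_injective, card_image_le.trans ?_⟩
    rw [card_disjSum, card_disjSum, card_range, pow_succ]
    nlinarith [Nat.one_le_two_pow (n := j)]

/-- The colours of one phase. -/
def phase (j : ℕ) (l : List ℕ) : List ℕ :=
  l.filterMap fun x => if x.unpair.1 = j then some x.unpair.2 else none

lemma phase_append (j : ℕ) (a b : List ℕ) : phase j (a ++ b) = phase j a ++ phase j b :=
  List.filterMap_append

lemma phase_same (j c : ℕ) (b : List ℕ) : phase j (j.pair c :: b) = c :: phase j b := by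
  simp [phase]

lemma phase_ne {i j : ℕ} (h : i ≠ j) (c : ℕ) (b : List ℕ) :
    phase j (i.pair c :: b) = phase j b := by
  simp [phase, h]

lemma count_phase (j c : ℕ) (l : List ℕ) : l.count (j.pair c) = (phase j l).count c := by
  induction l with
  | nil => rfl
  | cons x l ih =>
    rw [← Nat.pair_unpair x]
    generalize x.unpair.1 = i
    generalize x.unpair.2 = d
    by_cases h : i = j
    · subst h
      simp [phase_same, List.count_cons, ih]
    · simp [phase_ne h, ih, h]

theorem exists_global : ∃ (G : List ℕ → Prop) (Pal : ℕ → Finset ℕ) (C : ℕ), Monotone Pal ∧ G [] ∧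
    (∀ l s, G l → s <:+: l → G s) ∧
    (∀ l₁ l₂, G (l₁ ++ l₂) → ∃ c ∈ Pal (l₁ ++ l₂).length, G (l₁ ++ c :: l₂)) ∧
    (∀ l, G l → l ≠ [] → ∃ c, l.count c = 1) ∧
    ∀ n, (Pal n).card ≤ C * Nat.log 2 n * Nat.log 2 (Nat.log 2 n) + C := by
  choose I pal h hc using exists_sch
  refine ⟨fun l => ∀ j, I j (phase j l), fun n => (range (Nat.log 2 (Nat.log 2 n) + 2)).biUnion
    fun j => (pal j).image j.pair, 360000, ?_, fun j => (h j).nil,
    fun l s hl hs j => (h j).inf _ _ (hl j) (hs.filterMap _), ?_, ?_, ?_⟩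
  · intro a b hab
    have := Nat.log_mono_right (b := 2) (Nat.log_mono_right (b := 2) hab)
    exact biUnion_subset_biUnion_of_subset_left _ (range_mono (by omega))
  · intro l₁ l₂ hl
    generalize hn : (l₁ ++ l₂).length = n
    have h1 := hl (Nat.log 2 (Nat.log 2 n) + 1)
    have h2 : (phase (Nat.log 2 (Nat.log 2 n) + 1) (l₁ ++ l₂)).length <
        2 * 2 ^ 2 ^ (Nat.log 2 (Nat.log 2 n) + 1) := by
      have e1 := Nat.lt_pow_succ_log_self (b := 2) (by norm_num) n
      have e2 := Nat.lt_pow_succ_log_self (b := 2) (by norm_num) (Nat.log 2 n)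
      have e3 := Nat.pow_le_pow_right (n := 2) (by norm_num) (Nat.succ_le_of_lt e2)
      have e4 : (phase (Nat.log 2 (Nat.log 2 n) + 1) (l₁ ++ l₂)).length ≤ n :=
        hn ▸ List.length_filterMap_le _ _
      simp only [Nat.succ_eq_add_one] at *
      omega
    rw [phase_append] at h1 h2
    obtain ⟨c, c1, c2⟩ := (h _).ins _ _ h1 h2 (Or.inl (by simp at h2; omega))
    refine ⟨Nat.pair (Nat.log 2 (Nat.log 2 n) + 1) c,
      mem_biUnion.2 ⟨_, mem_range.2 (by omega), mem_image_of_mem _ c1⟩, fun j => ?_⟩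
    rw [phase_append]
    by_cases hj : Nat.log 2 (Nat.log 2 n) + 1 = j
    · subst hj
      rwa [phase_same]
    · rw [phase_ne hj, ← phase_append]
      exact hl j
  · intro l hl h0
    obtain ⟨x, hx⟩ := List.exists_mem_of_ne_nil l h0
    obtain ⟨c, hc⟩ := (h x.unpair.1).uniq _ (hl _) (List.ne_nil_of_mem (a := x.unpair.2)
      (List.mem_filterMap.2 ⟨x, hx, by simp⟩))
    exact ⟨x.unpair.1.pair c, by rwa [count_phase]⟩
  · intro n
    have h1 : ∀ J, ((range J).biUnion fun j => (pal j).image j.pair).card ≤ 30000 * J * 2 ^ J := by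
      intro J
      induction J with
      | zero => simp
      | succ J ih =>
        rw [range_add_one, biUnion_insert]
        have := (card_image_le (s := pal J) (f := J.pair)).trans (hc J)
        refine (card_union_le _ _).trans ?_
        rw [pow_succ]
        nlinarith [Nat.zero_le (2 ^ J)]
    refine (h1 _).trans ?_
    rcases Nat.eq_zero_or_pos (Nat.log 2 (Nat.log 2 n)) with h2 | h2
    · rw [h2]; norm_num
    · have h3 := Nat.pow_log_le_self 2 (x := Nat.log 2 n) (by rintro h3; simp [h3] at h2)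
      generalize Nat.log 2 (Nat.log 2 n) = y at *
      rw [pow_add]
      calc _ ≤ 30000 * (3 * y) * (Nat.log 2 n * 2 ^ 2) := by gcongr; omega
        _ ≤ _ := by nlinarith

end Pool.Agent.Lib.MP_755262_lc
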